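import Pool.Agent.H183.NI.Stm
import Pool.Agent.H183.MU.EVEN

/-!
# Mann's test for a symmetric function (proof of `S_EVENF`), helper134 for helper183

Adapted from `Pool/Agent/H183/MU/EVEN.lean`.
-/

set_option autoImplicit false

namespace Pool.Agent.H183.NI

namespace EVENF

open Finset
open Pool.Agent.TH66.SG (cor final)
open Pool.Agent.H183.MU.EVEN (descent_sym)

/-- Mann's test for a symmetric function -/
theorem mann_fun {H : Type} [CommGroup H] [Fintype H] [DecidableEq H] (d : H → ℤ) (k mu : ℤ)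
    (u w : ℕ) (hdk : ∑ h, d h = k)
    (hcor : ∀ h, cor d h = mu + (if h = 1 then (u : ℤ) ^ 2 else 0)) (hw : Fintype.card H = w)
    (hvw : 4 < w) (hu : 0 < u) (huw : Nat.Coprime u w) (hsym : ∀ h, d h⁻¹ = d h) :
    (w : ℤ) ∣ k + u ∨ (w : ℤ) ∣ k - u := by
  classical
  have hw2 : 2 < w := by omega
  have hcardH : (∑ _h : H, (1 : ℤ)) = w := by simp [hw]
  have hk2 : k ^ 2 = w * mu + (u : ℤ) ^ 2 := by
    have e1 : ∑ g, cor d g = k ^ 2 := by
      unfold cor
      rw [sum_comm]
      have : ∀ h : H, ∑ g : H, d (g * h) * d h = k * d h := by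
        intro h
        rw [← sum_mul, Fintype.sum_equiv (Equiv.mulRight h) (fun g => d (g * h)) d (fun g => rfl), hdk]
      rw [sum_congr rfl fun h _ => this h, ← mul_sum, hdk]
      ring
    rw [← e1, sum_congr rfl fun g _ => hcor g, sum_add_distrib, sum_ite_eq', if_pos (mem_univ _)]
    have : ∑ _x : H, mu = (∑ _h : H, (1 : ℤ)) * mu := by rw [sum_mul]; simp
    rw [this, hcardH]
  set f : H → ℤ := fun h => w * d h - k with hf
  have hcf : ∀ g, cor f g = (u : ℤ) ^ 2 * ((if g = 1 then (w : ℤ) ^ 2 else 0) - w) := by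
    intro g
    have e1 : cor f g = w ^ 2 * cor d g - w * k * (∑ h, d (g * h)) - w * k * (∑ h, d h) +
        k ^ 2 * ∑ _h : H, (1 : ℤ) := by
      unfold cor
      rw [mul_sum, mul_sum, mul_sum, mul_sum, ← sum_sub_distrib, ← sum_sub_distrib,
        ← sum_add_distrib]
      refine sum_congr rfl fun h _ => ?_
      simp only [hf]
      ring
    have e2 : ∑ h, d (g * h) = k := by
      rw [Fintype.sum_equiv (Equiv.mulLeft g) (fun h => d (g * h)) d (fun h => rfl), hdk]
    rw [e1, e2, hdk, hcardH, hcor]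
    split_ifs
    · linear_combination (-(w : ℤ)) * hk2
    · linear_combination (-(w : ℤ)) * hk2
  have hfs : ∀ h, f h⁻¹ = f h := by
    intro h
    simp only [hf]
    rw [hsym]
  obtain ⟨y, hy, hyc⟩ := descent_sym w hw hw2 u hu huw f _ hfs hcf
  have hu' : (u : ℤ) ≠ 0 := by exact_mod_cast hu.ne'
  have hsum : ∑ h, y h = 0 := by
    have e : (u : ℤ) * ∑ h, y h = 0 := by
      rw [mul_sum, ← sum_congr rfl fun h _ => hy h]
      simp only [hf]
      rw [sum_sub_distrib, ← mul_sum, hdk]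
      have : ∑ _x : H, k = k * ∑ _h : H, (1 : ℤ) := by rw [mul_sum]; simp
      rw [this, hcardH]
      ring
    exact (mul_eq_zero.1 e).resolve_left hu'
  have hsq : ∑ h, y h ^ 2 = ((1 : ℕ) : ℤ) ^ 2 * ((w : ℤ) ^ 2 - w) := by
    have := hyc 1
    rw [if_pos rfl] at this
    rw [Nat.cast_one, one_pow, one_mul, ← this]
    unfold cor
    exact sum_congr rfl fun h _ => by rw [one_mul, sq]
  have hcop : IsCoprime (w : ℤ) (u : ℤ) := by
    rw [Nat.isCoprime_iff_coprime]
    exact huw.symm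
  have hwpos : (0 : ℤ) < w := by exact_mod_cast (by omega : 0 < w)
  obtain ⟨r, hr⟩ : ∃ r : ℤ, r = y 1 % w := ⟨_, rfl⟩
  have hr0 : 0 ≤ r := hr ▸ Int.emod_nonneg _ hwpos.ne'
  have hr1 : r < w := hr ▸ Int.emod_lt_of_pos _ hwpos
  have hyr : ∀ h, ∃ z : ℤ, y h = r + w * z := by
    intro h
    have h1 : (w : ℤ) ∣ u * (y h - y 1) := by
      refine ⟨d h - d 1, ?_⟩
      have h2 := hy h
      have h3 := hy 1
      simp only [hf] at h2 h3
      linarith
    have h2 := hcop.dvd_of_dvd_mul_left h1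
    have h3 : (w : ℤ) ∣ y h - r := by
      have h4 : (w : ℤ) ∣ y 1 - r := by
        rw [hr]
        exact Int.dvd_self_sub_emod
      have := dvd_add h2 h4
      rwa [sub_add_sub_cancel] at this
    obtain ⟨z, hz⟩ := h3
    exact ⟨z, by linarith⟩
  have hfin := final w hw 1 one_pos (by omega) y r hr0 hr1 hyr hsum hsq
  rw [Nat.cast_one] at hfin
  obtain ⟨z, hz⟩ := hyr 1
  have h5 := hy 1
  simp only [hf] at h5
  rcases hfin with h | h
  · left
    refine ⟨d 1 - u * z, ?_⟩
    rw [hz, h] at h5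
    linarith
  · right
    refine ⟨d 1 - u - u * z, ?_⟩
    rw [hz, h] at h5
    linarith

end EVENF

open Finset in
theorem t_EVENF : S_EVENF := by
  intro H _ _ _ f k mu u w hdf hw hw4 hu huw hsym
  refine EVENF.mann_fun (fun h => (f h : ℤ)) k mu u w ?_ ?_ hw hw4 hu huw ?_
  · rw [← hdf.1]
    push_cast
    rfl
  · intro g
    have h1 := congrArg (fun n : ℕ => (n : ℤ)) (hdf.2 g)
    unfold Pool.Agent.TH66.SG.cor
    push_cast at h1
    exact h1
  · intro h
    rw [hsym]

end Pool.Agent.H183.NI
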