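import Pool.Agent.H183.NI.SQPN
import Pool.Agent.H183.SQ.REG
import Pool.Graph.R_pool_sql_team_seeded_707910d6.Results.MP_79499b_co.PolynomialOrders
import Pool.Graph.R_pool_sql_team_seeded_707910d6.Results.MP_c38931_co.PolynomialOrders

/-!
# Orders which are values of a polynomial, groups with a small commutator subgroup: assembly
-/

set_option autoImplicit false

namespace Pool.Agent.H183.NI

open Polynomial Filter Topology Pool.Agent.H771R2.Dens Pool.Agent.H183.PO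

/-- The density theorem for squares, as a statement. -/
def S_SQPN : Prop := ∀ g : ℤ[X], 0 < g.natDegree → ∀ lam : ℕ, 1 ≤ lam → ∀ C : ℕ,
  Tendsto (fun N : ℕ => (cnt (fun t : ℕ => HasGC C (g.eval (t : ℤ)).natAbs lam) N : ℝ) / N)
    atTop (𝓝 0)

/-- planar difference set of order `n` in a group with a small commutator subgroup -/
def HasPC (C n : ℕ) : Prop :=
  ∃ (G : Type) (_ : Group G) (_ : Fintype G) (_ : DecidableEq G) (D : Finset G),
    Nat.card (commutator G) ≤ C ∧ Fintype.card G = n ^ 2 + n + 1 ∧ D.card = n + 1 ∧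
    ∀ g : G, g ≠ 1 → ((D ×ˢ D).filter (fun p : G × G => p.1 * p.2⁻¹ = g)).card = 1

theorem singer_of_hasPC {C n : ℕ} (hn : 2 ≤ n) (h : HasPC C n) :
    Pool.Agent.Results.MP_79499b_co.PolynomialOrders.IsOrder 3 n := by
  obtain ⟨G, i1, i2, i3, D, -, h1, h2, h3⟩ := h
  refine ⟨hn, 3, by decide, le_rfl, by norm_num, G, i1, i2, i3, D, ?_, ?_, ?_⟩
  · rw [h1]
    obtain ⟨m, rfl⟩ : ∃ m, n = m + 1 := ⟨n - 1, by omega⟩
    rw [Nat.add_sub_cancel]
    have h4 : (m + 1) ^ 3 = ((m + 1) ^ 2 + (m + 1) + 1) * m + 1 := by ring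
    rw [h4, Nat.add_sub_cancel]
  · rw [h2]
    obtain ⟨m, rfl⟩ : ∃ m, n = m + 1 := ⟨n - 1, by omega⟩
    rw [Nat.add_sub_cancel]
    have h4 : (m + 1) ^ (3 - 1) = (m + 1 + 1) * m + 1 := by
      show (m + 1) ^ 2 = _
      ring
    rw [h4, Nat.add_sub_cancel]
  · intro g hg
    rw [h3 g hg]
    show 1 * (n - 1) = n ^ 1 - 1
    rw [pow_one, one_mul]

theorem planar (hS : S_SQPN) (hG : S_GAUSS) (C : ℕ) (f : ℤ[X]) (hf : 0 < f.natDegree) :
    Tendsto (fun N : ℕ => ({t : ℕ | t < N ∧ ∃ n : ℕ, 2 ≤ n ∧ f.eval (t : ℤ) = n ∧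
      HasPC C n}.ncard : ℝ) / N) atTop (𝓝 0) := by
  classical
  by_cases hsq : ∃ g : ℚ[X], f.map (Int.castRingHom ℚ) = g ^ 2
  · obtain ⟨h, rfl⟩ := hG f hsq
    have hh : 0 < h.natDegree := by
      rw [natDegree_pow] at hf
      omega
    refine squeeze_zero (fun N => by positivity) (fun N => ?_) (hS h hh 1 le_rfl C)
    refine div_le_div_of_nonneg_right ?_ (Nat.cast_nonneg N)
    rw [Nat.cast_le, cnt, ← Set.ncard_coe_finset]
    refine Set.ncard_le_ncard ?_ (Finset.finite_toSet _)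
    rintro t ⟨ht, n, hn, hfn, G, i1, i2, i3, D, hc, -, h2, h3⟩
    rw [Finset.mem_coe, Finset.mem_filter, Finset.mem_range]
    rw [eval_pow] at hfn
    have h4 : ((h.eval (t : ℤ)).natAbs : ℤ) ^ 2 = (n : ℤ) := by
      rw [← hfn, Int.natCast_natAbs, sq_abs]
    have h5 : n = (h.eval (t : ℤ)).natAbs ^ 2 := by exact_mod_cast h4.symm
    exact ⟨ht, G, i1, i2, i3, D, hc, by rw [h2, h5], h3⟩
  · have h1 := (Pool.Agent.Results.MP_79499b_co.PolynomialOrders.result f hf hsq 3).1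
    refine squeeze_zero (fun N => by positivity) (fun N => ?_) h1
    refine div_le_div_of_nonneg_right ?_ (Nat.cast_nonneg N)
    rw [Nat.cast_le]
    refine Set.ncard_le_ncard ?_ ((Set.finite_Iio N).subset fun t ht => ht.1)
    rintro t ⟨ht, n, hn, hfn, hp⟩
    exact ⟨ht, n, hfn, singer_of_hasPC hn hp⟩

/-- regular design with a group whose commutator subgroup is small -/
def HasRC (C lam n : ℕ) : Prop :=
  ∃ (v : ℕ) (B : Fin v → Finset (Fin v)) (H : Subgroup (Equiv.Perm (Fin v))),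
    2 ≤ n + lam ∧ Pool.Agent.H951R4.OD.RegDesign v (n + lam) lam B H ∧ Nat.card (commutator H) ≤ C

theorem stab_card {v : ℕ} {H : Subgroup (Equiv.Perm (Fin v))}
    (h : ∀ x y : Fin v, ∃! h : Equiv.Perm (Fin v), h ∈ H ∧ h x = y) (x : Fin v) :
    Nat.card (MulAction.stabilizer H x) = 1 := by
  have hs : Subsingleton (MulAction.stabilizer H x) := by
    constructor
    rintro ⟨⟨a, ha⟩, ha'⟩ ⟨⟨b, hb⟩, hb'⟩
    have h1 : a x = x := ha'
    have h2 : b x = x := hb'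
    obtain ⟨c, -, hc⟩ := h x x
    have h3 : a = b := (hc a ⟨ha, h1⟩).trans (hc b ⟨hb, h2⟩).symm
    subst h3
    rfl
  exact Nat.card_of_subsingleton 1

theorem designs (hS : S_SQPN) (hG : S_GAUSS) (C lam : ℕ) (hlam : 1 ≤ lam) (f : ℤ[X])
    (hf : 0 < f.natDegree) :
    Tendsto (fun N : ℕ => ({t : ℕ | t < N ∧ ∃ n : ℕ, f.eval (t : ℤ) = n ∧
      HasRC C lam n}.ncard : ℝ) / N) atTop (𝓝 0) := by
  classical
  by_cases hsq : ∃ g : ℚ[X], f.map (Int.castRingHom ℚ) = g ^ 2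
  · obtain ⟨h, rfl⟩ := hG f hsq
    have hh : 0 < h.natDegree := by
      rw [natDegree_pow] at hf
      omega
    refine squeeze_zero (fun N => by positivity) (fun N => ?_) (hS h hh lam hlam C)
    refine div_le_div_of_nonneg_right ?_ (Nat.cast_nonneg N)
    rw [Nat.cast_le, cnt, ← Set.ncard_coe_finset]
    refine Set.ncard_le_ncard ?_ (Finset.finite_toSet _)
    rintro t ⟨ht, n, hfn, v, B, H, h2, hd, hc⟩
    rw [Finset.mem_coe, Finset.mem_filter, Finset.mem_range]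
    refine ⟨ht, ?_⟩
    rw [eval_pow] at hfn
    have h4 : ((h.eval (t : ℤ)).natAbs : ℤ) ^ 2 = (n : ℤ) := by
      rw [← hfn, Int.natCast_natAbs, sq_abs]
    have h3 : n = (h.eval (t : ℤ)).natAbs ^ 2 := by exact_mod_cast h4.symm
    subst h3
    have hkv := hd.kv
    obtain ⟨-, i1, i2, D, h5, h6⟩ := Pool.Agent.H183.SQ.REG.regdesign_H hd hlam (by omega)
    exact ⟨H, inferInstance, i1, i2, D, hc, h5, h6⟩
  · have h1 := (Pool.Agent.Results.MP_c38931_co.PolynomialOrders.result lam 1 hlam f hf hsq).1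
    refine squeeze_zero (fun N => by positivity) (fun N => ?_) h1
    refine div_le_div_of_nonneg_right ?_ (Nat.cast_nonneg N)
    rw [Nat.cast_le]
    refine Set.ncard_le_ncard ?_ ((Set.finite_Iio N).subset fun t ht => ht.1)
    rintro t ⟨ht, n, hfn, v, B, H, h2, hd, hc⟩
    refine ⟨ht, n, ⟨v, B, ⟨h2, hd.kv, hd.size, hd.pair⟩, Or.inr ⟨H, hd.aut, Or.inr ⟨?_, ?_⟩⟩⟩,
      hfn⟩
    · intro x y
      obtain ⟨c, hc, -⟩ := hd.reg x y
      exact ⟨c, hc⟩
    · intro q hq _ x hqx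
      rw [stab_card hd.reg x] at hqx
      exact absurd (Nat.dvd_one.1 hqx) hq.one_lt.ne'

end Pool.Agent.H183.NI
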