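import Pool.Agent.H183.NI.Stm

/-!
# NI FIXF: translate fixed by the multiplier, for functions (helper322 for helper183)
-/

set_option autoImplicit false

open Finset

namespace Pool.Agent.H183.NI

theorem t_FIXF : S_FIXF := by
  intro A _ _ _ f k t hk hkA htA hc
  obtain ⟨c, hc⟩ := hc
  have hkA' : (Nat.card A).Coprime k := by rw [Nat.card_eq_fintype_card]; exact hkA.symm
  have htA' : (Nat.card A).Coprime t := by rw [Nat.card_eq_fintype_card]; exact htA.symm
  -- the product
  have h1 : (∏ a : A, a ^ f a) = c ^ k * (∏ a : A, a ^ f a) ^ t := by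
    have e1 : (∏ a : A, a ^ f a) = ∏ a : A, (c * a ^ t) ^ f a := by
      have e2 := Equiv.prod_comp ((powCoprime htA').trans (Equiv.mulLeft c))
        (fun a : A => a ^ f a)
      rw [← e2]
      refine Finset.prod_congr rfl fun a _ => ?_
      change (c * a ^ t) ^ f (c * a ^ t) = (c * a ^ t) ^ f a
      rw [hc]
    calc (∏ a : A, a ^ f a) = ∏ a : A, (c * a ^ t) ^ f a := e1
      _ = ∏ a : A, (c ^ f a * (a ^ f a) ^ t) := by
          refine Finset.prod_congr rfl fun a _ => ?_
          rw [mul_pow, ← pow_mul, ← pow_mul, mul_comm t]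
      _ = c ^ k * (∏ a : A, a ^ f a) ^ t := by
          rw [Finset.prod_mul_distrib, Finset.prod_pow_eq_pow_sum, hk, Finset.prod_pow]
  obtain ⟨b, hb⟩ := (powCoprime hkA').surjective (∏ a : A, a ^ f a)
  have hb' : b ^ k = ∏ a : A, a ^ f a := hb
  rw [← hb'] at h1
  have h2 : (c * b ^ t * b⁻¹) ^ k = 1 := by
    rw [mul_pow, mul_pow, inv_pow, ← pow_mul, mul_comm t k, pow_mul]
    rw [← h1, mul_inv_cancel]
  have h3 : c * b ^ t * b⁻¹ = 1 := by
    apply (powCoprime hkA').injective
    change (c * b ^ t * b⁻¹) ^ k = 1 ^ k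
    rw [h2, one_pow]
  refine ⟨b, fun a => ?_⟩
  have h4 : c * b ^ t = b := by
    have := mul_inv_eq_one.1 h3
    exact this
  calc f (b * a ^ t) = f (c * (b * a) ^ t) := by rw [mul_pow, ← mul_assoc, h4]
    _ = f (b * a) := hc _

end Pool.Agent.H183.NI
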