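import Pool.Agent.H183.NI.Stm

/-!
# Nilpotent groups: the image of a difference set in an abelian quotient
-/

set_option autoImplicit false

namespace Pool.Agent.H183.NI

open Finset

namespace IMG

theorem pair_card {G : Type} [Group G] [Fintype G] [DecidableEq G] {D : Finset G} {k lam : ℕ}
    (hD : IsDG D k lam) (hl : lam ≤ k) (h : G) :
    ((D ×ˢ D).filter (fun p : G × G => p.1 * p.2⁻¹ = h)).card =
      lam + if h = 1 then k - lam else 0 := by
  obtain ⟨h1, h2⟩ := hD
  by_cases hh : h = 1
  · subst hh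
    rw [if_pos rfl]
    have e : (D ×ˢ D).filter (fun p : G × G => p.1 * p.2⁻¹ = 1) = D.diag := by
      ext p
      simp only [mem_filter, mem_product, mem_diag, mul_inv_eq_one]
      constructor
      · rintro ⟨⟨h3, _⟩, h5⟩
        exact ⟨h3, h5⟩
      · rintro ⟨h3, h5⟩
        exact ⟨⟨h3, h5 ▸ h3⟩, h5⟩
    rw [e, diag_card, h1]
    omega
  · rw [if_neg hh, h2 h hh, add_zero]

theorem fiber_card {G A : Type} [Group G] [Fintype G] [DecidableEq G] [CommGroup A]
    [DecidableEq A] (φ : G →* A) (hφ : Function.Surjective φ) (g : A) :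
    (univ.filter (fun h : G => φ h = g)).card = Nat.card φ.ker := by
  rw [MonoidHom.card_fiber_eq_of_mem_range φ (hφ g) (hφ 1)]
  refine (Nat.subtype_card _ fun x => ?_).symm
  simp only [mem_filter, mem_univ, true_and, MonoidHom.mem_ker]

end IMG

theorem t_IMG : S_IMG := by
  classical
  intro G A _ _ _ _ _ _ φ hφ D k lam hD hl
  refine ⟨?_, fun g => ?_⟩
  · rw [← hD.1]
    exact (card_eq_sum_card_fiberwise (f := φ) (s := D) (t := univ)
      (fun _ _ => mem_univ _)).symm
  · set T := (D ×ˢ D).filter (fun p : G × G => φ p.1 = g * φ p.2) with hT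
    have e1 : T.card = ∑ a : A, im φ D (g * a) * im φ D a := by
      rw [card_eq_sum_card_fiberwise (f := fun p : G × G => φ p.2) (s := T) (t := univ)
        (fun _ _ => mem_univ _)]
      refine sum_congr rfl fun a _ => ?_
      unfold im
      rw [← card_product]
      congr 1
      ext p
      simp only [hT, mem_filter, mem_product]
      constructor
      · rintro ⟨⟨⟨h1, h2⟩, h3⟩, h4⟩
        exact ⟨⟨h1, by rw [h3, h4]⟩, h2, h4⟩
      · rintro ⟨⟨h1, h3⟩, h2, h4⟩
        exact ⟨⟨⟨h1, h2⟩, by rw [h3, h4]⟩, h4⟩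
    have e2 : T.card = ∑ h ∈ univ.filter (fun h : G => φ h = g),
        ((D ×ˢ D).filter (fun p : G × G => p.1 * p.2⁻¹ = h)).card := by
      rw [card_eq_sum_card_fiberwise (f := fun p : G × G => p.1 * p.2⁻¹) (s := T)
        (t := univ.filter (fun h : G => φ h = g)) (fun p hp => by
          have hp' : p ∈ T := hp
          rw [hT, mem_filter] at hp'
          refine mem_coe.2 (mem_filter.2 ⟨mem_univ _, ?_⟩)
          rw [map_mul, map_inv, hp'.2, mul_inv_cancel_right])]
      refine sum_congr rfl fun h hh => ?_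
      rw [mem_filter] at hh
      congr 1
      ext p
      simp only [hT, mem_filter]
      constructor
      · rintro ⟨⟨h1, _⟩, h3⟩
        exact ⟨h1, h3⟩
      · rintro ⟨h1, h3⟩
        refine ⟨⟨h1, ?_⟩, h3⟩
        rw [← hh.2, ← map_mul, ← h3, inv_mul_cancel_right]
    rw [← e1, e2, sum_congr rfl fun h _ => IMG.pair_card hD hl h, sum_add_distrib, sum_const,
      IMG.fiber_card φ hφ g, smul_eq_mul, mul_comm]
    congr 1
    rw [sum_filter]
    by_cases hg : g = 1
    · rw [if_pos hg, sum_eq_single (1 : G)]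
      · rw [if_pos (by rw [map_one, hg]), if_pos rfl]
      · intro h _ h1
        rw [if_neg h1, ite_self]
      · intro h1
        exact absurd (mem_univ _) h1
    · rw [if_neg hg]
      refine sum_eq_zero fun h _ => ?_
      by_cases h1 : h = 1
      · rw [if_neg (by rw [h1, map_one]; exact fun h => hg h.symm)]
      · rw [if_neg h1, ite_self]

end Pool.Agent.H183.NI
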