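import Pool.Agent.H183.NI.Stm
import Pool.Graph.R_seed8.TH66.SG.Nilp

/-!
# S_KEYQN: the exclusion for groups with a small commutator subgroup
(adapted by helper332 from `Pool/Agent/H183/SQ/KEYQ.lean`)
-/

set_option autoImplicit false

namespace Pool.Agent.H183.NI

open Finset Pool.Agent.H183.MU Pool.Agent.H183.GL

namespace KEYQN

/-- Iterates. -/
lemma iter {H : Type} [CommGroup H] {F : H → ℕ} {p : ℕ} (h : ∀ y : H, F (y ^ p) = F y)
    (j : ℕ) (y : H) : F (y ^ (p ^ j)) = F y := by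
  induction j with
  | zero => simp
  | succ j ih => rw [pow_succ, pow_mul, h, ih]

end KEYQN

/-- **S_KEYQN** -/
theorem t_KEYQN (h1 : S_IMG) (h2 : S_MULTF) (h3 : S_FIXF) (h4 : S_TRF) (h5 : S_PUSHF)
    (h6 : S_EVENF) (h7 : S_PARG) : S_KEYQN := by
  intro u lam p j w₁ w₂ ν hu hl hν hp hpu hlp hw1 hw2 ho1 ho2 hu1 hu2 hl1 hl2 hz1 hz2 hj G _ _ _ D
    hDG hcomm hv1 hv2
  classical
  have : Fact w₁.Prime := ⟨hw1⟩
  have : Fact w₂.Prime := ⟨hw2⟩
  have hpar := h7 G D (u ^ 2 + lam) lam u hDG rfl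
  have hllp : lam < p := by nlinarith
  have huk : u ≤ u ^ 2 + lam := by nlinarith
  obtain ⟨d, hd⟩ : ∃ d, u ^ 2 + lam = d + u := ⟨u ^ 2 + lam - u, by omega⟩
  have hd' : u ^ 2 + lam - u = d := by omega
  rw [hd'] at hpar
  have hpk : ¬ p ∣ u ^ 2 + lam := by
    intro h
    have h5 := (Nat.dvd_add_right (Dvd.dvd.pow hpu two_ne_zero)).1 h
    exact absurd (Nat.le_of_dvd (by omega) h5) (by omega)
  have hpG : ¬ p ∣ Fintype.card G := by
    intro h
    have h5 : p ∣ (u ^ 2 + lam + u) * d := hpar ▸ h.mul_left lam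
    rcases (Nat.Prime.dvd_mul hp).1 h5 with h6 | h6
    · exact hpk ((Nat.dvd_add_left hpu).1 h6)
    · apply hpk
      rw [hd]
      exact dvd_add h6 hpu
  -- the abelianization
  have hof : Function.Surjective (Abelianization.of (G := G)) :=
    QuotientGroup.mk'_surjective (commutator G)
  have hAfin : Finite (Abelianization G) := Finite.of_surjective _ hof
  have hAF : Fintype (Abelianization G) := Fintype.ofFinite _
  have hAG : Nat.card (Abelianization G) ∣ Nat.card G :=
    Subgroup.card_dvd_of_surjective Abelianization.of hof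
  have hpA : ¬ p ∣ Fintype.card (Abelianization G) := by
    intro h
    apply hpG
    rw [← Nat.card_eq_fintype_card] at h ⊢
    exact h.trans hAG
  have hcopA : Nat.Coprime p (Fintype.card (Abelianization G)) :=
    (Nat.Prime.coprime_iff_not_dvd hp).2 hpA
  have hker : Nat.card (Abelianization.of (G := G)).ker ≤ ν := by
    rw [Abelianization.ker_of]
    exact hcomm
  have hDF := h1 G (Abelianization G) Abelianization.of hof D
    (u ^ 2 + lam) lam hDG (Nat.le_add_left _ _)
  rw [Nat.add_sub_cancel] at hDF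
  have hmu : lam * Nat.card (Abelianization.of (G := G)).ker < p ^ 2 := by
    have e1 : lam * Nat.card (Abelianization.of (G := G)).ker ≤ lam * ν :=
      Nat.mul_le_mul_left _ hker
    have e2 := hp.two_le
    nlinarith
  obtain ⟨c, hc⟩ := h2 (Abelianization G) (im Abelianization.of D) (u ^ 2 + lam) (u ^ 2)
    (lam * Nat.card (Abelianization.of (G := G)).ker) p {p} (fun _ => 2) hDF (by positivity) hcopA
    (by
      intro q hq
      rw [mem_singleton] at hq
      subst hq
      refine ⟨hp, hpA, hpk, pow_dvd_pow_of_dvd hpu 2, 1, fun g => by rw [pow_one]⟩)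
    (by rw [prod_singleton]; exact hmu)
  -- residues
  have two_ne : ∀ (w : ℕ) (_ : Fact w.Prime), w ≠ 2 → (2 : ZMod w) ≠ 0 := by
    intro w hw h2 h0
    have : ((2 : ℕ) : ZMod w) = 0 := by exact_mod_cast h0
    rw [ZMod.natCast_eq_zero_iff] at this
    exact h2 ((Nat.prime_dvd_prime_iff_eq hw.out Nat.prime_two).1 this)
  have une : ∀ (w : ℕ) (_ : Fact w.Prime), ¬ w ∣ u → (u : ZMod w) ≠ 0 := by
    intro w hw h h0
    exact h ((ZMod.natCast_eq_zero_iff _ _).1 h0)
  have hA1 : w₁ ∣ u ^ 2 + lam + u := by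
    rw [← ZMod.natCast_eq_zero_iff]
    push_cast
    linear_combination hz1
  have hA2 : w₂ ∣ d := by
    rw [← ZMod.natCast_eq_zero_iff]
    have h5 : ((u ^ 2 + lam : ℕ) : ZMod w₂) = ((d + u : ℕ) : ZMod w₂) := by rw [hd]
    push_cast at h5
    linear_combination hz2 - h5
  have h12 : w₁ ≠ w₂ := by
    rintro rfl
    have h5 : (u : ZMod w₁) * 2 = 0 := by linear_combination hz1 - hz2
    rcases mul_eq_zero.1 h5 with h6 | h6
    · exact une w₁ inferInstance hu1 h6
    · exact two_ne w₁ inferInstance ho1 h6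
  -- the quotients
  obtain ⟨φ, hφ⟩ := Pool.Agent.TH66.SG.nilp_quot (Abelianization G) w₁ hv1
  obtain ⟨ψ, hψ⟩ := Pool.Agent.TH66.SG.nilp_quot (Abelianization G) w₂ hv2
  have hsurj := Pool.Agent.TH66.SG.prod_surj (Abelianization G) w₁ w₂ h12 φ ψ hφ hψ
  have hcardH : Fintype.card (Multiplicative (ZMod w₁) × Multiplicative (ZMod w₂)) = w₁ * w₂ := by
    rw [Fintype.card_prod]
    simp [ZMod.card]
  have hkw1 : Nat.Coprime (u ^ 2 + lam) w₁ := by
    rw [Nat.coprime_comm, Nat.Prime.coprime_iff_not_dvd hw1]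
    intro h
    exact hu1 ((Nat.dvd_add_right h).1 hA1)
  have hkw2 : Nat.Coprime (u ^ 2 + lam) w₂ := by
    rw [Nat.coprime_comm, Nat.Prime.coprime_iff_not_dvd hw2, hd]
    intro h
    exact hu2 ((Nat.dvd_add_right hA2).1 h)
  have hcopk : Nat.Coprime (u ^ 2 + lam)
      (Fintype.card (Multiplicative (ZMod w₁) × Multiplicative (ZMod w₂))) := by
    rw [hcardH]
    exact Nat.Coprime.mul_right hkw1 hkw2
  have hpw : ∀ w : ℕ, w.Prime → w ∣ Nat.card (Abelianization G) → Nat.Coprime p w := by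
    intro w hw hwA
    rw [Nat.coprime_primes hp hw]
    rintro rfl
    rw [Nat.card_eq_fintype_card] at hwA
    exact hpA hwA
  have hcopH : Nat.Coprime p
      (Fintype.card (Multiplicative (ZMod w₁) × Multiplicative (ZMod w₂))) := by
    rw [hcardH]
    exact Nat.Coprime.mul_right (hpw w₁ hw1 hv1) (hpw w₂ hw2 hv2)
  -- push forward
  have hpush := h5 G (Abelianization G) (Multiplicative (ZMod w₁) × Multiplicative (ZMod w₂))
    Abelianization.of (φ.prod ψ) hsurj D p c hcopA hc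
  have hDF2 := h1 G (Multiplicative (ZMod w₁) × Multiplicative (ZMod w₂))
    ((φ.prod ψ).comp Abelianization.of) (hsurj.comp hof) D
    (u ^ 2 + lam) lam hDG (Nat.le_add_left _ _)
  rw [Nat.add_sub_cancel] at hDF2
  obtain ⟨b, hb⟩ := h3 (Multiplicative (ZMod w₁) × Multiplicative (ZMod w₂))
    (im ((φ.prod ψ).comp Abelianization.of) D) (u ^ 2 + lam) p hDF2.1 hcopk hcopH
    ⟨(φ.prod ψ) c, hpush⟩
  have hDF3 := h4 (Multiplicative (ZMod w₁) × Multiplicative (ZMod w₂))
    (im ((φ.prod ψ).comp Abelianization.of) D) (u ^ 2 + lam) (u ^ 2) _ b hDF2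
  have hinv : ∀ y : Multiplicative (ZMod w₁) × Multiplicative (ZMod w₂), y ^ (p ^ j) = y⁻¹ := by
    intro y
    rw [eq_inv_iff_mul_eq_one, ← pow_succ]
    obtain ⟨c, hc⟩ := hj
    rw [hc, pow_mul]
    have : y ^ (w₁ * w₂) = 1 := by
      rw [← hcardH]
      exact pow_card_eq_one
    rw [this, one_pow]
  have hsym : ∀ y : Multiplicative (ZMod w₁) × Multiplicative (ZMod w₂),
      (fun a => im ((φ.prod ψ).comp Abelianization.of) D (b * a)) y⁻¹ =
        (fun a => im ((φ.prod ψ).comp Abelianization.of) D (b * a)) y := by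
    intro y
    have := KEYQN.iter (F := fun a => im ((φ.prod ψ).comp Abelianization.of) D (b * a)) hb j y
    rwa [hinv] at this
  have hw1' : 3 ≤ w₁ := by
    have := hw1.two_le
    omega
  have hw2' : 3 ≤ w₂ := by
    have := hw2.two_le
    omega
  have h4w : 4 < w₁ * w₂ := by nlinarith
  have hcopu : ∀ w : ℕ, w.Prime → ¬ w ∣ u → Nat.Coprime u w := by
    intro w hw h
    rwa [Nat.coprime_comm, Nat.Prime.coprime_iff_not_dvd hw]
  have hcu : Nat.Coprime u (w₁ * w₂) :=
    Nat.Coprime.mul_right (hcopu w₁ hw1 hu1) (hcopu w₂ hw2 hu2)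
  have hM := h6 _ _ (u ^ 2 + lam) _ u (w₁ * w₂) hDF3 hcardH h4w (by omega) hcu hsym
  rcases hM with hM | hM
  · -- contradiction modulo `w₂`
    have h5 : (w₂ : ℤ) ∣ ((u ^ 2 + lam : ℕ) : ℤ) + u :=
      (Dvd.intro_left (w₁ : ℤ) (by push_cast; rfl)).trans hM
    have h6 := (ZMod.intCast_zmod_eq_zero_iff_dvd _ w₂).2 h5
    push_cast at h6
    have h7 : (u : ZMod w₂) * 2 = 0 := by linear_combination h6 - hz2
    rcases mul_eq_zero.1 h7 with h8 | h8
    · exact une w₂ inferInstance hu2 h8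
    · exact two_ne w₂ inferInstance ho2 h8
  · -- contradiction modulo `w₁`
    have h5 : (w₁ : ℤ) ∣ ((u ^ 2 + lam : ℕ) : ℤ) - u :=
      (Dvd.intro _ (by push_cast; rfl)).trans hM
    have h6 := (ZMod.intCast_zmod_eq_zero_iff_dvd _ w₁).2 h5
    push_cast at h6
    have h7 : (u : ZMod w₁) * 2 = 0 := by linear_combination hz1 - h6
    rcases mul_eq_zero.1 h7 with h8 | h8
    · exact une w₁ inferInstance hu1 h8
    · exact two_ne w₁ inferInstance ho1 h8

end Pool.Agent.H183.NI
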