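import Pool.Agent.H183.NI.Stm
import Pool.Agent.H183.GL.MULT2

set_option autoImplicit false
set_option linter.unusedSectionVars false

namespace Pool.Agent.H183.NI

open Finset Pool.Agent.H183.MU Pool.Agent.H183.GL

namespace MULTF

open MonoidAlgebra (single)
open Pool.Agent.H183.GL.MULT2

variable {A : Type} [CommGroup A] [Fintype A] [DecidableEq A]

/-- `∑ a, f a [φ a]` in the group ring -/
noncomputable def Sf (f : A → ℕ) (φ : A → A) : MonoidAlgebra ℤ A := ∑ a, single (φ a) (f a : ℤ)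

theorem coeff_Sf (f : A → ℕ) (φ : A → A) (h : A) :
    (Sf f φ).coeff h = ∑ a, if φ a = h then (f a : ℤ) else 0 := by
  unfold Sf
  rw [MonoidAlgebra.coeff_sum, Finsupp.finsetSum_apply]
  refine Finset.sum_congr rfl fun a _ => ?_
  rw [MonoidAlgebra.coeff_single, Finsupp.single_apply]

theorem coeff_Sf_inj (f : A → ℕ) (φ : A → A) (hφ : Function.Injective φ) (a : A) :
    (Sf f φ).coeff (φ a) = f a := by
  rw [coeff_Sf, Finset.sum_eq_single a]
  · rw [if_pos rfl]
  · intro b _ hb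
    rw [if_neg (fun h => hb (hφ h))]
  · intro hh
    exact absurd (mem_univ _) hh

theorem coeff_Sf_nonneg (f : A → ℕ) (φ : A → A) (h : A) : 0 ≤ (Sf f φ).coeff h := by
  rw [coeff_Sf]
  refine Finset.sum_nonneg fun a _ => ?_
  split_ifs
  · exact Nat.cast_nonneg _
  · exact le_rfl

theorem ep_Sf (f : A → ℕ) (φ : A → A) (k : ℕ) (hk : ∑ a, f a = k) : ep (Sf f φ) = k := by
  unfold ep
  simp_rw [coeff_Sf]
  rw [Finset.sum_comm, ← hk, Nat.cast_sum]
  refine Finset.sum_congr rfl fun a _ => ?_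
  rw [Finset.sum_ite_eq, if_pos (mem_univ _)]

theorem map_Sf (u : A →* A) (f : A → ℕ) (φ : A → A) :
    MonoidAlgebra.mapDomainRingHom ℤ u (Sf f φ) = Sf f (fun a => u (φ a)) := by
  unfold Sf
  rw [map_sum]
  refine Finset.sum_congr rfl fun d _ => ?_
  rw [MonoidAlgebra.mapDomainRingHom_apply, MonoidAlgebra.mapDomain_single]

theorem io_Sf (f : A → ℕ) (φ : A → A) : io A (Sf f φ) = Sf f (fun a => (φ a)⁻¹) := by
  unfold io
  rw [map_Sf]
  rfl

theorem single_mul_Sf (g : A) (f : A → ℕ) (φ : A → A) :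
    single g 1 * Sf f φ = Sf f (fun a => g * φ a) := by
  unfold Sf
  rw [Finset.mul_sum]
  refine Finset.sum_congr rfl fun d _ => ?_
  rw [MonoidAlgebra.single_mul_single, one_mul]

/-- the equation -/
theorem df_eq {f : A → ℕ} {k N mu : ℕ} (h : IsDF f k N mu) :
    Sf f id * Sf f (fun a => a⁻¹) = ((N : ℤ) : MonoidAlgebra ℤ A) +
      ((mu : ℤ) : MonoidAlgebra ℤ A) * Sm (univ : Finset A) id := by
  refine MonoidAlgebra.ext (Finsupp.ext fun m => ?_)
  rw [MonoidAlgebra.coeff_add, Finsupp.add_apply, coeff_int, coeff_int_mul, coeff_Gam, mul_one,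
    coeff_mul']
  have h1 : ∀ g : A, (Sf f id).coeff g = f g := fun g =>
    coeff_Sf_inj f id Function.injective_id g
  have h2 : ∀ g : A, (Sf f (fun a => a⁻¹)).coeff g = f g⁻¹ := by
    intro g
    have := coeff_Sf_inj f (fun a : A => a⁻¹) inv_injective g⁻¹
    simp only [inv_inv] at this
    exact this
  have h3 : ∑ g, (Sf f id).coeff g * (Sf f (fun a => a⁻¹)).coeff (g⁻¹ * m) =
      ∑ a : A, (f (m * a) : ℤ) * f a := by
    symm
    refine Fintype.sum_equiv (Equiv.mulLeft m) _ _ fun a => ?_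
    rw [h1, h2]
    have e : ((Equiv.mulLeft m) a)⁻¹ * m = a⁻¹ := by
      rw [Equiv.coe_mulLeft, mul_inv_rev, inv_mul_cancel_right]
    rw [e, inv_inv]
    rfl
  rw [h3]
  have h4 := h.2 m
  have h5 : (∑ a : A, (f (m * a) : ℤ) * f a) = ((∑ a, f (m * a) * f a : ℕ) : ℤ) := by
    push_cast
    rfl
  rw [h5, h4]
  push_cast
  ring

end MULTF

open MULTF Pool.Agent.H183.GL.MULT2 in
open MonoidAlgebra (single) in
theorem t_MULTF (hL : S_LIFT2) : S_MULTF := by
  intro G _ _ _ f k N' mu t S e hD hlk hcopt hS hle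
  set x := Sf f id with hx
  set x' := Sf f (fun d => d⁻¹) with hx'
  set Γ := Sm (univ : Finset G) id with hΓ
  have hcop : Nat.Coprime (Fintype.card G) t := hcopt.symm
  have h1 := df_eq hD
  rw [← hx, ← hx', ← hΓ] at h1
  obtain ⟨N, hN⟩ : ∃ N : ℤ, N = (N' : ℤ) := ⟨_, rfl⟩
  have hN0 : 0 < N := by
    rw [hN]
    exact_mod_cast hlk
  rw [← hN] at h1
  have hepx : ep x = k := by rw [hx, ep_Sf f id k hD.1]
  have hepx' : ep x' = k := by rw [hx', ep_Sf f _ k hD.1]
  have hepΓ : ep Γ = Fintype.card G := by rw [hΓ, ep_Sm, card_univ]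
  -- k^2 = N + mu v
  have hkk : (k : ℤ) ^ 2 = N + mu * Fintype.card G := by
    have h2 := congrArg ep h1
    rw [ep_mul, ep_add, ep_int_mul, hepx, hepx', hepΓ] at h2
    have h3 : ep ((N : MonoidAlgebra ℤ G)) = N := by
      unfold ep
      simp_rw [coeff_int]
      rw [Finset.sum_ite_eq' univ (1 : G) (fun _ => N), if_pos (mem_univ _)]
    rw [h3] at h2
    linarith
  have htx : tau G t x = Sf f (fun d => d ^ t) := by
    rw [hx]
    unfold tau
    rw [map_Sf]
    rfl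
  have hept : ep (tau G t x) = k := by rw [htx, ep_Sf f _ k hD.1]
  set F := tau G t x * x' - ((mu : ℤ) : MonoidAlgebra ℤ G) * Γ with hF
  -- the divisibility of the coefficients
  have hdiv : ∀ p ∈ S, ∀ g, ((p : ℤ) ^ e p) ∣ F.coeff g := by
    intro p hpS
    obtain ⟨hp, hpG, hpk, hpe, j, hj⟩ := hS p hpS
    obtain ⟨r, s, hs⟩ := hL G p t j hp hpG hj (e p) x
    have hpcast : (p : MonoidAlgebra ℤ G) ^ e p = (((p : ℤ) ^ e p : ℤ) : MonoidAlgebra ℤ G) := by
      push_cast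
      rfl
    have hts : tau G t x = x * r + (((p : ℤ) ^ e p : ℤ) : MonoidAlgebra ℤ G) * s := by
      rw [← hpcast, ← hs]
      ring
    have hepr : (p : ℤ) ^ e p ∣ ep r - 1 := by
      have h2 := congrArg ep hts
      rw [hept, ep_add, ep_mul, ep_int_mul, hepx] at h2
      have h3 : (p : ℤ) ^ e p ∣ k * (ep r - 1) := ⟨-ep s, by linarith⟩
      refine IsCoprime.dvd_of_dvd_mul_left ?_ h3
      refine IsCoprime.pow_left ?_
      exact Nat.isCoprime_iff_coprime.mpr ((hp.coprime_iff_not_dvd).mpr hpk)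
    have hNd : (p : ℤ) ^ e p ∣ N := by
      rw [hN]
      exact_mod_cast hpe
    obtain ⟨c1, hc1⟩ := hepr
    obtain ⟨c2, hc2⟩ := hNd
    have hΓr : Γ * r = (ep r : MonoidAlgebra ℤ G) * Γ := Gam_mul r
    have hFd : F = (((p : ℤ) ^ e p : ℤ) : MonoidAlgebra ℤ G) *
        ((c2 : MonoidAlgebra ℤ G) * r + ((mu : ℤ) : MonoidAlgebra ℤ G) *
          (c1 : MonoidAlgebra ℤ G) * Γ + s * x') := by
      have e1 : (N : MonoidAlgebra ℤ G) = (((p : ℤ) ^ e p : ℤ) : MonoidAlgebra ℤ G) * c2 := by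
        rw [hc2]
        push_cast
        rfl
      have e2 : (ep r : MonoidAlgebra ℤ G) =
          1 + (((p : ℤ) ^ e p : ℤ) : MonoidAlgebra ℤ G) * c1 := by
        have h4 : ep r = 1 + (p : ℤ) ^ e p * c1 := by linarith
        rw [h4]
        push_cast
        rfl
      rw [hF, hts]
      linear_combination r * h1 + ((mu : ℤ) : MonoidAlgebra ℤ G) * hΓr +
        ((mu : ℤ) : MonoidAlgebra ℤ G) * Γ * e2 + r * e1
    intro g
    rw [hFd, coeff_int_mul]
    exact dvd_mul_right _ _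
  have hdivP : ∀ g, (((∏ p ∈ S, p ^ e p : ℕ) : ℕ) : ℤ) ∣ F.coeff g := by
    intro g
    push_cast
    refine Finset.prod_dvd_of_coprime ?_ (fun p hp => hdiv p hp g)
    intro p hp q hq hpq
    refine IsCoprime.pow ?_
    exact Nat.isCoprime_iff_coprime.mpr
      ((Nat.coprime_primes (hS p hp).1 (hS q hq).1).mpr hpq)
  -- the coefficients are nonnegative
  have hpos : ∀ g, 0 ≤ F.coeff g := by
    intro g
    have e1 : F.coeff g = (tau G t x * x').coeff g - mu := by
      rw [hF, MonoidAlgebra.coeff_sub, Finsupp.sub_apply, coeff_int_mul, hΓ, coeff_Gam, mul_one]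
    have e2 : 0 ≤ (tau G t x * x').coeff g := by
      rw [coeff_mul']
      refine Finset.sum_nonneg fun h _ => mul_nonneg ?_ ?_
      · rw [htx]
        exact coeff_Sf_nonneg _ _ _
      · rw [hx']
        exact coeff_Sf_nonneg _ _ _
    obtain ⟨c, e3⟩ := hdivP g
    have e4 : (mu : ℤ) < (((∏ p ∈ S, p ^ e p : ℕ) : ℕ) : ℤ) := by exact_mod_cast hle
    have e5 : (0 : ℤ) < (((∏ p ∈ S, p ^ e p : ℕ) : ℕ) : ℤ) :=
      lt_of_le_of_lt (Nat.cast_nonneg _) e4
    by_contra hneg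
    push Not at hneg
    have e6 : c < 0 := by
      by_contra h7
      push Not at h7
      have := mul_nonneg e5.le h7
      linarith
    have e7 : (((∏ p ∈ S, p ^ e p : ℕ) : ℕ) : ℤ) * c ≤
        (((∏ p ∈ S, p ^ e p : ℕ) : ℕ) : ℤ) * (-1) :=
      mul_le_mul_of_nonneg_left (by omega) e5.le
    linarith
  -- the product
  have hio : io G F = tau G t x' * x - ((mu : ℤ) : MonoidAlgebra ℤ G) * Γ := by
    have e1 : io G (tau G t x) = tau G t x' := by
      rw [htx, io_Sf, hx']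
      unfold tau
      rw [map_Sf]
      unfold Sf
      refine Finset.sum_congr rfl fun d _ => ?_
      exact congrArg (fun z => single z (f d : ℤ)) (inv_pow d t).symm
    have e2 : io G x' = x := by
      rw [hx', io_Sf, hx]
      unfold Sf
      refine Finset.sum_congr rfl fun d _ => ?_
      exact congrArg (fun z => single z (f d : ℤ)) (inv_inv d)
    rw [hF, map_sub, map_mul, map_mul, e1, e2, map_intCast, hΓ, io_Gam]
  have htt : tau G t x * tau G t x' = (N : MonoidAlgebra ℤ G) +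
      ((mu : ℤ) : MonoidAlgebra ℤ G) * Γ := by
    rw [← map_mul, h1, map_add, map_mul, map_intCast, map_intCast, hΓ, tau_Gam hcop]
  have hept' : ep (tau G t x') = k := by
    rw [hx']
    unfold tau
    rw [map_Sf, ep_Sf f _ k hD.1]
  have hΓ1 : Γ * x = ((k : ℤ) : MonoidAlgebra ℤ G) * Γ := by rw [hΓ, Gam_mul, hepx]
  have hΓ2 : Γ * x' = ((k : ℤ) : MonoidAlgebra ℤ G) * Γ := by rw [hΓ, Gam_mul, hepx']
  have hΓ3 : Γ * tau G t x = ((k : ℤ) : MonoidAlgebra ℤ G) * Γ := by rw [hΓ, Gam_mul, hept]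
  have hΓ4 : Γ * tau G t x' = ((k : ℤ) : MonoidAlgebra ℤ G) * Γ := by rw [hΓ, Gam_mul, hept']
  have hΓ5 : Γ * Γ = ((Fintype.card G : ℤ) : MonoidAlgebra ℤ G) * Γ := by
    have := Gam_mul (Sm (univ : Finset G) id)
    rw [ep_Sm, card_univ, ← hΓ] at this
    exact this
  have hkk' : ((k : ℤ) : MonoidAlgebra ℤ G) ^ 2 = (N : MonoidAlgebra ℤ G) +
      ((mu : ℤ) : MonoidAlgebra ℤ G) * ((Fintype.card G : ℤ) : MonoidAlgebra ℤ G) := by
    rw [← Int.cast_pow, hkk, Int.cast_add, Int.cast_mul]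
  have hFF : F * io G F = ((N ^ 2 : ℤ) : MonoidAlgebra ℤ G) := by
    rw [hio, hF, Int.cast_pow]
    linear_combination x * x' * htt + ((N : MonoidAlgebra ℤ G) +
      ((mu : ℤ) : MonoidAlgebra ℤ G) * Γ) * h1 - ((mu : ℤ) : MonoidAlgebra ℤ G) * x' * hΓ3 -
      ((mu : ℤ) : MonoidAlgebra ℤ G) * ((k : ℤ) : MonoidAlgebra ℤ G) * hΓ2 -
      ((mu : ℤ) : MonoidAlgebra ℤ G) * x * hΓ4 -
      ((mu : ℤ) : MonoidAlgebra ℤ G) * ((k : ℤ) : MonoidAlgebra ℤ G) * hΓ1 +
      2 * ((mu : ℤ) : MonoidAlgebra ℤ G) ^ 2 * hΓ5 -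
      2 * ((mu : ℤ) : MonoidAlgebra ℤ G) * Γ * hkk'
  obtain ⟨g₀, hg₀⟩ := triv hN0 hpos hFF
  refine ⟨g₀⁻¹, ?_⟩
  have hfin : tau G t x = single g₀ 1 * x := by
    refine int_mul_cancel hN0.ne' ?_
    have e1 : tau G t x * x' = ((mu : ℤ) : MonoidAlgebra ℤ G) * Γ +
        (N : MonoidAlgebra ℤ G) * single g₀ 1 := by
      rw [← hg₀, hF]
      ring
    linear_combination x * e1 - tau G t x * h1 + ((mu : ℤ) : MonoidAlgebra ℤ G) * (hΓ1 - hΓ3)
  rw [htx, hx, single_mul_Sf] at hfin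
  intro a
  have hinj : Function.Injective (fun d : G => d ^ t) := by
    have hc : Nat.Coprime (Nat.card G) t := by
      rw [Nat.card_eq_fintype_card]
      exact hcop
    exact (powCoprime hc).injective
  have h5 := congrArg (fun z : MonoidAlgebra ℤ G => z.coeff (a ^ t)) hfin
  have h6 : (Sf f (fun d => d ^ t)).coeff (a ^ t) = f a := coeff_Sf_inj f (fun d : G => d ^ t) hinj a
  have h7 : (Sf f (fun d => g₀ * id d)).coeff (a ^ t) = f (g₀⁻¹ * a ^ t) := by
    have h8 := coeff_Sf_inj f (fun d : G => g₀ * id d) (fun u v huv => mul_left_cancel huv)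
      (g₀⁻¹ * a ^ t)
    simp only [id, mul_inv_cancel_left] at h8
    exact h8
  rw [h6, h7] at h5
  exact_mod_cast h5.symm

end Pool.Agent.H183.NI
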