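import Pool.Agent.H183.NI.Stm

/-!
# Translates and push-forwards of the image function
-/

set_option autoImplicit false

namespace Pool.Agent.H183.NI

open Finset

namespace PUSHF

theorem pow_inj {A : Type} [CommGroup A] [Fintype A] {t : ℕ} (h : Nat.Coprime t (Nat.card A)) :
    Function.Injective (fun a : A => a ^ t) :=
  (powCoprime h.symm).injective

theorem im_comp {G A H : Type} [Group G] [CommGroup A] [Fintype A] [DecidableEq A] [CommGroup H]
    [DecidableEq H] (φ : G →* A) (ψ : A →* H) (D : Finset G) (h : H) :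
    im (ψ.comp φ) D h = ∑ a ∈ univ.filter (fun a => ψ a = h), im φ D a := by
  unfold im
  rw [Finset.card_eq_sum_card_fiberwise (f := φ) (t := univ.filter (fun a => ψ a = h))]
  · apply Finset.sum_congr rfl
    intro a ha
    rw [Finset.filter_filter]
    apply congrArg
    apply Finset.filter_congr
    intro x _
    rw [Finset.mem_filter] at ha
    constructor
    · intro h1
      exact h1.2
    · intro h1
      refine ⟨?_, h1⟩
      rw [MonoidHom.comp_apply, h1]
      exact ha.2
  · intro x hx
    rw [Finset.mem_coe, Finset.mem_filter] at hx ⊢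
    exact ⟨Finset.mem_univ _, hx.2⟩

end PUSHF

/-- Translates. -/
theorem t_TRF : S_TRF := by
  intro A _ _ _ f k N mu b hf
  refine ⟨?_, ?_⟩
  · rw [← hf.1]
    exact Equiv.sum_comp (Equiv.mulLeft b) f
  · intro g
    rw [← hf.2 g, ← Equiv.sum_comp (Equiv.mulLeft b) (fun a => f (g * a) * f a)]
    apply Finset.sum_congr rfl
    intro a _
    simp only [Equiv.coe_mulLeft]
    rw [mul_left_comm]

/-- Push-forwards. -/
theorem t_PUSHF : S_PUSHF := by
  intro G A H _ _ _ _ _ _ _ _ _ φ ψ hψ D t c ht hc h
  have hA : Nat.Coprime t (Nat.card A) := by rwa [Nat.card_eq_fintype_card]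
  have hH : Nat.Coprime t (Nat.card H) :=
    Nat.Coprime.coprime_dvd_right (Subgroup.card_dvd_of_surjective ψ hψ) hA
  rw [PUSHF.im_comp, PUSHF.im_comp]
  symm
  refine Finset.sum_bij (fun a _ => c * a ^ t) ?_ ?_ ?_ ?_
  · intro a ha
    rw [Finset.mem_filter] at ha ⊢
    refine ⟨Finset.mem_univ _, ?_⟩
    rw [map_mul, map_pow, ha.2]
  · intro a _ a' _ haa
    exact PUSHF.pow_inj hA (mul_left_cancel haa)
  · intro b hb
    rw [Finset.mem_filter] at hb
    obtain ⟨a, ha⟩ := (powCoprime hA.symm).surjective (c⁻¹ * b)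
    have ha' : a ^ t = c⁻¹ * b := ha
    have hb' : c * a ^ t = b := by rw [ha', mul_inv_cancel_left]
    refine ⟨a, ?_, hb'⟩
    rw [Finset.mem_filter]
    refine ⟨Finset.mem_univ _, ?_⟩
    have h1 := hb.2
    rw [← hb', map_mul, map_pow] at h1
    exact PUSHF.pow_inj hH (mul_left_cancel h1)
  · intro a _
    exact (hc a).symm

end Pool.Agent.H183.NI
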