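import Pool.Agent.H183.MU.LIFT
import Pool.Agent.H183.GL.LIFT2
import Pool.Agent.H183.PO.AUT
import Pool.Agent.H183.PO.QS
import Pool.Agent.H183.PO.RS
import Pool.Agent.H183.PO.PER
import Pool.Agent.H183.PO.JOIN
import Pool.Agent.H183.PO.BIGD
import Pool.Agent.H183.PO.NEG
import Pool.Agent.H183.PO.GAUSS
import Pool.Agent.H183.NI.IMG
import Pool.Agent.H183.NI.MULTF
import Pool.Agent.H183.NI.FIXF
import Pool.Agent.H183.NI.PUSHF
import Pool.Agent.H183.NI.EVENF
import Pool.Agent.H183.NI.PARG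
import Pool.Agent.H183.NI.KEYQN
import Pool.Agent.H183.NI.FINC

/-!
# The density theorem for squares of polynomials, all hypotheses discharged
-/

set_option autoImplicit false

namespace Pool.Agent.H183.NI

/-- The exclusion lemma. -/
theorem keyqn : S_KEYQN :=
  t_KEYQN t_IMG (t_MULTF (Pool.Agent.H183.GL.t_LIFT2 Pool.Agent.H183.MU.t_LIFT)) t_FIXF t_TRF
    t_PUSHF t_EVENF t_PARG

/-- The density theorem for the orders `g(t) ^ 2`. -/
theorem sqpn : S_SQPN :=
  t_SQPN keyqn t_PARG (Pool.Agent.H183.PO.t_QS Pool.Agent.H183.PO.t_AUT) Pool.Agent.H183.PO.t_RS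
    Pool.Agent.H183.PO.t_PER Pool.Agent.H183.PO.t_JOIN Pool.Agent.H183.PO.t_BIGD
    Pool.Agent.H183.PO.t_NEG

end Pool.Agent.H183.NI
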