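import Pool.Agent.H183.NI.Stm

set_option autoImplicit false

namespace Pool.Agent.H183.NI

open Finset Pool.Agent.H183.MU Pool.Agent.H183.GL

namespace CF4

lemma one_of_three {p A B D : ℕ} (hp : p.Prime) (h : p ^ 3 ∣ A * B * D)
    (hco : ¬ (p ∣ A ∧ p ∣ B) ∧ ¬ (p ∣ A ∧ p ∣ D) ∧ ¬ (p ∣ B ∧ p ∣ D)) :
    p ^ 3 ∣ A ∨ p ^ 3 ∣ B ∨ p ^ 3 ∣ D := by
  have cop : ∀ C : ℕ, ¬ p ∣ C → Nat.Coprime (p ^ 3) C := fun C hC =>
    ((Nat.Prime.coprime_iff_not_dvd hp).2 hC).pow_left 3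
  by_cases hA : p ∣ A
  · have hB : ¬ p ∣ B := fun hB => hco.1 ⟨hA, hB⟩
    have hD : ¬ p ∣ D := fun hD => hco.2.1 ⟨hA, hD⟩
    left
    exact (cop B hB).dvd_of_dvd_mul_right ((cop D hD).dvd_of_dvd_mul_right h)
  · by_cases hB : p ∣ B
    · have hD : ¬ p ∣ D := fun hD => hco.2.2 ⟨hB, hD⟩
      right
      left
      exact (cop A hA).dvd_of_dvd_mul_left ((cop D hD).dvd_of_dvd_mul_right h)
    · right
      right
      have h1 : Nat.Coprime (p ^ 3) (A * B) := Nat.Coprime.mul_right (cop A hA) (cop B hB)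
      exact h1.dvd_of_dvd_mul_left h

lemma core (A B D X Y : ℕ) (hA : A ≠ 0) (hB : B ≠ 0) (hD : D ≠ 0) (η : ℝ) (hη : 0 ≤ η)
    (hX : 1 ≤ X)
    (h1 : ∀ p : ℕ, p.Prime → Y < p → ¬ p ^ 3 ∣ A ∧ ¬ p ^ 3 ∣ B ∧ ¬ p ^ 3 ∣ D)
    (hco : ∀ p : ℕ, p.Prime → Y < p →
      ¬ (p ∣ A ∧ p ∣ B) ∧ ¬ (p ∣ A ∧ p ∣ D) ∧ ¬ (p ∣ B ∧ p ∣ D))
    (h2 : ∀ p k : ℕ, p.Prime → p ≤ Y → (p ^ k ∣ A ∨ p ^ k ∣ B ∨ p ^ k ∣ D) →
      (p : ℝ) ^ k ≤ (X : ℝ) ^ η) :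
    (cf (A * B * D) : ℝ) ≤ (X : ℝ) ^ (3 * η * (Y + 1)) := by
  have hX1 : (1 : ℝ) ≤ X := by exact_mod_cast hX
  have hX0 : (0 : ℝ) < X := by linarith
  have hM1 : (1 : ℝ) ≤ (X : ℝ) ^ (3 * η) := Real.one_le_rpow hX1 (by positivity)
  unfold cf
  push_cast
  have hsub : (A * B * D).primeFactors.filter (fun p => p ^ 3 ∣ A * B * D) ⊆ range (Y + 1) := by
    intro p hp
    rw [mem_filter] at hp
    have hpp := Nat.prime_of_mem_primeFactors hp.1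
    rw [mem_range]
    by_contra hlt
    have hY : Y < p := by omega
    rcases one_of_three hpp hp.2 (hco p hpp hY) with h | h | h
    · exact (h1 p hpp hY).1 h
    · exact (h1 p hpp hY).2.1 h
    · exact (h1 p hpp hY).2.2 h
  have hterm : ∀ p ∈ (A * B * D).primeFactors.filter (fun p => p ^ 3 ∣ A * B * D),
      (p : ℝ) ^ (A * B * D).factorization p ≤ (X : ℝ) ^ (3 * η) := by
    intro p hp
    have hY := mem_range.1 (hsub hp)
    rw [mem_filter] at hp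
    have hpp := Nat.prime_of_mem_primeFactors hp.1
    have hpY : p ≤ Y := by omega
    have hfac : (A * B * D).factorization p =
        A.factorization p + B.factorization p + D.factorization p := by
      rw [Nat.factorization_mul (mul_ne_zero hA hB) hD, Nat.factorization_mul hA hB,
        Finsupp.add_apply, Finsupp.add_apply]
    rw [hfac, pow_add, pow_add]
    have e1 := h2 p _ hpp hpY (Or.inl (Nat.ordProj_dvd A p))
    have e2 := h2 p _ hpp hpY (Or.inr (Or.inl (Nat.ordProj_dvd B p)))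
    have e3 := h2 p _ hpp hpY (Or.inr (Or.inr (Nat.ordProj_dvd D p)))
    have hp0 : (0 : ℝ) ≤ (p : ℝ) := Nat.cast_nonneg p
    have hM0 : (0 : ℝ) ≤ (X : ℝ) ^ η := Real.rpow_nonneg hX0.le η
    calc (p : ℝ) ^ A.factorization p * (p : ℝ) ^ B.factorization p * (p : ℝ) ^ D.factorization p
        ≤ (X : ℝ) ^ η * (X : ℝ) ^ η * (X : ℝ) ^ η :=
          mul_le_mul (mul_le_mul e1 e2 (pow_nonneg hp0 _) hM0) e3 (pow_nonneg hp0 _)
            (mul_nonneg hM0 hM0)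
      _ = (X : ℝ) ^ (3 * η) := by
          rw [← Real.rpow_add hX0, ← Real.rpow_add hX0]
          ring_nf
  calc ∏ p ∈ (A * B * D).primeFactors.filter (fun p => p ^ 3 ∣ A * B * D),
        (p : ℝ) ^ (A * B * D).factorization p
      ≤ ∏ _p ∈ (A * B * D).primeFactors.filter (fun p => p ^ 3 ∣ A * B * D),
        (X : ℝ) ^ (3 * η) :=
        prod_le_prod (fun p _ => pow_nonneg (Nat.cast_nonneg p) _) hterm
    _ = ((X : ℝ) ^ (3 * η)) ^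
        ((A * B * D).primeFactors.filter (fun p => p ^ 3 ∣ A * B * D)).card := prod_const _
    _ ≤ ((X : ℝ) ^ (3 * η)) ^ (Y + 1) := by
        refine pow_le_pow_right₀ hM1 ?_
        refine (card_le_card hsub).trans (le_of_eq (card_range _))
    _ = (X : ℝ) ^ (3 * η * (Y + 1)) := by
        rw [← Real.rpow_natCast, ← Real.rpow_mul hX0.le]
        push_cast
        rfl

/-- the union of the exceptional sets for the quadratic polynomial `(a, c)` -/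
def Ex (a c : ℤ) (X Y : ℕ) (η : ℝ) : Set ℕ :=
  {n : ℕ | 1 ≤ n ∧ n ≤ X ∧ ∃ p : ℕ, p.Prime ∧ Y < p ∧ (p : ℤ) ^ 3 ∣ qq a c n} ∪
  {n : ℕ | 1 ≤ n ∧ n ≤ X ∧ ∃ p k : ℕ, p.Prime ∧ p ≤ Y ∧ (p : ℤ) ^ k ∣ qq a c n ∧
      (X : ℝ) ^ η < (p : ℝ) ^ k}

lemma union_real (S T : Set ℕ) : (((S ∪ T).ncard : ℕ) : ℝ) ≤ (S.ncard : ℝ) + (T.ncard : ℝ) := by
  exact_mod_cast Set.ncard_union_le S T

lemma Ex_finite (a c : ℤ) (X Y : ℕ) (η : ℝ) : (Ex a c X Y η).Finite := by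
  refine (Set.finite_Iic X).subset fun n hn => ?_
  rcases hn with hn | hn
  · exact hn.2.1
  · exact hn.2.1

lemma notin {a c : ℤ} {X Y : ℕ} {η : ℝ} {n : ℕ} (hn1 : 1 ≤ n) (hnX : n ≤ X)
    (h : n ∉ Ex a c X Y η) {A : ℕ} (hA : (A : ℤ) ∣ qq a c n) :
    (∀ p : ℕ, p.Prime → Y < p → ¬ p ^ 3 ∣ A) ∧
      ∀ p k : ℕ, p.Prime → p ≤ Y → p ^ k ∣ A → (p : ℝ) ^ k ≤ (X : ℝ) ^ η := by
  constructor
  · intro p hp hY hd
    apply h
    left
    refine ⟨hn1, hnX, p, hp, hY, ?_⟩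
    have h1 : ((p ^ 3 : ℕ) : ℤ) ∣ (A : ℤ) := Int.natCast_dvd_natCast.2 hd
    rw [Nat.cast_pow] at h1
    exact h1.trans hA
  · intro p k hp hY hd
    by_contra hlt
    apply h
    right
    refine ⟨hn1, hnX, p, k, hp, hY, ?_, not_le.1 hlt⟩
    have h1 : ((p ^ k : ℕ) : ℤ) ∣ (A : ℤ) := Int.natCast_dvd_natCast.2 hd
    rw [Nat.cast_pow] at h1
    exact h1.trans hA

lemma main (m n X Y : ℕ) (hm : m = 4 ∨ m = 6) (hn1 : 1 ≤ n) (hnX : n ≤ X) (hY : 3 ≤ Y) (η : ℝ)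
    (hη : 0 ≤ η) (e1 : n ∉ Ex 3 2 X Y η) (e2 : n ∉ Ex 0 1 X Y η) (e3 : n ∉ Ex 1 1 X Y η)
    (e4 : n ∉ Ex (-1) 1 X Y η) :
    (cf (∑ i ∈ range m, n ^ i) : ℝ) ≤ (X : ℝ) ^ (3 * η * (Y + 1)) := by
  have hX : 1 ≤ X := hn1.trans hnX
  obtain ⟨f1, g1⟩ := notin hn1 hnX e1 (A := n + 1) ⟨(n : ℤ) + 2, by unfold qq; push_cast; ring⟩
  rcases hm with rfl | rfl
  · obtain ⟨f2, g2⟩ := notin hn1 hnX e2 (A := n ^ 2 + 1) ⟨1, by unfold qq; push_cast; ring⟩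
    have hs : ∑ i ∈ range 4, n ^ i = (n + 1) * (n ^ 2 + 1) * 1 := by
      simp only [sum_range_succ, sum_range_zero]
      ring
    rw [hs]
    refine core _ _ _ X Y (by omega) (by positivity) one_ne_zero η hη hX ?_ ?_ ?_
    · intro p hp hpY
      refine ⟨f1 p hp hpY, f2 p hp hpY, fun h => ?_⟩
      have h3 := Nat.le_of_dvd one_pos h
      have h4 : 1 < p ^ 3 := Nat.one_lt_pow (by norm_num) hp.one_lt
      omega
    · intro p hp hpY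
      have h1p : ¬ p ∣ 1 := hp.one_lt.ne' ∘ Nat.dvd_one.1
      refine ⟨fun h => ?_, fun h => h1p h.2, fun h => h1p h.2⟩
      -- `p ∣ n + 1`, `p ∣ n ^ 2 + 1` so `p ∣ 2`
      have h4 : (p : ℤ) ∣ 2 := by
        have a1 : (p : ℤ) ∣ ((n + 1 : ℕ) : ℤ) := Int.natCast_dvd_natCast.2 h.1
        have a2 : (p : ℤ) ∣ ((n ^ 2 + 1 : ℕ) : ℤ) := Int.natCast_dvd_natCast.2 h.2
        have a3 : (2 : ℤ) = ((n ^ 2 + 1 : ℕ) : ℤ) - ((n + 1 : ℕ) : ℤ) * ((n : ℤ) - 1) := by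
          push_cast
          ring
        rw [a3]
        exact dvd_sub a2 (a1.mul_right _)
      have h5 : p ∣ 2 := by exact_mod_cast h4
      have h6 := Nat.le_of_dvd (by norm_num) h5
      omega
    · intro p k hp hpY h
      rcases h with h | h | h
      · exact g1 p k hp hpY h
      · exact g2 p k hp hpY h
      · have hpk : p ^ k = 1 := Nat.dvd_one.1 h
        have h3 : ((p : ℝ)) ^ k = 1 := by exact_mod_cast hpk
        rw [h3]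
        exact Real.one_le_rpow (by exact_mod_cast hX) hη
  · obtain ⟨l, rfl⟩ : ∃ l, n = l + 1 := ⟨n - 1, by omega⟩
    obtain ⟨f3, g3⟩ := notin hn1 hnX e3 (A := (l + 1) ^ 2 + (l + 1) + 1)
      ⟨1, by unfold qq; push_cast; ring⟩
    obtain ⟨f4, g4⟩ := notin hn1 hnX e4 (A := l ^ 2 + l + 1) ⟨1, by unfold qq; push_cast; ring⟩
    have hs : ∑ i ∈ range 6, (l + 1) ^ i =
        (l + 1 + 1) * ((l + 1) ^ 2 + (l + 1) + 1) * (l ^ 2 + l + 1) := by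
      simp only [sum_range_succ, sum_range_zero]
      ring
    rw [hs]
    refine core _ _ _ X Y (by omega) (by positivity) (by positivity) η hη hX ?_ ?_ ?_
    · intro p hp hpY
      exact ⟨f1 p hp hpY, f3 p hp hpY, f4 p hp hpY⟩
    · intro p hp hpY
      have hle : ∀ j : ℕ, 0 < j → j ≤ 3 → ¬ (p : ℤ) ∣ (j : ℤ) := by
        intro j hj0 hj h
        have h5 : p ∣ j := Int.natCast_dvd_natCast.1 h
        have h6 := Nat.le_of_dvd hj0 h5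
        omega
      refine ⟨fun h => ?_, fun h => ?_, fun h => ?_⟩
      · have a1 : (p : ℤ) ∣ ((l + 1 + 1 : ℕ) : ℤ) := Int.natCast_dvd_natCast.2 h.1
        have a2 : (p : ℤ) ∣ (((l + 1) ^ 2 + (l + 1) + 1 : ℕ) : ℤ) := Int.natCast_dvd_natCast.2 h.2
        apply hle 1 (by norm_num) (by norm_num)
        have a3 : ((1 : ℕ) : ℤ) = (((l + 1) ^ 2 + (l + 1) + 1 : ℕ) : ℤ) -
            ((l + 1 + 1 : ℕ) : ℤ) * ((l : ℤ) + 1) := by
          push_cast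
          ring
        rw [a3]
        exact dvd_sub a2 (a1.mul_right _)
      · have a1 : (p : ℤ) ∣ ((l + 1 + 1 : ℕ) : ℤ) := Int.natCast_dvd_natCast.2 h.1
        have a2 : (p : ℤ) ∣ ((l ^ 2 + l + 1 : ℕ) : ℤ) := Int.natCast_dvd_natCast.2 h.2
        apply hle 3 (by norm_num) (by norm_num)
        have a3 : ((3 : ℕ) : ℤ) = ((l ^ 2 + l + 1 : ℕ) : ℤ) -
            ((l + 1 + 1 : ℕ) : ℤ) * ((l : ℤ) - 1) := by
          push_cast
          ring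
        rw [a3]
        exact dvd_sub a2 (a1.mul_right _)
      · have a1 : (p : ℤ) ∣ (((l + 1) ^ 2 + (l + 1) + 1 : ℕ) : ℤ) := Int.natCast_dvd_natCast.2 h.1
        have a2 : (p : ℤ) ∣ ((l ^ 2 + l + 1 : ℕ) : ℤ) := Int.natCast_dvd_natCast.2 h.2
        have a3 : (p : ℤ) ∣ 2 * ((l : ℤ) + 1) := by
          have a4 : 2 * ((l : ℤ) + 1) = (((l + 1) ^ 2 + (l + 1) + 1 : ℕ) : ℤ) -
              ((l ^ 2 + l + 1 : ℕ) : ℤ) := by
            push_cast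
            ring
          rw [a4]
          exact dvd_sub a1 a2
        have a5 : (p : ℤ) ∣ (2 : ℕ) ∨ (p : ℤ) ∣ ((l : ℤ) + 1) := by
          have := (Nat.prime_iff_prime_int.1 hp).dvd_or_dvd a3
          exact_mod_cast this
        rcases a5 with a5 | a5
        · exact hle 2 (by norm_num) (by norm_num) a5
        · apply hle 1 (by norm_num) (by norm_num)
          have a6 : ((1 : ℕ) : ℤ) = ((l ^ 2 + l + 1 : ℕ) : ℤ) - ((l : ℤ) + 1) * l := by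
            push_cast
            ring
          rw [a6]
          exact dvd_sub a2 (a5.mul_right _)
    · intro p k hp hpY h
      rcases h with h | h | h
      · exact g1 p k hp hpY h
      · exact g3 p k hp hpY h
      · exact g4 p k hp hpY h

end CF4

theorem t_CF4 (h1 : S_CUB) (h2 : S_SMT) : S_CF4 := by
  intro m hm η ε hη hε
  have hε8 : 0 < ε / 8 := by positivity
  have key : ∀ a c : ℤ, a ^ 2 ≠ 4 * c → ∃ Y₀ : ℕ, ∀ Y : ℕ, Y₀ ≤ Y → ∃ X₀ : ℕ, ∀ X : ℕ, X₀ ≤ X →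
      ((CF4.Ex a c X Y (η / (3 * (Y + 1)))).ncard : ℝ) ≤ ε / 4 * X := by
    intro a c hac
    obtain ⟨Y₀, hY₀⟩ := h1 a c hac (ε / 8) hε8
    refine ⟨Y₀, fun Y hY => ?_⟩
    obtain ⟨X₁, hX₁⟩ := hY₀ Y hY
    obtain ⟨X₂, hX₂⟩ := h2 a c hac Y (η / (3 * (Y + 1))) (ε / 8) (by positivity) hε8
    refine ⟨max X₁ X₂, fun X hX => ?_⟩
    have b1 := hX₁ X ((le_max_left _ _).trans hX)
    have b2 := hX₂ X ((le_max_right _ _).trans hX)
    unfold CF4.Ex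
    refine (CF4.union_real _ _).trans ?_
    linarith
  obtain ⟨Y₁, hY₁⟩ := key 3 2 (by norm_num)
  obtain ⟨Y₂, hY₂⟩ := key 0 1 (by norm_num)
  obtain ⟨Y₃, hY₃⟩ := key 1 1 (by norm_num)
  obtain ⟨Y₄, hY₄⟩ := key (-1) 1 (by norm_num)
  obtain ⟨Y, hY⟩ : ∃ Y : ℕ, Y = Y₁ + Y₂ + Y₃ + Y₄ + 3 := ⟨_, rfl⟩
  obtain ⟨X₁, hX₁⟩ := hY₁ Y (by omega)
  obtain ⟨X₂, hX₂⟩ := hY₂ Y (by omega)
  obtain ⟨X₃, hX₃⟩ := hY₃ Y (by omega)
  obtain ⟨X₄, hX₄⟩ := hY₄ Y (by omega)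
  refine ⟨X₁ + X₂ + X₃ + X₄, fun X hX => ?_⟩
  have b1 := hX₁ X (by omega)
  have b2 := hX₂ X (by omega)
  have b3 := hX₃ X (by omega)
  have b4 := hX₄ X (by omega)
  obtain ⟨η', hη'⟩ : ∃ η' : ℝ, η' = η / (3 * (Y + 1)) := ⟨_, rfl⟩
  rw [← hη'] at b1 b2 b3 b4
  have hη'0 : 0 ≤ η' := by rw [hη']; positivity
  have hηη : 3 * η' * (Y + 1) = η := by
    rw [hη']
    field_simp
  have hsub : {n : ℕ | 1 ≤ n ∧ n ≤ X ∧ (X : ℝ) ^ η < cf (∑ i ∈ range m, n ^ i)} ⊆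
      (CF4.Ex 3 2 X Y η' ∪ CF4.Ex 0 1 X Y η') ∪ (CF4.Ex 1 1 X Y η' ∪ CF4.Ex (-1) 1 X Y η') := by
    rintro n ⟨hn1, hnX, hlt⟩
    by_contra hno
    rw [Set.mem_union, Set.mem_union, Set.mem_union] at hno
    push Not at hno
    have hm' := CF4.main m n X Y hm hn1 hnX (by omega) η' hη'0 hno.1.1 hno.1.2 hno.2.1 hno.2.2
    rw [hηη] at hm'
    exact absurd hlt (not_lt.2 hm')
  have hfin : ((CF4.Ex 3 2 X Y η' ∪ CF4.Ex 0 1 X Y η') ∪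
      (CF4.Ex 1 1 X Y η' ∪ CF4.Ex (-1) 1 X Y η')).Finite :=
    ((CF4.Ex_finite _ _ _ _ _).union (CF4.Ex_finite _ _ _ _ _)).union
      ((CF4.Ex_finite _ _ _ _ _).union (CF4.Ex_finite _ _ _ _ _))
  have hcard := Set.ncard_le_ncard hsub hfin
  have c1 := Set.ncard_union_le (CF4.Ex 3 2 X Y η' ∪ CF4.Ex 0 1 X Y η')
    (CF4.Ex 1 1 X Y η' ∪ CF4.Ex (-1) 1 X Y η')
  have c2 := Set.ncard_union_le (CF4.Ex 3 2 X Y η') (CF4.Ex 0 1 X Y η')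
  have c3 := Set.ncard_union_le (CF4.Ex 1 1 X Y η') (CF4.Ex (-1) 1 X Y η')
  have hle : ({n : ℕ | 1 ≤ n ∧ n ≤ X ∧ (X : ℝ) ^ η < cf (∑ i ∈ range m, n ^ i)}.ncard : ℝ) ≤
      (CF4.Ex 3 2 X Y η').ncard + (CF4.Ex 0 1 X Y η').ncard + (CF4.Ex 1 1 X Y η').ncard +
        (CF4.Ex (-1) 1 X Y η').ncard := by
    have : {n : ℕ | 1 ≤ n ∧ n ≤ X ∧ (X : ℝ) ^ η < cf (∑ i ∈ range m, n ^ i)}.ncard ≤
      (CF4.Ex 3 2 X Y η').ncard + (CF4.Ex 0 1 X Y η').ncard + (CF4.Ex 1 1 X Y η').ncard +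
        (CF4.Ex (-1) 1 X Y η').ncard := by omega
    exact_mod_cast this
  linarith

end Pool.Agent.H183.NI
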