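import Pool.Agent.H183.NI.Stm

/-!
# Project NI (helper183), CFL: the cube-full part of `v` (by helper538)
-/

set_option autoImplicit false

namespace Pool.Agent.H183.NI

open Finset Pool.Agent.H183.MU Pool.Agent.H183.GL

namespace CFL

theorem qq_one (lam u : ℕ) : qq 1 lam u = ((u ^ 2 + lam + u : ℕ) : ℤ) := by
  unfold qq
  push_cast
  ring

theorem qq_neg (lam u : ℕ) : qq (-1) lam u = ((u ^ 2 + lam - u : ℕ) : ℤ) := by
  unfold qq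
  have h : u ≤ u ^ 2 + lam := by nlinarith [Nat.zero_le lam, Nat.le_self_pow (two_ne_zero) u]
  rw [Nat.cast_sub h]
  push_cast
  ring

theorem key {lam Y X u v : ℕ} {θ : ℝ} (hθ : 0 ≤ θ) (hlam : 1 ≤ lam) (hY : 2 * lam + 2 ≤ Y)
    (hX : 1 ≤ X) (hu : 1 ≤ u) (hv : lam * v = (u ^ 2 + lam + u) * (u ^ 2 + lam - u))
    (c1 : ∀ p : ℕ, p.Prime → Y < p → ¬ (p : ℤ) ^ 3 ∣ qq 1 lam u)
    (c2 : ∀ p : ℕ, p.Prime → Y < p → ¬ (p : ℤ) ^ 3 ∣ qq (-1) lam u)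
    (c3 : ∀ p k : ℕ, p.Prime → p ≤ Y → (p : ℤ) ^ k ∣ qq 1 lam u → (p : ℝ) ^ k ≤ (X : ℝ) ^ θ)
    (c4 : ∀ p k : ℕ, p.Prime → p ≤ Y → (p : ℤ) ^ k ∣ qq (-1) lam u → (p : ℝ) ^ k ≤ (X : ℝ) ^ θ) :
    (cf v : ℝ) ≤ ((X : ℝ) ^ θ * (X : ℝ) ^ θ) ^ Y := by
  obtain ⟨A, hA⟩ : ∃ A : ℕ, A = u ^ 2 + lam + u := ⟨_, rfl⟩
  obtain ⟨B, hB⟩ : ∃ B : ℕ, B = u ^ 2 + lam - u := ⟨_, rfl⟩
  have hle : u ≤ u ^ 2 := Nat.le_self_pow two_ne_zero u
  have hAB : A = B + 2 * u := by omega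
  rw [qq_one, ← hA] at c1 c3
  rw [qq_neg, ← hB] at c2 c4
  rw [← hA, ← hB] at hv
  have hA0 : A ≠ 0 := by omega
  have hB0 : B ≠ 0 := by omega
  have hd : v ∣ A * B := ⟨lam, by rw [← hv, mul_comm]⟩
  have hX1 : (1 : ℝ) ≤ (X : ℝ) ^ θ := Real.one_le_rpow (by exact_mod_cast hX) hθ
  -- large primes
  have hbig : ∀ p : ℕ, p.Prime → p ^ 3 ∣ v → p ≤ Y := by
    intro p hp hpv
    by_contra hpY
    push Not at hpY
    have h1 : p ^ 3 ∣ A * B := hpv.trans hd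
    have h2 : ¬ (p ∣ A ∧ p ∣ B) := by
      rintro ⟨ha, hb⟩
      have h3 : p ∣ 2 * u := by
        rw [hAB] at ha
        exact (Nat.dvd_add_right hb).1 ha
      rcases hp.dvd_mul.1 h3 with h4 | h4
      · have := Nat.le_of_dvd (by norm_num) h4
        omega
      · have h5 : p ∣ lam := by
          have h6 : A = (u ^ 2 + u) + lam := by omega
          rw [h6] at ha
          exact (Nat.dvd_add_right ((h4.pow two_ne_zero).add h4)).1 ha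
        have := Nat.le_of_dvd (by omega) h5
        omega
    by_cases ha : p ∣ A
    · have hb : ¬ p ∣ B := fun hb => h2 ⟨ha, hb⟩
      have hc : Nat.Coprime (p ^ 3) B := ((Nat.Prime.coprime_iff_not_dvd hp).2 hb).pow_left 3
      have h3 : p ^ 3 ∣ A := hc.dvd_of_dvd_mul_right h1
      apply c1 p hp hpY
      rw [← Nat.cast_pow]
      exact Int.natCast_dvd_natCast.2 h3
    · have hc : Nat.Coprime (p ^ 3) A := ((Nat.Prime.coprime_iff_not_dvd hp).2 ha).pow_left 3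
      have h3 : p ^ 3 ∣ B := hc.dvd_of_dvd_mul_left h1
      apply c2 p hp hpY
      rw [← Nat.cast_pow]
      exact Int.natCast_dvd_natCast.2 h3
  -- small primes
  have hsmall : ∀ p : ℕ, p.Prime → p ≤ Y →
      ((p ^ v.factorization p : ℕ) : ℝ) ≤ (X : ℝ) ^ θ * (X : ℝ) ^ θ := by
    intro p hp hpY
    have h1 : v.factorization p ≤ A.factorization p + B.factorization p := by
      have h2 := (Nat.factorization_le_iff_dvd (by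
        rintro rfl
        rw [zero_dvd_iff] at hd
        exact (mul_ne_zero hA0 hB0) hd) (mul_ne_zero hA0 hB0)).2 hd p
      rwa [Nat.factorization_mul hA0 hB0, Finsupp.add_apply] at h2
    have h3 : (p : ℝ) ^ A.factorization p ≤ (X : ℝ) ^ θ := by
      refine c3 p _ hp hpY ?_
      rw [← Nat.cast_pow]
      exact Int.natCast_dvd_natCast.2 (Nat.ordProj_dvd A p)
    have h4 : (p : ℝ) ^ B.factorization p ≤ (X : ℝ) ^ θ := by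
      refine c4 p _ hp hpY ?_
      rw [← Nat.cast_pow]
      exact Int.natCast_dvd_natCast.2 (Nat.ordProj_dvd B p)
    have hp1 : (1 : ℝ) ≤ p := by exact_mod_cast hp.one_lt.le
    rw [Nat.cast_pow]
    calc (p : ℝ) ^ v.factorization p ≤ (p : ℝ) ^ (A.factorization p + B.factorization p) :=
          pow_le_pow_right₀ hp1 h1
      _ = (p : ℝ) ^ A.factorization p * (p : ℝ) ^ B.factorization p := pow_add _ _ _
      _ ≤ _ := mul_le_mul h3 h4 (by positivity) (by positivity)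
  -- the product
  unfold cf
  rw [Nat.cast_prod]
  have hone : (1 : ℝ) ≤ (X : ℝ) ^ θ * (X : ℝ) ^ θ := by nlinarith
  have hmem : ∀ p ∈ v.primeFactors.filter (fun p => p ^ 3 ∣ v), p.Prime ∧ p ≤ Y := by
    intro p hp
    rw [mem_filter] at hp
    have hpp := Nat.prime_of_mem_primeFactors hp.1
    exact ⟨hpp, hbig p hpp hp.2⟩
  calc ∏ p ∈ v.primeFactors.filter (fun p => p ^ 3 ∣ v), ((p ^ v.factorization p : ℕ) : ℝ)
      ≤ ∏ _p ∈ v.primeFactors.filter (fun p => p ^ 3 ∣ v), ((X : ℝ) ^ θ * (X : ℝ) ^ θ) :=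
        prod_le_prod (fun p _ => Nat.cast_nonneg _) fun p hp => hsmall p (hmem p hp).1 (hmem p hp).2
    _ = ((X : ℝ) ^ θ * (X : ℝ) ^ θ) ^ (v.primeFactors.filter (fun p => p ^ 3 ∣ v)).card := by
        rw [prod_const]
    _ ≤ ((X : ℝ) ^ θ * (X : ℝ) ^ θ) ^ Y := by
        refine pow_le_pow_right₀ hone ?_
        have h1 : v.primeFactors.filter (fun p => p ^ 3 ∣ v) ⊆ Icc 1 Y := by
          intro p hp
          exact mem_Icc.2 ⟨(hmem p hp).1.one_lt.le, (hmem p hp).2⟩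
        have h2 := card_le_card h1
        rwa [Nat.card_Icc, Nat.add_sub_cancel] at h2

end CFL

open CFL

theorem t_CFL (h1 : S_CUB) (h2 : S_SMT) : S_CFL := by
  intro lam hlam η ε hη hε
  have hd1 : (1 : ℤ) ^ 2 ≠ 4 * (lam : ℤ) := by omega
  have hd2 : (-1 : ℤ) ^ 2 ≠ 4 * (lam : ℤ) := by omega
  obtain ⟨Y₁, hY₁⟩ := h1 1 lam hd1 (ε / 4) (by positivity)
  obtain ⟨Y₂, hY₂⟩ := h1 (-1) lam hd2 (ε / 4) (by positivity)
  obtain ⟨Y, hY⟩ : ∃ Y, Y = Y₁ + Y₂ + 2 * lam + 2 := ⟨_, rfl⟩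
  obtain ⟨X₁, hX₁⟩ := hY₁ Y (by omega)
  obtain ⟨X₂, hX₂⟩ := hY₂ Y (by omega)
  obtain ⟨θ, hθ⟩ : ∃ θ : ℝ, θ = η / (2 * ((Y : ℝ) + 1)) := ⟨_, rfl⟩
  have hθ0 : 0 < θ := by rw [hθ]; positivity
  obtain ⟨X₃, hX₃⟩ := h2 1 lam hd1 Y θ (ε / 4) hθ0 (by positivity)
  obtain ⟨X₄, hX₄⟩ := h2 (-1) lam hd2 Y θ (ε / 4) hθ0 (by positivity)
  refine ⟨X₁ + X₂ + X₃ + X₄ + 1, fun X hX => ?_⟩
  have a1 := hX₁ X (by omega)
  have a2 := hX₂ X (by omega)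
  have a3 := hX₃ X (by omega)
  have a4 := hX₄ X (by omega)
  obtain ⟨E1, e1⟩ : ∃ E : Set ℕ, E = {n : ℕ | 1 ≤ n ∧ n ≤ X ∧ ∃ p : ℕ, p.Prime ∧ Y < p ∧
    (p : ℤ) ^ 3 ∣ qq 1 lam n} := ⟨_, rfl⟩
  obtain ⟨E2, e2⟩ : ∃ E : Set ℕ, E = {n : ℕ | 1 ≤ n ∧ n ≤ X ∧ ∃ p : ℕ, p.Prime ∧ Y < p ∧
    (p : ℤ) ^ 3 ∣ qq (-1) lam n} := ⟨_, rfl⟩
  obtain ⟨E3, e3⟩ : ∃ E : Set ℕ, E = {n : ℕ | 1 ≤ n ∧ n ≤ X ∧ ∃ p k : ℕ, p.Prime ∧ p ≤ Y ∧
    (p : ℤ) ^ k ∣ qq 1 lam n ∧ (X : ℝ) ^ θ < (p : ℝ) ^ k} := ⟨_, rfl⟩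
  obtain ⟨E4, e4⟩ : ∃ E : Set ℕ, E = {n : ℕ | 1 ≤ n ∧ n ≤ X ∧ ∃ p k : ℕ, p.Prime ∧ p ≤ Y ∧
    (p : ℤ) ^ k ∣ qq (-1) lam n ∧ (X : ℝ) ^ θ < (p : ℝ) ^ k} := ⟨_, rfl⟩
  rw [← e1] at a1
  rw [← e2] at a2
  rw [← e3] at a3
  rw [← e4] at a4
  have f1 : E1.Finite := (Set.finite_Icc 1 X).subset (by rw [e1]; exact fun n hn => ⟨hn.1, hn.2.1⟩)
  have f2 : E2.Finite := (Set.finite_Icc 1 X).subset (by rw [e2]; exact fun n hn => ⟨hn.1, hn.2.1⟩)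
  have f3 : E3.Finite := (Set.finite_Icc 1 X).subset (by rw [e3]; exact fun n hn => ⟨hn.1, hn.2.1⟩)
  have f4 : E4.Finite := (Set.finite_Icc 1 X).subset (by rw [e4]; exact fun n hn => ⟨hn.1, hn.2.1⟩)
  have hX1 : 1 ≤ X := by omega
  have hXr : (1 : ℝ) ≤ X := by exact_mod_cast hX1
  have hsub : {u : ℕ | 1 ≤ u ∧ u ≤ X ∧ ∃ v : ℕ, lam * v = (u ^ 2 + lam + u) * (u ^ 2 + lam - u) ∧
      (X : ℝ) ^ η < cf v} ⊆ (E1 ∪ E2) ∪ (E3 ∪ E4) := by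
    rintro u ⟨hu1, hu2, v, hv, hcf⟩
    by_contra hu
    simp only [Set.mem_union, not_or] at hu
    obtain ⟨⟨n1, n2⟩, n3, n4⟩ := hu
    rw [e1] at n1
    rw [e2] at n2
    rw [e3] at n3
    rw [e4] at n4
    have hk := key (lam := lam) (Y := Y) (X := X) (u := u) (v := v) hθ0.le hlam (by omega) hX1 hu1 hv
      (fun p hp hpY hd => n1 ⟨hu1, hu2, p, hp, hpY, hd⟩)
      (fun p hp hpY hd => n2 ⟨hu1, hu2, p, hp, hpY, hd⟩)
      (fun p k hp hpY hd => not_lt.1 fun hlt => n3 ⟨hu1, hu2, p, k, hp, hpY, hd, hlt⟩)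
      (fun p k hp hpY hd => not_lt.1 fun hlt => n4 ⟨hu1, hu2, p, k, hp, hpY, hd, hlt⟩)
    have h5 : ((X : ℝ) ^ θ * (X : ℝ) ^ θ) ^ Y ≤ (X : ℝ) ^ η := by
      have hX0 : (0 : ℝ) < X := by linarith
      rw [← Real.rpow_add hX0, ← Real.rpow_natCast, ← Real.rpow_mul hX0.le]
      refine Real.rpow_le_rpow_of_exponent_le hXr ?_
      rw [hθ]
      have h6 : (η / (2 * ((Y : ℝ) + 1)) + η / (2 * ((Y : ℝ) + 1))) * Y = η * (Y / (Y + 1)) := by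
        field_simp
        ring
      rw [h6]
      have h7 : (Y : ℝ) / (Y + 1) ≤ 1 := by
        rw [div_le_one (by positivity)]
        linarith
      exact mul_le_of_le_one_right hη.le h7
    linarith
  have hcard := Set.ncard_le_ncard hsub ((f1.union f2).union (f3.union f4))
  have u1 := Set.ncard_union_le (E1 ∪ E2) (E3 ∪ E4)
  have u2 := Set.ncard_union_le E1 E2
  have u3 := Set.ncard_union_le E3 E4
  have htot : Set.ncard {u : ℕ | 1 ≤ u ∧ u ≤ X ∧ ∃ v : ℕ,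
      lam * v = (u ^ 2 + lam + u) * (u ^ 2 + lam - u) ∧ (X : ℝ) ^ η < cf v} ≤
      E1.ncard + E2.ncard + (E3.ncard + E4.ncard) := by omega
  have htot' : ((Set.ncard {u : ℕ | 1 ≤ u ∧ u ≤ X ∧ ∃ v : ℕ,
      lam * v = (u ^ 2 + lam + u) * (u ^ 2 + lam - u) ∧ (X : ℝ) ^ η < cf v} : ℕ) : ℝ) ≤
      E1.ncard + E2.ncard + (E3.ncard + E4.ncard) := by exact_mod_cast htot
  refine htot'.trans ?_
  linarith

end Pool.Agent.H183.NI
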