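import Pool.Agent.H183.NI.Stm

set_option autoImplicit false

namespace Pool.Agent.H183.NI

namespace CNTP

/-- the number of elements of a residue class -/
lemma cnt (m : ℕ) (hm : 0 < m) (v : ℤ) (X : ℕ) :
    (({n : ℕ | 1 ≤ n ∧ n ≤ X ∧ (m : ℤ) ∣ (n : ℤ) - v}.ncard : ℕ) : ℝ) ≤ (X : ℝ) / m + 1 := by
  classical
  have h1 : {n : ℕ | 1 ≤ n ∧ n ≤ X ∧ (m : ℤ) ∣ (n : ℤ) - v}.ncard ≤
      ((Finset.Ioc (0 : ℤ) X).filter (fun x : ℤ => x ≡ v [ZMOD (m : ℤ)])).card := by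
    rw [← Set.ncard_coe_finset]
    refine Set.ncard_le_ncard_of_injOn (fun n : ℕ => (n : ℤ)) ?_ ?_ (Finset.finite_toSet _)
    · rintro n ⟨h2, h3, h4⟩
      rw [Finset.mem_coe, Finset.mem_filter, Finset.mem_Ioc, Int.modEq_iff_dvd]
      refine ⟨⟨by show (0 : ℤ) < (n : ℤ); omega, by show (n : ℤ) ≤ (X : ℤ); omega⟩, ?_⟩
      have : v - (n : ℤ) = -((n : ℤ) - v) := by ring
      show (m : ℤ) ∣ v - (n : ℤ)
      rw [this, dvd_neg]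
      exact h4
    · intro x _ y _ hxy
      have : (x : ℤ) = (y : ℤ) := hxy
      exact_mod_cast this
  have hm' : (0 : ℤ) < (m : ℤ) := by exact_mod_cast hm
  have h2 := Int.Ioc_filter_modEq_card (0 : ℤ) (X : ℤ) hm' v
  have hmQ : (0 : ℚ) < (m : ℚ) := by exact_mod_cast hm
  have h3 : ((((Finset.Ioc (0 : ℤ) X).filter (fun x : ℤ => x ≡ v [ZMOD (m : ℤ)])).card : ℕ) : ℚ) ≤
      (X : ℚ) / m + 1 := by
    have h4 : (((((Finset.Ioc (0 : ℤ) X).filter (fun x : ℤ => x ≡ v [ZMOD (m : ℤ)])).card : ℕ) :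
        ℤ) : ℚ) ≤ (X : ℚ) / m + 1 := by
      rw [h2]
      push_cast
      refine max_le ?_ (by positivity)
      have h5 := Int.floor_le (((X : ℚ) - v) / m)
      have h6 := Int.lt_floor_add_one (((0 : ℚ) - v) / m)
      have h7 : ((X : ℚ) - v) / m = (X : ℚ) / m + ((0 : ℚ) - v) / m := by ring
      linarith
    exact_mod_cast h4
  have h8 : ((((Finset.Ioc (0 : ℤ) X).filter (fun x : ℤ => x ≡ v [ZMOD (m : ℤ)])).card : ℕ) : ℝ) ≤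
      (X : ℝ) / m + 1 := by
    have := (Rat.cast_le (K := ℝ)).2 h3
    push_cast at this
    exact this
  exact le_trans (by exact_mod_cast h1) h8

/-- divisibility of a product by a power of a prime -/
lemma split {p k : ℕ} (hp : p.Prime) {x y : ℤ} (h : (p : ℤ) ^ k ∣ x * y) :
    ∃ e f : ℕ, e + f = k ∧ (p : ℤ) ^ e ∣ x ∧ (p : ℤ) ^ f ∣ y := by
  have h1 : p ^ k ∣ x.natAbs * y.natAbs := by
    rw [← Int.natAbs_mul]
    have := Int.natAbs_dvd_natAbs.2 h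
    rwa [Int.natAbs_pow, Int.natAbs_natCast] at this
  obtain ⟨d₁, d₂, h2, h3, h4⟩ := (Nat.dvd_mul).1 h1
  obtain ⟨e, _, he⟩ := (Nat.dvd_prime_pow hp).1 (Dvd.intro _ h4 : d₁ ∣ p ^ k)
  obtain ⟨f, _, hf⟩ := (Nat.dvd_prime_pow hp).1 (Dvd.intro_left _ h4 : d₂ ∣ p ^ k)
  refine ⟨e, f, ?_, ?_, ?_⟩
  · rw [he, hf, ← pow_add] at h4
    exact Nat.pow_right_injective hp.two_le h4
  · rw [he] at h2
    have := Int.natCast_dvd.2 h2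
    rwa [Nat.cast_pow] at this
  · rw [hf] at h3
    have := Int.natCast_dvd.2 h3
    rwa [Nat.cast_pow] at this

end CNTP

open CNTP

theorem t_CNTP : S_CNTP := by
  intro a c hac p k X hp
  obtain ⟨D, hD⟩ : ∃ D : ℕ, D = (a ^ 2 - 4 * c).natAbs := ⟨_, rfl⟩
  have hD0 : D ≠ 0 := by
    rw [hD, Int.natAbs_ne_zero]
    exact sub_ne_zero.2 hac
  obtain ⟨i₀, hi₀⟩ : ∃ i₀ : ℕ, i₀ = D.factorization p := ⟨_, rfl⟩
  have hple : p ^ i₀ ≤ D := by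
    rw [hi₀]
    exact Nat.le_of_dvd (Nat.pos_of_ne_zero hD0) (Nat.ordProj_dvd D p)
  rw [← hD]
  by_cases hne : {n : ℕ | 1 ≤ n ∧ n ≤ X ∧ (p : ℤ) ^ k ∣ qq a c n} = ∅
  · rw [hne, Set.ncard_empty]
    have : (0 : ℝ) < (p : ℝ) := by exact_mod_cast hp.pos
    push_cast
    positivity
  obtain ⟨n₁, -, -, hn₁⟩ := Set.nonempty_iff_ne_empty.2 hne
  have key : ∀ n : ℕ, (p : ℤ) ^ k ∣ qq a c n →
      ((p ^ (k - i₀) : ℕ) : ℤ) ∣ (n : ℤ) - n₁ ∨ ((p ^ (k - i₀) : ℕ) : ℤ) ∣ (n : ℤ) - (-n₁ - a) := by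
    intro n hn
    have h1 : (p : ℤ) ^ k ∣ ((n : ℤ) - n₁) * ((n : ℤ) - (-n₁ - a)) := by
      have h2 : ((n : ℤ) - n₁) * ((n : ℤ) - (-n₁ - a)) = qq a c n - qq a c n₁ := by
        unfold qq
        ring
      rw [h2]
      exact dvd_sub hn hn₁
    obtain ⟨e, f, hef, he, hf⟩ := split hp h1
    rw [Nat.cast_pow]
    by_cases he' : k - i₀ ≤ e
    · exact Or.inl ((pow_dvd_pow _ he').trans he)
    by_cases hf' : k - i₀ ≤ f
    · exact Or.inr ((pow_dvd_pow _ hf').trans hf)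
    exfalso
    have h3 : (p : ℤ) ^ (i₀ + 1) ∣ (n : ℤ) - n₁ := (pow_dvd_pow _ (by omega)).trans he
    have h4 : (p : ℤ) ^ (i₀ + 1) ∣ (n : ℤ) - (-n₁ - a) := (pow_dvd_pow _ (by omega)).trans hf
    have h5 : (p : ℤ) ^ (i₀ + 1) ∣ 2 * n₁ + a := by
      have h6 := dvd_sub h4 h3
      have h7 : ((n : ℤ) - (-n₁ - a)) - ((n : ℤ) - n₁) = 2 * n₁ + a := by ring
      rwa [h7] at h6
    have h8 : (p : ℤ) ^ (i₀ + 1) ∣ qq a c n₁ := (pow_dvd_pow _ (by omega)).trans hn₁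
    have h9 : (p : ℤ) ^ (i₀ + 1) ∣ a ^ 2 - 4 * c := by
      have h10 : a ^ 2 - 4 * c = (2 * n₁ + a) * (2 * n₁ + a) - 4 * qq a c n₁ := by
        unfold qq
        ring
      rw [h10]
      exact dvd_sub (h5.mul_right _) (h8.mul_left _)
    have h11 : p ^ (i₀ + 1) ∣ D := by
      have := Int.natAbs_dvd_natAbs.2 h9
      rwa [Int.natAbs_pow, Int.natAbs_natCast, ← hD] at this
    have h12 := (hp.pow_dvd_iff_le_factorization hD0).1 h11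
    omega
  have hm : 0 < p ^ (k - i₀) := Nat.pow_pos hp.pos
  have hfin : ∀ v : ℤ, {n : ℕ | 1 ≤ n ∧ n ≤ X ∧ ((p ^ (k - i₀) : ℕ) : ℤ) ∣ (n : ℤ) - v}.Finite :=
    fun v => (Set.finite_Iic X).subset fun n hn => hn.2.1
  have hsub : {n : ℕ | 1 ≤ n ∧ n ≤ X ∧ (p : ℤ) ^ k ∣ qq a c n} ⊆
      {n : ℕ | 1 ≤ n ∧ n ≤ X ∧ ((p ^ (k - i₀) : ℕ) : ℤ) ∣ (n : ℤ) - (n₁ : ℤ)} ∪
      {n : ℕ | 1 ≤ n ∧ n ≤ X ∧ ((p ^ (k - i₀) : ℕ) : ℤ) ∣ (n : ℤ) - (-n₁ - a)} := by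
    rintro n ⟨h1, h2, h3⟩
    rcases key n h3 with h | h
    · exact Or.inl ⟨h1, h2, h⟩
    · exact Or.inr ⟨h1, h2, h⟩
  have h1 := (Set.ncard_le_ncard hsub ((hfin _).union (hfin _))).trans (Set.ncard_union_le _ _)
  have h2 := cnt _ hm (n₁ : ℤ) X
  have h3 := cnt _ hm (-n₁ - a) X
  have h4 : (({n : ℕ | 1 ≤ n ∧ n ≤ X ∧ (p : ℤ) ^ k ∣ qq a c n}.ncard : ℕ) : ℝ) ≤
      2 * ((X : ℝ) / ((p ^ (k - i₀) : ℕ) : ℝ) + 1) := by
    have : (({n : ℕ | 1 ≤ n ∧ n ≤ X ∧ (p : ℤ) ^ k ∣ qq a c n}.ncard : ℕ) : ℝ) ≤ _ :=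
      Nat.cast_le.2 h1
    rw [Nat.cast_add] at this
    linarith
  refine h4.trans ?_
  have hp0 : (0 : ℝ) < (p : ℝ) := by exact_mod_cast hp.pos
  have hpk : (0 : ℝ) < (p : ℝ) ^ k := by positivity
  have h5 : (X : ℝ) / ((p ^ (k - i₀) : ℕ) : ℝ) ≤ (D : ℝ) * X / (p : ℝ) ^ k := by
    rw [Nat.cast_pow, div_le_div_iff₀ (by positivity) hpk]
    have h6 : (p : ℝ) ^ k ≤ (D : ℝ) * (p : ℝ) ^ (k - i₀) := by
      have h7 : (p : ℝ) ^ k ≤ (p : ℝ) ^ (i₀ + (k - i₀)) :=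
        pow_le_pow_right₀ (by exact_mod_cast hp.one_lt.le) (by omega)
      rw [pow_add] at h7
      refine h7.trans (mul_le_mul_of_nonneg_right ?_ (by positivity))
      exact_mod_cast hple
    calc (X : ℝ) * (p : ℝ) ^ k ≤ X * ((D : ℝ) * (p : ℝ) ^ (k - i₀)) :=
          mul_le_mul_of_nonneg_left h6 (Nat.cast_nonneg _)
      _ = (D : ℝ) * X * (p : ℝ) ^ (k - i₀) := by ring
  linarith

end Pool.Agent.H183.NI
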