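import Pool.Agent.H183.NI.Stm
import Pool.Graph.R_seed8.TH66.SG.Nilp

/-!
# The commutator subgroup of a finite nilpotent group (statement S_COMM), by helper663
-/

set_option autoImplicit false

namespace Pool.Agent.H183.NI

open Finset

namespace COMM

/-- Groups of order `1`, `p`, `p ^ 2` are commutative. -/
theorem comm_small {P : Type} [Group P] [Finite P] (p k : ℕ) [hp : Fact p.Prime] (hk : k ≤ 2)
    (hP : Nat.card P = p ^ k) (a b : P) : a * b = b * a := by
  interval_cases k
  · rw [pow_zero] at hP
    have : Subsingleton P := (Nat.card_eq_one_iff_unique.1 hP).1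
    exact Subsingleton.elim _ _
  · rw [pow_one] at hP
    have : IsCyclic P := isCyclic_of_prime_card hP
    obtain ⟨g, hg⟩ := IsCyclic.exists_generator (α := P)
    obtain ⟨m, rfl⟩ := Subgroup.mem_zpowers_iff.1 (hg a)
    obtain ⟨n, rfl⟩ := Subgroup.mem_zpowers_iff.1 (hg b)
    rw [← zpow_add, ← zpow_add, add_comm]
  · exact (IsPGroup.isMulCommutative_of_card_eq_prime_sq hP).is_comm.comm a b

/-- An element of prime order `p` of the commutator subgroup of a nilpotent group is trivial if
`p ^ 3` does not divide the order. -/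
theorem elem {G : Type} [Group G] [Finite G] (hG : Group.IsNilpotent G) (p : ℕ)
    [hp : Fact p.Prime] (h3 : ¬ p ^ 3 ∣ Nat.card G) (x : G) (hx : x ∈ commutator G)
    (hxp : x ^ p = 1) : x = 1 := by
  classical
  obtain ⟨ϕ⟩ := ((Group.isNilpotent_of_finite_tfae (G := G)).out 0 4).mp hG
  have hv : Nat.card G ≠ 0 := Nat.card_pos.ne'
  have hk : (Nat.card G).factorization p ≤ 2 := by
    by_contra h
    exact h3 ((hp.out.pow_dvd_iff_le_factorization hv).2 (by omega))
  have h0 : ϕ.symm x = 1 := by
    funext q Q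
    have hq : Fact (q : ℕ).Prime := ⟨Nat.prime_of_mem_primeFactors q.2⟩
    let e1 := Pi.evalMonoidHom (fun q : (Nat.card G).primeFactors => ∀ P : Sylow q G, P) q
    let e2 := Pi.evalMonoidHom (fun P : Sylow q G => P) Q
    let ψ : G →* Q := (e2.comp e1).comp ϕ.symm.toMonoidHom
    show ψ x = 1
    by_cases hqp : (q : ℕ) = p
    · have hcard : Nat.card Q = (q : ℕ) ^ (Nat.card G).factorization q := Q.card_eq_multiplicity
      have hk' : (Nat.card G).factorization (q : ℕ) ≤ 2 := by rw [hqp]; exact hk
      have hcomm : ∀ a b : Q, a * b = b * a := comm_small (q : ℕ) _ hk' hcard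
      have hle : commutator G ≤ ψ.ker := by
        rw [commutator_def, Subgroup.commutator_le]
        intro a _ b _
        rw [MonoidHom.mem_ker, map_commutatorElement, commutatorElement_eq_one_iff_mul_comm]
        exact hcomm _ _
      exact MonoidHom.mem_ker.1 (hle hx)
    · have h1 : (ψ x) ^ p = 1 := by rw [← map_pow, hxp, map_one]
      obtain ⟨n, h2⟩ := Q.isPGroup' (ψ x)
      have h3 : orderOf (ψ x) ∣ p := orderOf_dvd_of_pow_eq_one h1
      have h4 : orderOf (ψ x) ∣ (q : ℕ) ^ n := orderOf_dvd_of_pow_eq_one h2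
      have h5 : Nat.Coprime p ((q : ℕ) ^ n) :=
        Nat.Coprime.pow_right n ((Nat.coprime_primes hp.out hq.out).2 (Ne.symm hqp))
      have h6 : orderOf (ψ x) = 1 := Nat.eq_one_of_dvd_coprimes h5 h3 h4
      exact orderOf_eq_one_iff.1 h6
  have h1 : ϕ (ϕ.symm x) = ϕ 1 := by rw [h0]
  rwa [MulEquiv.apply_symm_apply, map_one] at h1

theorem card_le {G : Type} [Group G] [Finite G] (hG : Group.IsNilpotent G) :
    Nat.card (commutator G) ≤ cf (Nat.card G) := by
  classical
  have hv : Nat.card G ≠ 0 := Nat.card_pos.ne'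
  have hc : Nat.card (commutator G) ≠ 0 := Nat.card_pos.ne'
  have hdvd : Nat.card (commutator G) ∣ Nat.card G := Subgroup.card_subgroup_dvd_card _
  have hsub : (Nat.card (commutator G)).primeFactors ⊆
      (Nat.card G).primeFactors.filter (fun p => p ^ 3 ∣ Nat.card G) := by
    intro p hp
    rw [Finset.mem_filter]
    refine ⟨Nat.primeFactors_mono hdvd hv hp, ?_⟩
    by_contra h3
    have hpp : Fact p.Prime := ⟨Nat.prime_of_mem_primeFactors hp⟩
    obtain ⟨x, hx⟩ := exists_prime_orderOf_dvd_card' (G := commutator G) p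
      (Nat.dvd_of_mem_primeFactors hp)
    have hx1 : (x : G) ^ p = 1 := by
      rw [← SubgroupClass.coe_pow, ← hx, pow_orderOf_eq_one]
      rfl
    have h1 := elem hG p h3 (x : G) x.2 hx1
    have h2 : x = 1 := Subtype.ext h1
    rw [h2, orderOf_one] at hx
    exact hpp.out.one_lt.ne hx
  have hprod : ∏ p ∈ (Nat.card (commutator G)).primeFactors,
      p ^ (Nat.card (commutator G)).factorization p = Nat.card (commutator G) :=
    Nat.prod_factorization_pow_eq_self hc
  calc Nat.card (commutator G) = ∏ p ∈ (Nat.card (commutator G)).primeFactors,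
        p ^ (Nat.card (commutator G)).factorization p := hprod.symm
    _ ≤ ∏ p ∈ (Nat.card (commutator G)).primeFactors, p ^ (Nat.card G).factorization p := by
        refine Finset.prod_le_prod' fun p hp => ?_
        exact Nat.pow_le_pow_right (Nat.prime_of_mem_primeFactors hp).pos
          ((Nat.factorization_le_iff_dvd hc hv).2 hdvd p)
    _ ≤ cf (Nat.card G) := by
        refine Finset.prod_le_prod_of_subset_of_one_le' hsub fun p hp _ => ?_
        exact Nat.one_le_pow _ _ (Nat.prime_of_mem_primeFactors (Finset.mem_filter.1 hp).1).pos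

end COMM

theorem t_COMM : S_COMM := by
  intro G _ _ hG
  refine ⟨COMM.card_le hG, ?_⟩
  intro w hw hdvd
  have hfw : Fact w.Prime := ⟨hw⟩
  obtain ⟨φ, hφ⟩ := Pool.Agent.TH66.SG.nilp_quot G w hdvd
  have h1 : Function.Surjective (Abelianization.lift φ) := by
    intro y
    obtain ⟨g, rfl⟩ := hφ y
    exact ⟨Abelianization.of g, Abelianization.lift_apply_of φ g⟩
  have h2 := Subgroup.card_dvd_of_surjective _ h1
  rwa [Nat.card_congr Multiplicative.toAdd, Nat.card_zmod] at h2

end Pool.Agent.H183.NI
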