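import Pool.Agent.H183.NI.Stm

/-!
# Few `n` with `p ^ 3` dividing `n ^ 2 + a n + c` for a large prime `p`
-/

set_option autoImplicit false

namespace Pool.Agent.H183.NI

open Finset

namespace CUB

lemma sum_cubes (Y M : ℕ) (hY : 1 ≤ Y) :
    ∑ p ∈ (Ioc Y M).filter Nat.Prime, (1 : ℝ) / (p : ℝ) ^ 3 ≤ 1 / Y := by
  have h1 : ∑ p ∈ (Ioc Y M).filter Nat.Prime, (1 : ℝ) / (p : ℝ) ^ 3 ≤
      ∑ p ∈ Ioc Y M, ((p : ℝ) ^ 2)⁻¹ := by
    refine (Finset.sum_le_sum fun p hp => ?_).trans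
      (Finset.sum_le_sum_of_subset_of_nonneg (filter_subset _ _) fun p _ _ => by positivity)
    rw [mem_filter, mem_Ioc] at hp
    have hp1 : (1 : ℝ) ≤ p := by
      have : 1 ≤ p := by omega
      exact_mod_cast this
    rw [one_div]
    refine inv_anti₀ (by positivity) ?_
    nlinarith [sq_nonneg (p : ℝ)]
  rcases le_or_gt Y M with h | h
  · have h2 := sum_Ioc_inv_sq_le_sub (α := ℝ) (by omega : Y ≠ 0) h
    refine h1.trans (h2.trans ?_)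
    rw [one_div]
    have : (0 : ℝ) ≤ (M : ℝ)⁻¹ := by positivity
    linarith
  · rw [Ioc_eq_empty (by omega), filter_empty, sum_empty]
    positivity

lemma qq_bound (a c : ℤ) (n X : ℕ) (h1 : 1 ≤ n) (hn : n ≤ X) :
    |qq a c n| ≤ ((1 + a.natAbs + c.natAbs : ℕ) : ℤ) * (X : ℤ) ^ 2 := by
  have hX : (1 : ℤ) ≤ X := by exact_mod_cast h1.trans hn
  have h2 : (n : ℤ) ≤ X := by exact_mod_cast hn
  have h0 : (0 : ℤ) ≤ n := by positivity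
  unfold qq
  push_cast
  have e1 : |(n : ℤ) ^ 2 + a * n + c| ≤ (n : ℤ) ^ 2 + |a| * n + |c| := by
    refine (abs_add_le _ _).trans ?_
    refine add_le_add ((abs_add_le _ _).trans ?_) le_rfl
    rw [abs_mul, abs_of_nonneg (by positivity : (0 : ℤ) ≤ (n : ℤ) ^ 2), abs_of_nonneg h0]
  have e2 : (n : ℤ) ^ 2 ≤ (X : ℤ) ^ 2 := by nlinarith
  have e3 : |a| * n ≤ |a| * (X : ℤ) ^ 2 := by
    refine mul_le_mul_of_nonneg_left ?_ (abs_nonneg a)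
    nlinarith
  have e4 : |c| ≤ |c| * (X : ℤ) ^ 2 := by
    have : (1 : ℤ) ≤ (X : ℤ) ^ 2 := by nlinarith
    nlinarith [abs_nonneg c]
  nlinarith

end CUB

theorem t_CUB (h : S_CNTP) : S_CUB := by
  classical
  intro a c hac ε hε
  obtain ⟨d, hd⟩ : ∃ d : ℕ, d = (a ^ 2 - 4 * c).natAbs := ⟨_, rfl⟩
  obtain ⟨Y₀, hY₀⟩ : ∃ Y₀ : ℕ, 6 * (d : ℝ) / ε < Y₀ := exists_nat_gt _
  refine ⟨Y₀ + 1, fun Y hY => ?_⟩
  obtain ⟨B, hB⟩ : ∃ B : ℕ, B = 1 + a.natAbs + c.natAbs := ⟨_, rfl⟩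
  obtain ⟨X₀, hX₀⟩ : ∃ X₀ : ℕ, (B : ℝ) / (ε / 6) ^ 3 + 12 / ε < X₀ := exists_nat_gt _
  refine ⟨X₀ + 1, fun X hX => ?_⟩
  have hXr : (X₀ : ℝ) + 1 ≤ X := by exact_mod_cast hX
  have hX0 : (0 : ℝ) < X := by
    have : (0 : ℝ) ≤ X₀ := by positivity
    linarith
  have hYr : (Y₀ : ℝ) + 1 ≤ Y := by exact_mod_cast hY
  have hY0 : (0 : ℝ) < Y := by
    have : (0 : ℝ) ≤ Y₀ := by positivity
    linarith
  have hη : 0 < ε / 6 := by positivity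
  have hBX : (B : ℝ) ≤ (ε / 6) ^ 3 * X := by
    have h1 : (B : ℝ) / (ε / 6) ^ 3 ≤ X := by
      have : (0 : ℝ) < 12 / ε := by positivity
      linarith
    rw [div_le_iff₀ (by positivity)] at h1
    linarith
  have h12 : 12 ≤ ε * X := by
    have h1 : 12 / ε ≤ X := by
      have : (0 : ℝ) ≤ (B : ℝ) / (ε / 6) ^ 3 := by positivity
      linarith
    rw [div_le_iff₀ hε] at h1
    linarith
  obtain ⟨M, hM⟩ : ∃ M : ℕ, M = ⌊ε / 6 * X⌋₊ := ⟨_, rfl⟩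
  have hMle : (M : ℝ) ≤ ε / 6 * X := by
    rw [hM]
    exact Nat.floor_le (by positivity)
  obtain ⟨k, hk⟩ : ∃ k : ℕ, d * X < 2 ^ k := ⟨d * X, Nat.lt_two_pow_self⟩
  set P : Finset ℕ := (Ioc Y M).filter Nat.Prime with hP
  set Sp : ℕ → Set ℕ := fun p => {n : ℕ | 1 ≤ n ∧ n ≤ X ∧ (p : ℤ) ^ 3 ∣ qq a c n} with hSp
  set Z : Set ℕ := {n : ℕ | 1 ≤ n ∧ n ≤ X ∧ ((2 : ℕ) : ℤ) ^ k ∣ qq a c n} with hZ
  have hZf : Z.Finite := (Set.finite_Iic X).subset fun n hn => hn.2.1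
  have hSf : ∀ p, (Sp p).Finite := fun p => (Set.finite_Iic X).subset fun n hn => hn.2.1
  have hUf : (⋃ p ∈ P, Sp p).Finite := P.finite_toSet.biUnion fun p _ => hSf p
  have hsub : {n : ℕ | 1 ≤ n ∧ n ≤ X ∧ ∃ p : ℕ, p.Prime ∧ Y < p ∧ (p : ℤ) ^ 3 ∣ qq a c n} ⊆
      Z ∪ ⋃ p ∈ P, Sp p := by
    rintro n ⟨hn1, hnX, p, hp, hYp, hdvd⟩
    by_cases h0 : qq a c n = 0
    · left
      exact ⟨hn1, hnX, by rw [h0]; exact dvd_zero _⟩
    · right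
      refine Set.mem_biUnion (x := p) ?_ ⟨hn1, hnX, hdvd⟩
      rw [Finset.mem_coe, hP, mem_filter, mem_Ioc]
      refine ⟨⟨hYp, ?_⟩, hp⟩
      rw [hM]
      apply Nat.le_floor
      have h1 : (p : ℤ) ^ 3 ≤ |qq a c n| :=
        Int.le_of_dvd (abs_pos.2 h0) ((dvd_abs _ _).2 hdvd)
      have h2 := h1.trans (CUB.qq_bound a c n X hn1 hnX)
      rw [← hB] at h2
      have h3 : (p : ℝ) ^ 3 ≤ B * (X : ℝ) ^ 2 := by exact_mod_cast h2
      have h4 : (p : ℝ) ^ 3 ≤ (ε / 6 * X) ^ 3 := by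
        refine h3.trans ?_
        calc (B : ℝ) * (X : ℝ) ^ 2 ≤ (ε / 6) ^ 3 * X * (X : ℝ) ^ 2 :=
              mul_le_mul_of_nonneg_right hBX (by positivity)
          _ = (ε / 6 * X) ^ 3 := by ring
      exact (pow_le_pow_iff_left₀ (by positivity) (by positivity) (by norm_num)).1 h4
  have hc1 := (Set.ncard_le_ncard hsub (hZf.union hUf)).trans (Set.ncard_union_le _ _)
  have hc2 : (⋃ p ∈ P, Sp p).ncard ≤ ∑ p ∈ P, (Sp p).ncard := P.set_ncard_biUnion_le Sp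
  have hZ4 : (Z.ncard : ℝ) ≤ 4 := by
    have h1 := h a c hac 2 k X Nat.prime_two
    rw [← hd] at h1
    have h2 : (d : ℝ) * X / ((2 : ℕ) : ℝ) ^ k ≤ 1 := by
      rw [div_le_one (by positivity)]
      exact_mod_cast hk.le
    have h3 : (Z.ncard : ℝ) ≤ 2 * ((d : ℝ) * X / ((2 : ℕ) : ℝ) ^ k + 1) := h1
    linarith
  have hPs : ∀ p ∈ P, ((Sp p).ncard : ℝ) ≤ 2 * (d * X * (1 / (p : ℝ) ^ 3) + 1) := by
    intro p hp
    rw [hP, mem_filter] at hp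
    have h1 := h a c hac p 3 X hp.2
    rw [← hd] at h1
    have h2 : (d : ℝ) * X / (p : ℝ) ^ 3 = d * X * (1 / (p : ℝ) ^ 3) := by ring
    rw [h2] at h1
    exact h1
  have hcard : (P.card : ℝ) ≤ ε / 6 * X := by
    have h1 : P.card ≤ M := by
      refine (card_filter_le _ _).trans ?_
      rw [Nat.card_Ioc]
      omega
    exact le_trans (by exact_mod_cast h1) hMle
  have hsum := CUB.sum_cubes Y M (by omega)
  rw [← hP] at hsum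
  have hS2 : ((∑ p ∈ P, (Sp p).ncard : ℕ) : ℝ) ≤ 2 * (d * X * (1 / Y)) + 2 * (ε / 6 * X) := by
    push_cast
    refine (Finset.sum_le_sum hPs).trans ?_
    rw [← Finset.mul_sum, Finset.sum_add_distrib, ← Finset.mul_sum, Finset.sum_const, nsmul_eq_mul,
      mul_one]
    have h5 : (d : ℝ) * X * ∑ p ∈ P, 1 / (p : ℝ) ^ 3 ≤ d * X * (1 / Y) :=
      mul_le_mul_of_nonneg_left hsum (by positivity)
    linarith
  have hYε : 2 * ((d : ℝ) * X * (1 / Y)) ≤ ε / 3 * X := by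
    have h1 : 6 * (d : ℝ) ≤ ε * Y := by
      have h2 : 6 * (d : ℝ) / ε ≤ Y := by linarith
      rw [div_le_iff₀ hε] at h2
      linarith
    have h3 : (d : ℝ) * (1 / Y) ≤ ε / 6 := by
      rw [mul_one_div, div_le_iff₀ hY0]
      linarith
    nlinarith
  have hfin : (({n : ℕ | 1 ≤ n ∧ n ≤ X ∧ ∃ p : ℕ, p.Prime ∧ Y < p ∧ (p : ℤ) ^ 3 ∣
      qq a c n}.ncard : ℕ) : ℝ) ≤ Z.ncard + ((∑ p ∈ P, (Sp p).ncard : ℕ) : ℝ) := by
    exact_mod_cast hc1.trans (Nat.add_le_add_left hc2 _)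
  linarith

end Pool.Agent.H183.NI
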