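import Pool.Agent.H183.NI.Stm
import Pool.Agent.H183.MU.FIN

/-!
# The final theorem for nilpotent groups together with the odd dimensions (library)
-/

set_option autoImplicit false

namespace Pool.Agent.H183.NI

open Finset Filter Topology Pool.Agent.H183.MU

theorem hasSinger_of {C n m : ℕ} (h : HasNS C n m) :
    Pool.Agent.H771R2.SingerDS.HasSinger n m := by
  obtain ⟨G, i1, i2, i3, D, -, h1, h2, h3⟩ := h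
  exact ⟨G, i1, i2, i3, D, h1, h2, h3⟩

theorem t_FIN2N (h : S_FINN) : ∀ (K C : ℕ) (ε : ℝ), 0 < ε → ∃ X₀ : ℕ, ∀ X : ℕ, X₀ ≤ X →
    (({n : ℕ | 2 ≤ n ∧ n ≤ X ∧ ∃ m : ℕ, (m = 4 ∨ m = 6 ∨ (3 ≤ m ∧ Odd m ∧ m.minFac ≤ K)) ∧
      HasNS C n m}.ncard : ℕ) : ℝ) ≤ ε * X := by
  intro K C ε hε
  obtain ⟨C', hC', hodd⟩ := Pool.Agent.Y346.SG.singer_count_le K (1 / 2) (by norm_num)
  obtain ⟨Xo, hXo⟩ := MU.FIN.log_small C' (ε / 2) hC' (by positivity)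
  obtain ⟨X1, hX1⟩ := h C (ε / 2) (by positivity)
  refine ⟨3 + Xo + X1, fun X hX => ?_⟩
  set O : Set ℕ := {n : ℕ | 2 ≤ n ∧ n ≤ X ∧ ∃ m : ℕ, Odd m ∧ 3 ≤ m ∧ m.minFac ≤ K ∧
    Pool.Agent.H771R2.SingerDS.HasSinger n m} with hO
  set E : Set ℕ := {n : ℕ | 2 ≤ n ∧ n ≤ X ∧ (HasNS C n 4 ∨ HasNS C n 6)} with hE
  have hOf : O.Finite := (Set.finite_Iic X).subset fun n hn => hn.2.1
  have hEf : E.Finite := (Set.finite_Iic X).subset fun n hn => hn.2.1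
  have hsub : {n : ℕ | 2 ≤ n ∧ n ≤ X ∧ ∃ m : ℕ, (m = 4 ∨ m = 6 ∨ (3 ≤ m ∧ Odd m ∧ m.minFac ≤ K)) ∧
      HasNS C n m} ⊆ O ∪ E := by
    rintro n ⟨hn2, hnX, m, hm, hD⟩
    rcases hm with rfl | rfl | ⟨h3, ho, hK⟩
    · exact Or.inr ⟨hn2, hnX, Or.inl hD⟩
    · exact Or.inr ⟨hn2, hnX, Or.inr hD⟩
    · exact Or.inl ⟨hn2, hnX, m, ho, h3, hK, hasSinger_of hD⟩
  have hc1 := (Set.ncard_le_ncard hsub (hOf.union hEf)).trans (Set.ncard_union_le _ _)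
  have hc2 : (({n : ℕ | 2 ≤ n ∧ n ≤ X ∧ ∃ m : ℕ, (m = 4 ∨ m = 6 ∨
      (3 ≤ m ∧ Odd m ∧ m.minFac ≤ K)) ∧ HasNS C n m}.ncard : ℕ) : ℝ) ≤
        (O.ncard : ℝ) + E.ncard := by
    exact_mod_cast hc1
  have hO1 : (O.ncard : ℝ) ≤ ε / 2 * X := (hodd X (by omega)).trans (hXo X (by omega))
  have hE1 : (E.ncard : ℝ) ≤ ε / 2 * X := hX1 X (by omega)
  linarith

end Pool.Agent.H183.NI
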