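import Pool.Agent.H183.NI.Stm
import Pool.Agent.H183.GL.FIN

set_option autoImplicit false

namespace Pool.Agent.H183.NI

open Finset Filter Topology Pool.Agent.H183.MU Pool.Agent.H183.GL Pool.Agent.H183.GL.FIN

namespace FINN

/-- The conditions for large `X`. -/
theorem big (C : ℕ) (c : ℝ) (hc : 0 < c) : ∃ X₀ : ℕ, ∀ X : ℕ, X₀ ≤ X →
    (C : ℝ) + 1 ≤ (X : ℝ) ^ (1 / 8 : ℝ) ∧ Real.log X ≤ ((X : ℝ) ^ (1 / 8 : ℝ)) ^ 4 ∧
      ((X : ℝ) ^ (1 / 8 : ℝ)) ^ 2 + 2 ≤ c * X ∧ 4 * ((X : ℝ) ^ (1 / 8 : ℝ)) ^ 2 ≤ c * X ∧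
      (C : ℝ) < (LL X) ^ 9 := by
  have hlog : Tendsto (fun X : ℕ => Real.log X) atTop atTop :=
    Real.tendsto_log_atTop.comp tendsto_natCast_atTop_atTop
  have hLL : Tendsto (fun X : ℕ => LL X) atTop atTop := Real.tendsto_log_atTop.comp hlog
  have h1 : ∀ᶠ X : ℕ in atTop, (C : ℝ) + 1 ≤ LL X := hLL.eventually_ge_atTop _
  have h2 : Tendsto (fun X : ℕ => (X : ℝ) ^ (1 / 8 : ℝ)) atTop atTop :=
    (tendsto_rpow_atTop (by norm_num)).comp tendsto_natCast_atTop_atTop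
  have h3 : ∀ᶠ x : ℝ in atTop, Real.log x ≤ x ^ (1 / 2 : ℝ) := by
    have := (isLittleO_log_rpow_atTop (r := 1 / 2) (by norm_num)).bound (c := 1) one_pos
    filter_upwards [this, eventually_ge_atTop (1 : ℝ)] with x hx hx1
    rw [Real.norm_of_nonneg (Real.log_nonneg hx1), Real.norm_of_nonneg (by positivity), one_mul]
      at hx
    exact hx
  have h4 : ∀ᶠ X : ℕ in atTop, Real.log X ≤ (X : ℝ) ^ (1 / 2 : ℝ) :=
    (tendsto_natCast_atTop_atTop (R := ℝ)).eventually h3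
  obtain ⟨N, hN⟩ := eventually_atTop.1 (h1.and (h4.and ((h2.eventually_ge_atTop
    ((C : ℝ) + 1)).and (h2.eventually_ge_atTop (5 / c)))))
  refine ⟨N, fun X hX => ?_⟩
  obtain ⟨a1, a2, a3, a4⟩ := hN X hX
  have hX0 : (0 : ℝ) ≤ X := Nat.cast_nonneg X
  have hC0 : (0 : ℝ) ≤ C := Nat.cast_nonneg C
  obtain ⟨x, hx⟩ : ∃ x : ℝ, x = (X : ℝ) ^ (1 / 8 : ℝ) := ⟨_, rfl⟩
  have e8 : x ^ 8 = X := by
    rw [hx, ← Real.rpow_natCast, ← Real.rpow_mul hX0]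
    norm_num
  have e4 : x ^ 4 = (X : ℝ) ^ (1 / 2 : ℝ) := by
    rw [hx, ← Real.rpow_natCast, ← Real.rpow_mul hX0]
    norm_num
  rw [← hx] at a3 a4 ⊢
  rw [e4]
  have hx1 : 1 ≤ x := by linarith
  have hx6 : x ≤ x ^ 6 := le_self_pow₀ hx1 (by norm_num)
  have h5 : 5 ≤ c * x ^ 6 := by
    rw [div_le_iff₀ hc] at a4
    nlinarith
  have h6 : 5 * x ^ 2 ≤ c * X := by
    rw [← e8]
    have : c * x ^ 8 = (c * x ^ 6) * x ^ 2 := by ring
    rw [this]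
    exact mul_le_mul_of_nonneg_right h5 (sq_nonneg x)
  have h7 : 1 ≤ x ^ 2 := one_le_pow₀ hx1
  refine ⟨a3, a2, by linarith, by linarith, ?_⟩
  have h8 : LL X ≤ (LL X) ^ 9 := le_self_pow₀ (by linarith) (by norm_num)
  linarith

/-- The order of the group. -/
theorem card_eq {n m N : ℕ} (hn : 2 ≤ n) (h : N * (n - 1) = n ^ m - 1) :
    N = ∑ i ∈ range m, n ^ i := by
  have h1 : (∑ i ∈ range m, n ^ i) * (n - 1) = n ^ m - 1 := by
    rw [Nat.geomSum_eq hn]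
    exact Nat.div_mul_cancel (by simpa using Nat.sub_dvd_pow_sub_pow n 1 m)
  have h2 : 0 < n - 1 := by omega
  exact Nat.eq_of_mul_eq_mul_right h2 (h.trans h1.symm)

theorem dvd_sum {n m : ℕ} (hm : m = 4 ∨ m = 6) : n + 1 ∣ ∑ i ∈ range m, n ^ i := by
  rcases hm with rfl | rfl
  · exact ⟨n ^ 2 + 1, by simp only [sum_range_succ, sum_range_zero]; ring⟩
  · exact ⟨n ^ 4 + n ^ 2 + 1, by simp only [sum_range_succ, sum_range_zero]; ring⟩

/-- the two cases for the group -/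
theorem grp (hM : S_COMM) {C n m w ν : ℕ} (hm : m = 4 ∨ m = 6) (hn : 2 ≤ n) (hw : w.Prime)
    (hwn : w ∣ n + 1) (hCw : C < w) (hCν : C ≤ ν) (hcf : cf (∑ i ∈ range m, n ^ i) ≤ ν)
    (G : Type) [Group G] [Fintype G]
    (hG : Group.IsNilpotent G ∨ Nat.card (commutator G) ≤ C)
    (hc : Fintype.card G * (n - 1) = n ^ m - 1) :
    Nat.card (commutator G) ≤ ν ∧ w ∣ Nat.card (Abelianization G) := by
  have h1 := card_eq hn hc
  have h2 : w ∣ Nat.card G := by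
    rw [Nat.card_eq_fintype_card, h1]
    exact hwn.trans (dvd_sum hm)
  rcases hG with hG | hG
  · obtain ⟨h3, h4⟩ := hM G hG
    rw [Nat.card_eq_fintype_card (α := G), h1] at h3
    exact ⟨h3.trans hcf, h4 w hw h2⟩
  · refine ⟨hG.trans hCν, ?_⟩
    have h3 : Nat.card G = Nat.card (Abelianization G) * Nat.card (commutator G) :=
      Subgroup.card_eq_card_quotient_mul_card_subgroup (commutator G)
    rw [h3] at h2
    rcases (Nat.Prime.dvd_mul hw).1 h2 with h4 | h4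
    · exact h4
    · exfalso
      have h5 : 0 < Nat.card (commutator G) := Nat.card_pos
      have h6 := Nat.le_of_dvd h5 h4
      omega

end FINN

open FINN in
theorem t_FINN (hK : S_KEY3N) (hC : S_CF4) (hS : S_SMO2) (hM : S_COMM) (hW : S_WSET) (hN : S_NOW)
    (hSQ : S_SQ) (p1 : S_BP1) (p2 : S_BP2) (hBN : S_BN) (f1 : S_BF1) (f2 : S_BF2) (f3 : S_BF3) :
    S_FINN := by
  intro C ε hε
  obtain ⟨A, hA0, hA⟩ : ∃ A : ℝ, 0 < A ∧ 2 * Real.exp (-A) ≤ ε / 8 := by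
    refine ⟨max 1 (Real.log (16 / ε)), lt_of_lt_of_le one_pos (le_max_left _ _), ?_⟩
    have h1 : Real.exp (-(max 1 (Real.log (16 / ε)))) ≤ Real.exp (-(Real.log (16 / ε))) :=
      Real.exp_le_exp.2 (neg_le_neg (le_max_right _ _))
    rw [Real.exp_neg (Real.log (16 / ε)), Real.exp_log (by positivity), inv_div] at h1
    linarith
  obtain ⟨δ, hδ0, hδ1, X1, hX1⟩ := hS (ε / 8) (by positivity)
  obtain ⟨X2, hX2⟩ := neg_bad δ hδ0 hδ1 hSQ p1 p2 hBN f1 f2 f3 (ε / (8 * (A + 1))) (by positivity)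
  obtain ⟨X3, hX3⟩ := hW A hA0
  obtain ⟨X4, hX4⟩ := hN A hA0
  obtain ⟨X5, hX5⟩ := large (ε / 8) (by positivity)
  obtain ⟨X6, hX6⟩ := hC 4 (Or.inl rfl) (1 / 8) (ε / 8) (by norm_num) (by positivity)
  obtain ⟨X7, hX7⟩ := hC 6 (Or.inr rfl) (1 / 8) (ε / 8) (by norm_num) (by positivity)
  obtain ⟨X8, hX8⟩ := big C (ε / 8) (by positivity)
  refine ⟨max X1 (max X2 (max X3 (max X4 (max X5 (max X6 (max X7 X8)))))), fun X hX => ?_⟩
  simp only [max_le_iff] at hX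
  obtain ⟨c1, c2, c3, c4, c5, c6, c7, c8⟩ := hX
  obtain ⟨k1, k2, k3, k4, k5⟩ := hX8 X c8
  obtain ⟨W, hW1, hW2, hW3⟩ := hX3 X c3
  choose! l hl using hW1
  have hXr : (0 : ℝ) ≤ X := Nat.cast_nonneg X
  have e1 := hX1 X c1
  have e4 := hX4 X c4 W (fun w hw => ⟨(hl w hw).1, (hl w hw).2.2.2.1⟩) hW2
  have e2 : ∀ w ∈ W, (({n : ℕ | 1 ≤ n ∧ n ≤ X ∧ w ∣ n + 1 ∧ Bad δ X w (l w) n}.ncard : ℕ) : ℝ) ≤
      ε / (8 * (A + 1)) * ((X : ℝ) / w) := fun w hw => hX2 X c2 w (l w) (hl w hw)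
  set T : Set ℕ := {n : ℕ | 2 ≤ n ∧ n ≤ X ∧ (HasNS C n 4 ∨ HasNS C n 6)} with hT
  set T1 : Set ℕ := {n : ℕ | 1 ≤ n ∧ n ≤ X ∧
    (∏ p ∈ n.primeFactors.filter (fun p : ℕ => (X : ℝ) ^ δ < p), p ^ n.factorization p) ^ 8 <
      n ^ 7} with hT1
  have e6 := hX6 X c6
  have e7 := hX7 X c7
  set T6 : Set ℕ := {n : ℕ | 1 ≤ n ∧ n ≤ X ∧
    (X : ℝ) ^ (1 / 8 : ℝ) < cf (∑ i ∈ range 4, n ^ i)} with hT6
  set T7 : Set ℕ := {n : ℕ | 1 ≤ n ∧ n ≤ X ∧
    (X : ℝ) ^ (1 / 8 : ℝ) < cf (∑ i ∈ range 6, n ^ i)} with hT7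
  obtain ⟨x, hx⟩ : ∃ x : ℝ, x = (X : ℝ) ^ (1 / 8 : ℝ) := ⟨_, rfl⟩
  rw [← hx] at k1 k2 k3 k4
  obtain ⟨ν, hν⟩ : ∃ ν : ℕ, ν = ⌊x⌋₊ := ⟨_, rfl⟩
  have hC0 : (0 : ℝ) ≤ C := Nat.cast_nonneg C
  have hx0 : 0 ≤ x := by linarith
  have hνx : (ν : ℝ) ≤ x := by rw [hν]; exact Nat.floor_le hx0
  have hCν : C + 1 ≤ ν := by
    rw [hν]
    exact Nat.le_floor (by push_cast; exact k1)
  set T4 : Set ℕ := {n : ℕ | 1 ≤ n ∧ n ≤ X ∧ ∀ w ∈ W, ¬ w ∣ n + 1} with hT4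
  set T5 : Set ℕ := {n : ℕ | 1 ≤ n ∧ n ≤ ⌊ε / 8 * X⌋₊} with hT5
  set T2 : Set ℕ := ⋃ w ∈ W, {n : ℕ | 1 ≤ n ∧ n ≤ X ∧ w ∣ n + 1 ∧ Bad δ X w (l w) n} with hT2
  have fin1 : T1.Finite := (Set.finite_Icc 1 X).subset (fun n hn => ⟨hn.1, hn.2.1⟩)
  have fin6 : T6.Finite := (Set.finite_Icc 1 X).subset (fun n hn => ⟨hn.1, hn.2.1⟩)
  have fin7 : T7.Finite := (Set.finite_Icc 1 X).subset (fun n hn => ⟨hn.1, hn.2.1⟩)
  have fin4 : T4.Finite := (Set.finite_Icc 1 X).subset (fun n hn => ⟨hn.1, hn.2.1⟩)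
  have fin5 : T5.Finite := (Set.finite_Icc 1 ⌊ε / 8 * X⌋₊).subset (fun n hn => ⟨hn.1, hn.2⟩)
  have fin2 : T2.Finite := (Set.finite_Icc 1 X).subset (by
    intro n hn
    rw [hT2] at hn
    simp only [Set.mem_iUnion] at hn
    obtain ⟨w, _, hn⟩ := hn
    exact ⟨hn.1, hn.2.1⟩)
  have hsub : T ⊆ T5 ∪ (T4 ∪ (T1 ∪ (T2 ∪ (T6 ∪ T7)))) := by
    intro n hn
    by_contra hcon
    simp only [Set.mem_union, not_or] at hcon
    obtain ⟨d5, d4, d1, d2, d6, d7⟩ := hcon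
    obtain ⟨hn2, hnX, hn3⟩ := hn
    have hn1 : 1 ≤ n := by omega
    -- n is large
    have hnl : ε / 8 * X < n := by
      by_contra hle
      push Not at hle
      exact d5 ⟨hn1, Nat.le_floor hle⟩
    -- a prime of W
    have hw : ∃ w ∈ W, w ∣ n + 1 := by
      by_contra hne
      push Not at hne
      exact d4 ⟨hn1, hnX, hne⟩
    obtain ⟨w, hwW, hwn⟩ := hw
    have hP8 : n ^ 7 ≤ (∏ p ∈ n.primeFactors.filter (fun p : ℕ => (X : ℝ) ^ δ < p),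
        p ^ n.factorization p) ^ 8 := by
      by_contra hlt
      push Not at hlt
      exact d1 ⟨hn1, hnX, hlt⟩
    have h4ν : 4 * ν ^ 2 ≤ n := by
      have h1 : (ν : ℝ) ^ 2 ≤ x ^ 2 := pow_le_pow_left₀ (Nat.cast_nonneg ν) hνx 2
      have h2 : 4 * (ν : ℝ) ^ 2 ≤ n := by linarith
      exact_mod_cast h2
    have hP : 2 * ν * n ^ 3 ≤ (∏ p ∈ n.primeFactors.filter (fun p : ℕ => (X : ℝ) ^ δ < p),
        p ^ n.factorization p) ^ 4 := by
      refine (Nat.pow_le_pow_iff_left (n := 2) two_ne_zero).1 ?_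
      rw [← pow_mul]
      refine le_trans ?_ hP8
      calc (2 * ν * n ^ 3) ^ 2 = (4 * ν ^ 2) * n ^ 6 := by ring
        _ ≤ n * n ^ 6 := Nat.mul_le_mul_right _ h4ν
        _ = n ^ 7 := by ring
    have hB : ¬ Bad δ X w (l w) n := by
      intro hb
      apply d2
      rw [hT2]
      simp only [Set.mem_iUnion]
      exact ⟨w, hwW, hn1, hnX, hwn, hb⟩
    have hAd := hl w hwW
    obtain ⟨g1, g2, g3⟩ := hX5 X c5 w (l w) hAd
    have hwx : (w : ℝ) ≤ x := by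
      have h1 : (w : ℝ) ^ 4 ≤ x ^ 4 := hAd.2.2.2.1.trans k2
      exact le_of_pow_le_pow_left₀ (by norm_num) hx0 h1
    have g4 : ν * w + 2 ≤ n := by
      have h1 : (ν : ℝ) * w ≤ x * x := mul_le_mul hνx hwx (Nat.cast_nonneg w) hx0
      have : (ν : ℝ) * w + 2 ≤ n := by nlinarith
      exact_mod_cast this
    have hCw : C < w := by
      have h1 : (C : ℝ) < l w := lt_of_lt_of_le k5 hAd.2.2.2.2
      have h2 : C < l w := by exact_mod_cast h1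
      have h3 : 0 < w - 1 := by have := hAd.1.two_le; omega
      have h4 : l w ≤ w - 1 := Nat.le_of_dvd h3 hAd.2.2.1
      omega
    have hcf4 : cf (∑ i ∈ range 4, n ^ i) ≤ ν := by
      rw [hν]
      refine Nat.le_floor ?_
      rw [hx]
      by_contra hlt
      push Not at hlt
      exact d6 ⟨hn1, hnX, hlt⟩
    have hcf6 : cf (∑ i ∈ range 6, n ^ i) ≤ ν := by
      rw [hν]
      refine Nat.le_floor ?_
      rw [hx]
      by_contra hlt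
      push Not at hlt
      exact d7 ⟨hn1, hnX, hlt⟩
    unfold Bad at hB
    simp only [not_or] at hB
    obtain ⟨B1, B2, B3, B4, ⟨B5, B6, B7⟩, ⟨B8, B9, B10⟩, B11, B12, B13⟩ := hB
    have hno : ∀ m : ℕ, m = 4 ∨ m = 6 → ¬ HasNS C n m := by
      rintro m hm ⟨G, i1, i2, i3, D, hG, hGc, hDc, hDl⟩
      have hcfm : cf (∑ i ∈ range m, n ^ i) ≤ ν := by
        rcases hm with rfl | rfl
        · exact hcf4
        · exact hcf6
      obtain ⟨u1, u2⟩ := grp hM hm hn2 hAd.1 hwn hCw (by omega) hcfm G hG hGc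
      refine hK n m w (l w) ν ((X : ℝ) ^ δ) hm hAd.1 hAd.2.1 hAd.2.2.1 g1 (by omega) g4 hwn B1
        ?_ hP ?_ ?_ G D u1 u2 hGc hDc hDl
      · intro p hp hpn hyp hH
        rcases le_or_gt (p ^ 2) X with h | h
        · exact B2 ⟨p, hp, hpn, hyp, h, hH⟩
        · exact B3 ⟨p, hp, hpn, h, hH⟩
      · intro q hq hqw hqn hql
        exact B4 ⟨q, hq, hqw, hqn, hql⟩
      · intro a ha q hq hqf hql
        have key : ∀ b : ℤ,
            (¬ ∃ q : ℕ, q.Prime ∧ (q : ℤ) ∣ fa b n ∧ (l w ∣ q - 1 ∨ q = l w) ∧ q * w ≤ X) →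
            (¬ ∃ q : ℕ, q.Prime ∧ (q : ℤ) ∣ fa b n ∧ X < q * w ∧ q ≤ 2 * X * l w * w) →
            (¬ ∃ q : ℕ, q.Prime ∧ (q : ℤ) ∣ fa b n ∧ l w ∣ q - 1 ∧ 2 * X * l w * w < q) →
            (q : ℤ) ∣ fa b n → False := by
          intro b k1 k2 k3 hb
          rcases le_or_gt (q * w) X with h | h
          · exact k1 ⟨q, hq, hb, hql, h⟩
          · rcases le_or_gt q (2 * X * l w * w) with h' | h'
            · exact k2 ⟨q, hq, hb, h, h'⟩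
            · rcases hql with h'' | h''
              · exact k3 ⟨q, hq, hb, h'', h'⟩
              · rw [h''] at h
                omega
        rcases ha with h | h | h
        · rw [h] at hqf; exact key 0 B5 B6 B7 hqf
        · rw [h] at hqf; exact key 1 B8 B9 B10 hqf
        · rw [h] at hqf; exact key (-1) B11 B12 B13 hqf
    rcases hn3 with h | h
    · exact hno 4 (Or.inl rfl) h
    · exact hno 6 (Or.inr rfl) h
  have c2' : (T2.ncard : ℝ) ≤ ε / 8 * X := by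
    have h1 : T2.ncard ≤ ∑ w ∈ W, {n : ℕ | 1 ≤ n ∧ n ≤ X ∧ w ∣ n + 1 ∧ Bad δ X w (l w) n}.ncard :=
      Finset.set_ncard_biUnion_le W _
    have h2 : (T2.ncard : ℝ) ≤ ∑ w ∈ W,
        (({n : ℕ | 1 ≤ n ∧ n ≤ X ∧ w ∣ n + 1 ∧ Bad δ X w (l w) n}.ncard : ℕ) : ℝ) := by
      exact_mod_cast h1
    refine h2.trans ((sum_le_sum e2).trans ?_)
    have h3 : ∑ w ∈ W, ε / (8 * (A + 1)) * ((X : ℝ) / w) =
        ε / (8 * (A + 1)) * X * ∑ w ∈ W, (1 : ℝ) / w := by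
      rw [mul_sum]
      refine sum_congr rfl fun w _ => ?_
      ring
    rw [h3]
    have h4 : ε / (8 * (A + 1)) * X * ∑ w ∈ W, (1 : ℝ) / w ≤ ε / (8 * (A + 1)) * X * (A + 1) :=
      mul_le_mul_of_nonneg_left hW3 (by positivity)
    refine h4.trans (le_of_eq ?_)
    field_simp
  have c5' : (T5.ncard : ℝ) ≤ ε / 8 * X := by
    have h1 : T5.ncard ≤ ⌊ε / 8 * X⌋₊ := by
      have h2 : T5 = ((Icc 1 ⌊ε / 8 * X⌋₊ : Finset ℕ) : Set ℕ) := by
        rw [hT5]; ext n; simp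
      rw [h2, Set.ncard_coe_finset, Nat.card_Icc, Nat.add_sub_cancel]
    have h3 : (T5.ncard : ℝ) ≤ (⌊ε / 8 * X⌋₊ : ℝ) := by exact_mod_cast h1
    exact h3.trans (Nat.floor_le (by positivity))
  have hcard : T.ncard ≤
      T5.ncard + (T4.ncard + (T1.ncard + (T2.ncard + (T6.ncard + T7.ncard)))) := by
    refine (Set.ncard_le_ncard hsub (fin5.union (fin4.union (fin1.union (fin2.union
      (fin6.union fin7)))))).trans ?_
    refine (Set.ncard_union_le _ _).trans (Nat.add_le_add_left ?_ _)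
    refine (Set.ncard_union_le _ _).trans (Nat.add_le_add_left ?_ _)
    refine (Set.ncard_union_le _ _).trans (Nat.add_le_add_left ?_ _)
    refine (Set.ncard_union_le _ _).trans (Nat.add_le_add_left ?_ _)
    exact Set.ncard_union_le _ _
  have hcardR : (T.ncard : ℝ) ≤
      T5.ncard + (T4.ncard + (T1.ncard + (T2.ncard + (T6.ncard + T7.ncard)))) := by
    exact_mod_cast hcard
  have e4' : (T4.ncard : ℝ) ≤ ε / 8 * X :=
    e4.trans (mul_le_mul_of_nonneg_right hA hXr)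
  have hεX : 0 ≤ ε * X := by positivity
  linarith

end Pool.Agent.H183.NI

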