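import Pool.Agent.H183.NI.Stm

/-!
# S_KEY2N: exclusion by the glued multiplier, for groups with a small commutator subgroup

After `Pool/Agent/H183/GL/KEY2.lean` (by helper703).
-/

set_option autoImplicit false

namespace Pool.Agent.H183.NI

open Finset Pool.Agent.H183.MU Pool.Agent.H183.GL

namespace KEY2N

/-- Geometric sums. -/
theorem geom (n : ℕ) (hn : 2 ≤ n) (j : ℕ) : (∑ i ∈ range j, n ^ i) * (n - 1) = n ^ j - 1 := by
  have hd : n - 1 ∣ n ^ j - 1 := by
    have h := Nat.sub_dvd_pow_sub_pow n 1 j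
    rwa [one_pow] at h
  rw [Nat.geomSum_eq hn j]
  exact Nat.div_mul_cancel hd

theorem geom_succ (n j : ℕ) : ∑ i ∈ range (j + 1), n ^ i = n * (∑ i ∈ range j, n ^ i) + 1 := by
  rw [Finset.mul_sum, Finset.sum_range_succ', pow_zero]
  congr 1
  exact Finset.sum_congr rfl fun i _ => by rw [pow_succ, mul_comm]

theorem not_dvd_geom (n p j : ℕ) (hp : p.Prime) (hpn : p ∣ n) (hj : 1 ≤ j) :
    ¬ p ∣ ∑ i ∈ range j, n ^ i := by
  intro h
  obtain ⟨j', rfl⟩ : ∃ j', j = j' + 1 := ⟨j - 1, by omega⟩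
  rw [geom_succ] at h
  have h5 := (Nat.dvd_add_right (hpn.mul_right (∑ i ∈ range j', n ^ i))).1 h
  exact hp.one_lt.ne' (Nat.dvd_one.1 h5)

theorem pow_eq {A : Type} [CommGroup A] [Fintype A] (a b N : ℕ) (hN : Fintype.card A = N)
    (h : a ≡ b [MOD N]) (g : A) : g ^ a = g ^ b := by
  rw [pow_eq_pow_iff_modEq]
  refine h.of_dvd ?_
  rw [← hN]
  exact orderOf_dvd_card

end KEY2N

/-- **S_KEY2N** -/
theorem t_KEY2N (h1 : S_IMG) (h2 : S_MULTF) (h3 : S_FIXF) (h4 : S_TRF) (h5 : S_SIZEF)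
    (h6 : S_GLUE) : S_KEY2N := by
  intro n m w v' l ν S hn hm hmev hw hl hlw hwv hwv' hlv hν hwn hS hprod G _ _ _ D hcomm hwA hv hk hlam
  have hpos : 0 < n - 1 := by omega
  obtain ⟨r, hr⟩ := hmev
  have hr2 : 2 ≤ r := by omega
  obtain ⟨u, hu⟩ : ∃ u : ℕ, u = n ^ (r - 1) := ⟨_, rfl⟩
  have hu0 : 0 < u := by
    rw [hu]
    exact Nat.pos_of_ne_zero (pow_ne_zero _ (by omega))
  have hu2 : u ^ 2 = n ^ (m - 2) := by
    rw [hu, ← pow_mul]
    congr 1
    omega
  obtain ⟨lam, hlamdef⟩ : ∃ lam : ℕ, lam = ∑ i ∈ range (m - 2), n ^ i := ⟨_, rfl⟩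
  have hlam' : lam * (n - 1) = n ^ (m - 2) - 1 := by
    rw [hlamdef]
    exact KEY2N.geom n hn (m - 2)
  have hDG : IsDG D D.card lam := ⟨rfl, fun g hg =>
    Nat.eq_of_mul_eq_mul_right hpos ((hlam g hg).trans hlam'.symm)⟩
  have hcard : Fintype.card G = ∑ i ∈ range m, n ^ i :=
    Nat.eq_of_mul_eq_mul_right hpos (hv.trans (KEY2N.geom n hn m).symm)
  have hkcard : D.card = ∑ i ∈ range (m - 1), n ^ i :=
    Nat.eq_of_mul_eq_mul_right hpos (hk.trans (KEY2N.geom n hn (m - 1)).symm)
  have hcardw : Fintype.card G = w * v' := hcard.trans hwv.symm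
  have hGk : Fintype.card G = n * D.card + 1 := by
    rw [hcard, hkcard, ← KEY2N.geom_succ]
    congr 2
    omega
  have hklam : D.card = n * lam + 1 := by
    rw [hkcard, hlamdef, ← KEY2N.geom_succ]
    congr 2
    omega
  have hku : D.card = lam + u ^ 2 := by
    rw [hkcard, hlamdef, hu2, ← Finset.sum_range_succ]
    congr 2
    omega
  have hku' : D.card - lam = u ^ 2 := by omega
  have hlk : lam ≤ D.card := by omega
  -- `lam` is small
  have hlt : lam < 2 * n ^ (m - 3) := by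
    have e : n ^ (m - 2) = n ^ (m - 3) * n := by
      rw [← pow_succ]
      congr 1
      omega
    have h5 : lam * (n - 1) < 2 * n ^ (m - 3) * (n - 1) := by
      have h6 : 1 ≤ n ^ (m - 2) := Nat.one_le_pow _ _ (by omega)
      have h7 : n ^ (m - 2) ≤ 2 * n ^ (m - 3) * (n - 1) := by
        rw [e, mul_comm 2, mul_assoc]
        exact Nat.mul_le_mul_left _ (by omega)
      omega
    exact lt_of_mul_lt_mul_right h5 (Nat.zero_le _)
  -- the abelianization
  letI : Fintype (Abelianization G) := Fintype.ofFinite _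
  letI : DecidableEq (Abelianization G) := Classical.decEq _
  have hsurj : Function.Surjective (Abelianization.of : G →* Abelianization G) :=
    QuotientGroup.mk'_surjective _
  have hker : Nat.card (Abelianization.of : G →* Abelianization G).ker =
      Nat.card (commutator G) := by
    rw [Abelianization.ker_of]
  obtain ⟨κ, hκ⟩ : ∃ κ : ℕ, κ = Nat.card (commutator G) := ⟨_, rfl⟩
  have hκν : κ ≤ ν := hκ ▸ hcomm
  have hGA : Fintype.card G = Fintype.card (Abelianization G) * κ := by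
    have h7 := Subgroup.card_eq_card_quotient_mul_card_subgroup (commutator G)
    rw [← Nat.card_eq_fintype_card, ← Nat.card_eq_fintype_card, hκ]
    exact h7
  rw [Nat.card_eq_fintype_card] at hwA
  obtain ⟨v'', hv''⟩ := hwA
  have hvv : v' = v'' * κ := by
    have h7 : w * v' = w * (v'' * κ) := by
      rw [← hcardw, hGA, hv'']
      ring
    exact Nat.eq_of_mul_eq_mul_left hw.pos h7
  have hwv'' : ¬ w ∣ v'' := fun h => hwv' (hvv ▸ h.mul_right κ)
  have hlv'' : ¬ l ∣ Nat.totient v'' := fun h =>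
    hlv (h.trans (Nat.totient_dvd_of_dvd (hvv ▸ Dvd.intro κ rfl)))
  have hv0 : 0 < v'' := by
    rcases Nat.eq_zero_or_pos v'' with h0 | h0
    · exfalso
      rw [h0, mul_zero] at hv''
      exact Fintype.card_ne_zero hv''
    · exact h0
  have hAG : Fintype.card (Abelianization G) ∣ Fintype.card G := by
    rw [hGA]
    exact Dvd.intro κ rfl
  have hDF := h1 G (Abelianization G) Abelianization.of hsurj D D.card lam hDG hlk
  rw [hker, ← hκ, hku'] at hDF
  obtain ⟨t, ht1, htv, htw, htc, htp⟩ := h6 w v'' l hw hl hlw hv0 hwv'' hlv''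
  rw [← hv''] at htc
  have hpS : ∀ p ∈ S, p.Prime ∧ ¬ p ∣ Fintype.card (Abelianization G) ∧ ¬ p ∣ D.card ∧
      p ^ (n.factorization p * (m - 2)) ∣ u ^ 2 ∧
      ∃ j : ℕ, ∀ g : Abelianization G, g ^ t = g ^ (p ^ j) := by
    intro p hp
    obtain ⟨hp1, hp2, hp3⟩ := hS p hp
    have hpG : ¬ p ∣ Fintype.card (Abelianization G) := by
      intro h
      have h7 := h.trans hAG
      rw [hcard] at h7
      exact KEY2N.not_dvd_geom n p m hp1 hp2 (by omega) h7
    refine ⟨hp1, hpG, ?_, ?_, ?_⟩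
    · rw [hkcard]
      exact KEY2N.not_dvd_geom n p (m - 1) hp1 hp2 (by omega)
    · rw [hu2, pow_mul]
      exact pow_dvd_pow_of_dvd (Nat.ordProj_dvd n p) _
    · have hcop : Nat.Coprime p (w * v'') := by
        rw [← hv'']
        exact (Nat.Prime.coprime_iff_not_dvd hp1).2 hpG
      obtain ⟨j, hj⟩ := htp p hcop hp3
      exact ⟨j, fun g => KEY2N.pow_eq t (p ^ j) (w * v'') hv'' hj.symm g⟩
  have hprod' : lam * κ < ∏ p ∈ S, p ^ (n.factorization p * (m - 2)) := by
    have h7 : lam * κ < 2 * ν * n ^ (m - 3) := by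
      calc lam * κ ≤ lam * ν := Nat.mul_le_mul_left _ hκν
        _ < (2 * n ^ (m - 3)) * ν := Nat.mul_lt_mul_of_pos_right hlt (by omega)
        _ = 2 * ν * n ^ (m - 3) := by ring
    refine lt_of_lt_of_le h7 (hprod.trans (le_of_eq ?_))
    rw [← Finset.prod_pow]
    exact Finset.prod_congr rfl fun p _ => (pow_mul _ _ _).symm
  have hmul := h2 (Abelianization G) (im Abelianization.of D) D.card (u ^ 2) (lam * κ) t S
    (fun p => n.factorization p * (m - 2)) hDF (by positivity) htc hpS hprod'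
  have hcop1 : Nat.Coprime D.card (Fintype.card (Abelianization G)) := by
    refine Nat.Coprime.coprime_dvd_right hAG ?_
    rw [hGk]
    exact (Nat.coprime_mul_right_add_right D.card 1 n).2 (Nat.coprime_one_right _)
  obtain ⟨b, hb⟩ := h3 (Abelianization G) (im Abelianization.of D) D.card t hDF.1 hcop1 htc hmul
  have hDF' := h4 (Abelianization G) (im Abelianization.of D) D.card (u ^ 2) (lam * κ) b hDF
  have hsize := h5 (Abelianization G) (fun a => im Abelianization.of D (b * a)) D.card (lam * κ)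
    w v'' t u hDF' hv'' hw hwv'' ht1 htv htw hb
  -- the end
  have hul : u ≤ lam := by
    rw [hu, hlamdef]
    have h5 : n ^ (r - 1) ≤ n ^ (m - 3) := Nat.pow_le_pow_right (by omega) (by omega)
    have h6 : n ^ (m - 3) ≤ ∑ i ∈ range (m - 2), n ^ i :=
      Finset.single_le_sum (f := fun i => n ^ i) (fun _ _ => Nat.zero_le _)
        (Finset.mem_range.mpr (by omega))
    exact h5.trans h6
  have h7 : lam * (ν * w + 2) ≤ lam * n := Nat.mul_le_mul_left lam hwn
  have h8 : lam * κ * w ≤ lam * (ν * w) := by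
    rw [mul_assoc]
    exact Nat.mul_le_mul_left _ (Nat.mul_le_mul_right _ hκν)
  rw [Nat.mul_add] at h7
  rw [hklam, Nat.mul_comm n lam] at hsize
  omega

end Pool.Agent.H183.NI
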