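import Pool.Agent.H183.NI.Stm

/-!
# `S_PARG`: the parameters of a difference set in any group (helper236, for helper183)
-/

set_option autoImplicit false

namespace Pool.Agent.H183.NI

open Finset Pool.Agent.H183.MU Pool.Agent.H183.GL

namespace PARG

/-- counting the pairs by their quotient -/
theorem count {G : Type} [Group G] [Fintype G] [DecidableEq G] (D : Finset G)
    (k lam : ℕ) (h : IsDG D k lam) : k * k + lam = k + lam * Fintype.card G := by
  obtain ⟨h1, h2⟩ := h
  have e1 : (D ×ˢ D).card = ∑ g : G, ((D ×ˢ D).filter (fun p : G × G => p.1 * p.2⁻¹ = g)).card :=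
    Finset.card_eq_sum_card_fiberwise (fun _ _ => by simp)
  have e2 := Finset.add_sum_erase (Finset.univ : Finset G)
    (fun g => ((D ×ˢ D).filter (fun p : G × G => p.1 * p.2⁻¹ = g)).card) (Finset.mem_univ 1)
  have e3 : ((D ×ˢ D).filter (fun p : G × G => p.1 * p.2⁻¹ = 1)).card = k := by
    rw [← h1, ← Finset.card_image_of_injective D (f := fun d : G => (d, d))
      (fun a b hab => (Prod.mk.inj hab).1)]
    congr 1
    ext ⟨a, b⟩
    simp only [Finset.mem_filter, Finset.mem_product, Finset.mem_image, Prod.mk.injEq]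
    constructor
    · rintro ⟨⟨ha, hb⟩, hab⟩
      have : a = b := mul_inv_eq_one.1 hab
      exact ⟨a, ha, rfl, this⟩
    · rintro ⟨d, hd, rfl, rfl⟩
      exact ⟨⟨hd, hd⟩, mul_inv_cancel _⟩
  have e4 : ∑ g ∈ (Finset.univ : Finset G).erase 1,
      ((D ×ˢ D).filter (fun p : G × G => p.1 * p.2⁻¹ = g)).card = (Fintype.card G - 1) * lam := by
    rw [Finset.sum_congr rfl (fun g hg => h2 g (Finset.ne_of_mem_erase hg)), Finset.sum_const,
      Finset.card_erase_of_mem (Finset.mem_univ _), Finset.card_univ, smul_eq_mul]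
  simp only [e3, e4] at e2
  rw [Finset.card_product, h1, ← e2] at e1
  have hv : 1 ≤ Fintype.card G := Fintype.card_pos
  obtain ⟨v, hv'⟩ : ∃ v, Fintype.card G = v + 1 := ⟨Fintype.card G - 1, by omega⟩
  rw [hv'] at e1 ⊢
  rw [Nat.add_sub_cancel] at e1
  rw [e1]
  ring

end PARG

theorem t_PARG : S_PARG := by
  intro G _ _ _ D k lam u h hk
  have h1 := PARG.count D k lam h
  rw [← hk]
  have hu : u ≤ k := by
    rw [hk]
    nlinarith [Nat.zero_le lam, sq_nonneg u, Nat.le_self_pow (two_ne_zero) u]
  obtain ⟨m, hm⟩ : ∃ m, k = m + u := ⟨k - u, by omega⟩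
  have h2 : k - u = m := by omega
  rw [h2]
  have h3 : (k + u) * m + k = k * k + lam := by
    have h4 : (k + u) * m = k * k - u * u := by
      rw [hm, Nat.mul_self_sub_mul_self_eq]
      congr 1
      omega
    have h5 : u * u ≤ k * k := Nat.mul_self_le_mul_self hu
    have h6 : k = u * u + lam := by rw [hk]; ring
    omega
  omega

end Pool.Agent.H183.NI
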