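import Pool.Agent.H183.NI.Stm
import Pool.Agent.H183.SQ.QFIN

set_option autoImplicit false

namespace Pool.Agent.H183.NI

open Finset Filter Topology Pool.Agent.H183.MU Pool.Agent.H183.MU.ALM Pool.Agent.H183.SQ.QFIN

namespace QFINN

/-- the primes of `RR s L` greater than `C` -/
def RC (C s L : ℕ) : Set ℕ := {w : ℕ | w ∈ RR s L ∧ C < w}

theorem div_RC {C s L : ℕ}
    (h : ¬ Summable (fun n : ℕ => (RR s L).indicator (fun n : ℕ => (1 : ℝ) / n) n)) :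
    ¬ Summable (fun n : ℕ => (RC C s L).indicator (fun n : ℕ => (1 : ℝ) / n) n) := by
  intro hs
  apply h
  refine (summable_congr_cofinite ?_).1 hs
  rw [Nat.cofinite_eq_atTop]
  filter_upwards [eventually_gt_atTop C] with n hn
  by_cases hm : n ∈ RR s L
  · rw [Set.indicator_of_mem hm, Set.indicator_of_mem (show n ∈ RC C s L from ⟨hm, hn⟩)]
  · rw [Set.indicator_of_notMem hm, Set.indicator_of_notMem (fun h' : n ∈ RC C s L => hm h'.1)]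

/-- a prime divisor greater than `C` of the order of a group with a small commutator subgroup divides
the order of the abelianization -/
theorem dvd_ab {G : Type} [Group G] [Fintype G] {C w : ℕ} (hw : w.Prime) (hC : C < w)
    (h : Nat.card (commutator G) ≤ C) (hd : w ∣ Nat.card G) : w ∣ Nat.card (Abelianization G) := by
  have h1 : Nat.card G = Nat.card (G ⧸ commutator G) * Nat.card (commutator G) :=
    Subgroup.card_eq_card_quotient_mul_card_subgroup _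
  rw [h1] at hd
  rcases hw.dvd_mul.1 hd with h2 | h2
  · exact h2
  · exfalso
    have h3 : 0 < Nat.card (commutator G) := Nat.card_pos
    have h4 := Nat.le_of_dvd h3 h2
    omega

end QFINN

open QFINN in
theorem one_lamN (C : ℕ) (hK : S_KEYQN) (hcfl : S_CFL) (hcomm : S_COMM) (hpar : S_PARG)
    (hD : Pool.Agent.H183.SQ.S_DENS2) (hdir : S_DIR) (hcls : S_CLS)
    (hroot : Pool.Agent.H183.SQ.S_ROOTQ) (hs : Pool.Agent.H183.SQ.S_SMU) (lam : ℕ) (hlam : 1 ≤ lam)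
    (ε : ℝ) (hε : 0 < ε) : ∃ X₀ : ℕ, ∀ X : ℕ, X₀ ≤ X →
    (({u : ℕ | 1 ≤ u ∧ u ≤ X ∧ HasNQ C u lam}.ncard : ℕ) : ℝ) ≤ ε * X := by
  set L := 4 * lam - 1 with hL
  have hRp : ∀ w ∈ RC C 2 L, w.Prime := fun w hw => hw.1.1
  have hR2 : ∀ w ∈ RC C 2 L, w ≠ 2 := fun w hw => ne_two (by norm_num) hw.1.2.1
  have hdiv := div_RC (C := C) (hdir 2 L (by norm_num) (odd_L hlam))
  obtain ⟨δ, hδ0, hδ1, X₀, hX₀⟩ := hs (ε / 4) (by positivity)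
  have hr : ∀ w ∈ RC C 2 L, ∃ x : ZMod w, x ^ 2 + x + lam = 0 := fun w hw =>
    hroot lam w hlam hw.1.1 (by have := hw.1.2.1; norm_num at this; exact this) hw.1.2.2
  obtain ⟨X₁, hX₁⟩ := hD (RC C 2 L) hRp hdiv
    (fun w a b => (a * b) ^ 2 + a * b + lam = 0 ∧ b ^ ((w - 1) / 2) = -1) (by
      intro w hw
      obtain ⟨x₁, hx₁⟩ := hr w hw
      obtain ⟨B, hB0, hBc, hB⟩ := hcls w hw.1.1 (hR2 w hw) x₁
      refine ⟨B, hB0, hBc, fun b hb => ?_⟩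
      obtain ⟨a, ha, hb'⟩ := hB b hb
      exact ⟨a, by rw [ha, hx₁], hb'⟩) δ hδ0 hδ1 (ε / 4) (by positivity)
  obtain ⟨X₂, hX₂⟩ := hD (RC C 2 L) hRp hdiv
    (fun w a b => (a * b) ^ 2 + lam = a * b ∧ b ^ ((w - 1) / 2) = -1) (by
      intro w hw
      obtain ⟨x₁, hx₁⟩ := hr w hw
      obtain ⟨B, hB0, hBc, hB⟩ := hcls w hw.1.1 (hR2 w hw) (-x₁)
      refine ⟨B, hB0, hBc, fun b hb => ?_⟩
      obtain ⟨a, ha, hb'⟩ := hB b hb
      exact ⟨a, by rw [ha]; linear_combination hx₁, hb'⟩) δ hδ0 hδ1 (ε / 4) (by positivity)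
  have hlim : Tendsto (fun X : ℕ => (X : ℝ) ^ (δ / 2)) atTop atTop :=
    (tendsto_rpow_atTop (half_pos hδ0)).comp tendsto_natCast_atTop_atTop
  obtain ⟨X₃, hX₃⟩ := eventually_atTop.1 (hlim.eventually_ge_atTop ((max lam C : ℕ) : ℝ))
  obtain ⟨X₄, hX₄⟩ := hcfl lam hlam (δ / 2) (ε / 4) (half_pos hδ0) (by positivity)
  refine ⟨max X₀ (max X₁ (max X₂ (max X₃ X₄))), fun X hX => ?_⟩
  simp only [max_le_iff] at hX
  obtain ⟨c0, c1, c2, c3, c4⟩ := hX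
  have hb₀ := hX₀ X c0
  have hb₁ := hX₁ X c1
  have hb₂ := hX₂ X c2
  have hb₃ := hX₃ X c3
  have hb₄ := hX₄ X c4
  have hXX : (X : ℝ) ^ (δ / 2) * (X : ℝ) ^ (δ / 2) = (X : ℝ) ^ δ := by
    have h2 := Real.rpow_mul (Nat.cast_nonneg X) (δ / 2) 2
    rw [show δ / 2 * 2 = δ by ring] at h2
    rw [h2]
    norm_num
    ring
  obtain ⟨ν, hν⟩ : ∃ ν : ℕ, ν = max C ⌊(X : ℝ) ^ (δ / 2)⌋₊ := ⟨_, rfl⟩
  have hlamX : (lam : ℝ) ≤ (X : ℝ) ^ (δ / 2) := by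
    refine le_trans ?_ hb₃
    exact_mod_cast le_max_left lam C
  have hCX : (C : ℝ) ≤ (X : ℝ) ^ (δ / 2) := by
    refine le_trans ?_ hb₃
    exact_mod_cast le_max_right lam C
  have hlam1 : (1 : ℝ) ≤ lam := by exact_mod_cast hlam
  have hX0 : (0 : ℝ) ≤ (X : ℝ) ^ (δ / 2) := by positivity
  have hν1 : 1 ≤ ν := by
    rw [hν]
    refine le_trans ?_ (le_max_right _ _)
    rw [Nat.one_le_floor_iff]
    linarith
  have hνX : (ν : ℝ) ≤ (X : ℝ) ^ (δ / 2) := by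
    rw [hν, Nat.cast_max]
    exact max_le hCX (Nat.floor_le hX0)
  have hlν : ((lam * ν : ℕ) : ℝ) ≤ (X : ℝ) ^ δ := by
    rw [← hXX]
    push_cast
    exact mul_le_mul hlamX hνX (Nat.cast_nonneg _) hX0
  set E₁ : Set (ℕ × ℕ) := {x : ℕ × ℕ | 1 ≤ x.1 ∧ x.2.Prime ∧ (X : ℝ) ^ δ < x.2 ∧ x.1 * x.2 ≤ X ∧
    ∀ w ∈ RC C 2 L, ¬ (((x.1 : ZMod w) * (x.2 : ZMod w)) ^ 2 + (x.1 : ZMod w) * (x.2 : ZMod w) +
      (lam : ZMod w) = 0 ∧ (x.2 : ZMod w) ^ ((w - 1) / 2) = -1)} with hE₁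
  set E₂ : Set (ℕ × ℕ) := {x : ℕ × ℕ | 1 ≤ x.1 ∧ x.2.Prime ∧ (X : ℝ) ^ δ < x.2 ∧ x.1 * x.2 ≤ X ∧
    ∀ w ∈ RC C 2 L, ¬ (((x.1 : ZMod w) * (x.2 : ZMod w)) ^ 2 + (lam : ZMod w) =
      (x.1 : ZMod w) * (x.2 : ZMod w) ∧ (x.2 : ZMod w) ^ ((w - 1) / 2) = -1)} with hE₂
  set E₀ : Set ℕ := {u : ℕ | 1 ≤ u ∧ u ≤ X ∧
    ∀ p : ℕ, p.Prime → p ∣ u → (p : ℝ) ≤ (X : ℝ) ^ δ} with hE₀
  set E₃ : Set ℕ := {u : ℕ | 1 ≤ u ∧ u ≤ X ∧ ∃ v : ℕ,
    lam * v = (u ^ 2 + lam + u) * (u ^ 2 + lam - u) ∧ (X : ℝ) ^ (δ / 2) < cf v} with hE₃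
  have hf₀ : E₀.Finite := (Set.finite_Iic X).subset fun u hu => hu.2.1
  have hf₃ : E₃.Finite := (Set.finite_Iic X).subset fun u hu => hu.2.1
  have hf₁ : E₁.Finite := (Pool.Agent.H183.SQ.QFIN.fin_pairs2 X (fun _ => True)).subset
    fun x hx => ⟨hx.1, hx.2.1, trivial, hx.2.2.2.1⟩
  have hf₂ : E₂.Finite := (Pool.Agent.H183.SQ.QFIN.fin_pairs2 X (fun _ => True)).subset
    fun x hx => ⟨hx.1, hx.2.1, trivial, hx.2.2.2.1⟩
  have hsub : {u : ℕ | 1 ≤ u ∧ u ≤ X ∧ HasNQ C u lam} ⊆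
      (E₀ ∪ E₃) ∪ (fun x : ℕ × ℕ => x.1 * x.2) '' (E₁ ∪ E₂) := by
    rintro u ⟨hu1, huX, hDS⟩
    by_cases hu0 : u ∈ E₀
    · exact Or.inl (Or.inl hu0)
    by_cases hu3 : u ∈ E₃
    · exact Or.inl (Or.inr hu3)
    right
    have hbig : ∃ p : ℕ, p.Prime ∧ p ∣ u ∧ (X : ℝ) ^ δ < p := by
      by_contra hno
      push Not at hno
      exact hu0 ⟨hu1, huX, hno⟩
    obtain ⟨p, hp, ⟨t, ht⟩, hpb⟩ := hbig
    have hut : u = t * p := by rw [ht, mul_comm]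
    have ht1 : 1 ≤ t := by
      rcases Nat.eq_zero_or_pos t with h | h
      · rw [h, zero_mul] at hut
        omega
      · exact h
    have hlp : lam * ν < p := by
      have : ((lam * ν : ℕ) : ℝ) < p := lt_of_le_of_lt hlν hpb
      exact_mod_cast this
    refine ⟨(t, p), ?_, hut.symm⟩
    by_contra hcon
    rw [Set.mem_union, not_or] at hcon
    obtain ⟨hc₁, hc₂⟩ := hcon
    have hc₁' : ∃ w ∈ RC C 2 L, ((t : ZMod w) * (p : ZMod w)) ^ 2 + (t : ZMod w) * (p : ZMod w) +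
        (lam : ZMod w) = 0 ∧ (p : ZMod w) ^ ((w - 1) / 2) = -1 := by
      by_contra hno
      push Not at hno
      exact hc₁ ⟨ht1, hp, hpb, by simp only; rw [← hut]; exact huX,
        fun w hw hP => hno w hw hP.1 hP.2⟩
    have hc₂' : ∃ w ∈ RC C 2 L, ((t : ZMod w) * (p : ZMod w)) ^ 2 + (lam : ZMod w) =
        (t : ZMod w) * (p : ZMod w) ∧ (p : ZMod w) ^ ((w - 1) / 2) = -1 := by
      by_contra hno
      push Not at hno
      exact hc₂ ⟨ht1, hp, hpb, by simp only; rw [← hut]; exact huX,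
        fun w hw hP => hno w hw hP.1 hP.2⟩
    obtain ⟨w₁, hw₁, ha₁, hb₁'⟩ := hc₁'
    obtain ⟨w₂, hw₂, ha₂, hb₂'⟩ := hc₂'
    obtain ⟨o₁, ho₁, he₁, -⟩ := half_eq (by norm_num) hw₁.1.2.1
    obtain ⟨o₂, ho₂, he₂, -⟩ := half_eq (by norm_num) hw₂.1.2.1
    have hn₁ : (u : ZMod w₁) = (t : ZMod w₁) * (p : ZMod w₁) := by rw [hut]; push_cast; ring
    have hn₂ : (u : ZMod w₂) = (t : ZMod w₂) * (p : ZMod w₂) := by rw [hut]; push_cast; ring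
    rw [← hn₁] at ha₁
    rw [← hn₂] at ha₂
    have hl₁ := not_dvd_lam hlam hw₁.1.1 hw₁.1.2.2
    have hl₂ := not_dvd_lam hlam hw₂.1.1 hw₂.1.2.2
    have hu₁ : ¬ w₁ ∣ u := by
      intro h
      rw [← ZMod.natCast_eq_zero_iff] at h
      rw [h] at ha₁
      apply hl₁
      rw [← ZMod.natCast_eq_zero_iff]
      linear_combination ha₁
    have hu₂ : ¬ w₂ ∣ u := by
      intro h
      rw [← ZMod.natCast_eq_zero_iff] at h
      rw [h] at ha₂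
      apply hl₂
      rw [← ZMod.natCast_eq_zero_iff]
      linear_combination ha₂
    have hne : w₁ ≠ w₂ := by
      rintro rfl
      have : Fact w₁.Prime := ⟨hw₁.1.1⟩
      have h2 : (2 : ZMod w₁) * (u : ZMod w₁) = 0 := by linear_combination ha₁ - ha₂
      rcases mul_eq_zero.1 h2 with h | h
      · have h3 : ((2 : ℕ) : ZMod w₁) = 0 := by push_cast; exact h
        rw [ZMod.natCast_eq_zero_iff] at h3
        exact hR2 _ hw₁ ((Nat.prime_dvd_prime_iff_eq hw₁.1.1 Nat.prime_two).1 h3)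
      · exact hu₁ ((ZMod.natCast_eq_zero_iff _ _).1 h)
    obtain ⟨G, i1, i2, i3, D, hG, hDG⟩ := hDS
    have hcard := hpar G D (u ^ 2 + lam) lam u hDG rfl
    have hcardN : lam * Nat.card G = (u ^ 2 + lam + u) * (u ^ 2 + lam - u) := by
      rw [Nat.card_eq_fintype_card]
      exact hcard
    have hule : u ≤ u ^ 2 + lam := by nlinarith
    have hd₁ : w₁ ∣ Nat.card G := by
      have h1 : w₁ ∣ u ^ 2 + lam + u := by
        rw [← ZMod.natCast_eq_zero_iff]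
        push_cast
        linear_combination ha₁
      have h2 : w₁ ∣ lam * Nat.card G := hcardN ▸ h1.mul_right _
      exact (hw₁.1.1.dvd_mul.1 h2).resolve_left hl₁
    have hd₂ : w₂ ∣ Nat.card G := by
      have h1 : w₂ ∣ u ^ 2 + lam - u := by
        rw [← ZMod.natCast_eq_zero_iff, Nat.cast_sub hule]
        push_cast
        linear_combination ha₂
      have h2 : w₂ ∣ lam * Nat.card G := hcardN ▸ h1.mul_left _
      exact (hw₂.1.1.dvd_mul.1 h2).resolve_left hl₂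
    have hfin : Nat.card (commutator G) ≤ ν ∧ w₁ ∣ Nat.card (Abelianization G) ∧
        w₂ ∣ Nat.card (Abelianization G) := by
      rcases hG with hnil | hsm
      · obtain ⟨g1, g2⟩ := hcomm G hnil
        refine ⟨?_, g2 w₁ hw₁.1.1 hd₁, g2 w₂ hw₂.1.1 hd₂⟩
        have h3 : (cf (Nat.card G) : ℝ) ≤ (X : ℝ) ^ (δ / 2) := by
          by_contra hno
          push Not at hno
          exact hu3 ⟨hu1, huX, Nat.card G, hcardN, hno⟩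
        have h4 : cf (Nat.card G) ≤ ⌊(X : ℝ) ^ (δ / 2)⌋₊ := Nat.le_floor h3
        rw [hν]
        exact (g1.trans h4).trans (le_max_right _ _)
      · refine ⟨?_, dvd_ab hw₁.1.1 hw₁.2 hsm hd₁, dvd_ab hw₂.1.1 hw₂.2 hsm hd₂⟩
        rw [hν]
        exact hsm.trans (le_max_left _ _)
    refine hK u lam p (2 ^ (2 - 1) * o₁ * o₂) w₁ w₂ ν hu1 hlam hν1 hp ⟨t, ht⟩ hlp hw₁.1.1 hw₂.1.1
      (hR2 _ hw₁) (hR2 _ hw₂) hu₁ hu₂ hl₁ hl₂ ha₁ ha₂ ?_ G D hDG hfin.1 hfin.2.1 hfin.2.2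
    refine Nat.Coprime.mul_dvd_of_dvd_of_dvd ((Nat.coprime_primes hw₁.1.1 hw₂.1.1).2 hne) ?_ ?_
    · apply dvd_of_neg_one
      rw [he₁] at hb₁'
      rw [pow_mul, hb₁', ho₂.neg_one_pow]
    · apply dvd_of_neg_one
      rw [he₂] at hb₂'
      rw [mul_right_comm, pow_mul, hb₂', ho₁.neg_one_pow]
  have hc1 : ({u : ℕ | 1 ≤ u ∧ u ≤ X ∧ HasNQ C u lam}).ncard ≤
      (E₀.ncard + E₃.ncard) + (E₁.ncard + E₂.ncard) := by
    refine (Set.ncard_le_ncard hsub ((hf₀.union hf₃).union ((hf₁.union hf₂).image _))).trans ?_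
    refine (Set.ncard_union_le _ _).trans (Nat.add_le_add (Set.ncard_union_le _ _) ?_)
    exact (Set.ncard_image_le (hf₁.union hf₂)).trans (Set.ncard_union_le _ _)
  have hc2 : (({u : ℕ | 1 ≤ u ∧ u ≤ X ∧ HasNQ C u lam}.ncard : ℕ) : ℝ) ≤
      ((E₀.ncard : ℝ) + (E₃.ncard : ℝ)) + ((E₁.ncard : ℝ) + (E₂.ncard : ℝ)) := by
    exact_mod_cast hc1
  linarith

theorem t_QFINN (h1 : S_KEYQN) (h2 : S_CFL) (h3 : S_COMM) (h4 : S_PARG)
    (hD : Pool.Agent.H183.SQ.S_DENS2) (hdir : S_DIR) (hcls : S_CLS)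
    (hroot : Pool.Agent.H183.SQ.S_ROOTQ) (hs : Pool.Agent.H183.SQ.S_SMU) : S_QFINN := by
  intro Λ C ε hε
  have h1 : ∀ lam : ℕ, ∃ X₀ : ℕ, ∀ X : ℕ, X₀ ≤ X → 1 ≤ lam →
      (({u : ℕ | 1 ≤ u ∧ u ≤ X ∧ HasNQ C u lam}.ncard : ℕ) : ℝ) ≤ ε / (Λ + 1) * X := by
    intro lam
    by_cases hl : 1 ≤ lam
    · obtain ⟨X₀, hX₀⟩ := one_lamN C h1 h2 h3 h4 hD hdir hcls hroot hs lam hl (ε / (Λ + 1))
        (by positivity)
      exact ⟨X₀, fun X hX _ => hX₀ X hX⟩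
    · exact ⟨0, fun X _ h => absurd h hl⟩
  choose Y hY using h1
  refine ⟨∑ lam ∈ range (Λ + 1), Y lam, fun X hX => ?_⟩
  have hf : ∀ lam : ℕ, ({u : ℕ | 1 ≤ u ∧ u ≤ X ∧ HasNQ C u lam}).Finite := fun lam =>
    (Set.finite_Iic X).subset fun u hu => hu.2.1
  have hsub : {u : ℕ | 1 ≤ u ∧ u ≤ X ∧ ∃ lam : ℕ, 1 ≤ lam ∧ lam ≤ Λ ∧ HasNQ C u lam} ⊆
      ⋃ lam ∈ Icc 1 Λ, {u : ℕ | 1 ≤ u ∧ u ≤ X ∧ HasNQ C u lam} := by
    rintro u ⟨hu1, huX, lam, hl1, hl2, hD⟩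
    simp only [Set.mem_iUnion]
    exact ⟨lam, mem_Icc.2 ⟨hl1, hl2⟩, hu1, huX, hD⟩
  have hfin : (⋃ lam ∈ Icc 1 Λ, {u : ℕ | 1 ≤ u ∧ u ≤ X ∧ HasNQ C u lam}).Finite :=
    (Icc 1 Λ).finite_toSet.biUnion fun lam _ => hf lam
  have h2 : ({u : ℕ | 1 ≤ u ∧ u ≤ X ∧ ∃ lam : ℕ, 1 ≤ lam ∧ lam ≤ Λ ∧ HasNQ C u lam}).ncard ≤
      ∑ lam ∈ Icc 1 Λ, ({u : ℕ | 1 ≤ u ∧ u ≤ X ∧ HasNQ C u lam}).ncard :=
    (Set.ncard_le_ncard hsub hfin).trans (Finset.set_ncard_biUnion_le _ _)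
  have h3 : (({u : ℕ | 1 ≤ u ∧ u ≤ X ∧ ∃ lam : ℕ, 1 ≤ lam ∧ lam ≤ Λ ∧
      HasNQ C u lam}.ncard : ℕ) : ℝ) ≤
      ∑ lam ∈ Icc 1 Λ, (({u : ℕ | 1 ≤ u ∧ u ≤ X ∧ HasNQ C u lam}.ncard : ℕ) : ℝ) := by
    exact_mod_cast h2
  refine h3.trans ?_
  have h4 : ∀ lam ∈ Icc 1 Λ, (({u : ℕ | 1 ≤ u ∧ u ≤ X ∧ HasNQ C u lam}.ncard : ℕ) : ℝ) ≤
      ε / (Λ + 1) * X := by
    intro lam hlam
    rw [mem_Icc] at hlam
    have h5 : Y lam ≤ ∑ lam ∈ range (Λ + 1), Y lam :=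
      single_le_sum (f := Y) (fun _ _ => Nat.zero_le _) (mem_range.2 (by omega))
    exact hY lam X (by omega) hlam.1
  refine (sum_le_sum h4).trans ?_
  rw [sum_const, nsmul_eq_mul, Nat.card_Icc, Nat.add_sub_cancel]
  have h6 : (Λ : ℝ) * (ε / (Λ + 1) * X) = ε * X * (Λ / (Λ + 1)) := by ring
  rw [h6]
  have h7 : (Λ : ℝ) / (Λ + 1) ≤ 1 := by
    rw [div_le_one (by positivity)]
    linarith
  have h8 : 0 ≤ ε * (X : ℝ) := by positivity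
  nlinarith

end Pool.Agent.H183.NI
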