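import Pool.Agent.H183.NI.Stm
import Pool.Agent.H183.SQ.REG

/-!
# From regular designs to difference sets
-/

set_option autoImplicit false

namespace Pool.Agent.H183.NI

open Finset Pool.Agent.H951R4.OD

theorem hasNQ_of_reg {C v u lam : ℕ} {B : Fin v → Finset (Fin v)}
    {H : Subgroup (Equiv.Perm (Fin v))} (h : RegDesign v (u ^ 2 + lam) lam B H) (hlam : 1 ≤ lam)
    (hv : 2 ≤ v) (hH : Group.IsNilpotent H ∨ Nat.card (commutator H) ≤ C) : HasNQ C u lam := by
  obtain ⟨-, i1, i2, D, h1, h2⟩ := Pool.Agent.H183.SQ.REG.regdesign_H h hlam hv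
  exact ⟨H, inferInstance, i1, i2, D, hH, h1, h2⟩

end Pool.Agent.H183.NI
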