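import Pool.Agent.H183.NI.Stm
import Pool.Agent.H183.GL.SIZE

/-! S_SIZEF (helper642, for helper183) -/

set_option autoImplicit false

namespace Pool.Agent.H183.NI

open Finset Pool.Agent.H183.MU Pool.Agent.H183.GL

namespace SIZEF

variable {A : Type} [CommGroup A] [Fintype A] [DecidableEq A]

lemma total {f : A → ℕ} {k N mu : ℕ} (h : IsDF f k N mu) :
    k * k = Fintype.card A * mu + N := by
  have h1 : ∑ g : A, ∑ a, f (g * a) * f a = Fintype.card A * mu + N := by
    rw [sum_congr rfl fun g _ => h.2 g, sum_add_distrib, sum_const, card_univ, smul_eq_mul,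
      sum_ite_eq' univ (1 : A) (fun _ => N), if_pos (mem_univ _)]
  rw [← h1, sum_comm]
  have h2 : ∀ a : A, ∑ g, f (g * a) * f a = k * f a := by
    intro a
    rw [← sum_mul, ← h.1]
    congr 1
    exact (Fintype.sum_equiv (Equiv.mulRight a) (fun g => f (g * a)) f (fun g => rfl))
  rw [sum_congr rfl fun a _ => h2 a, ← mul_sum, h.1]

end SIZEF

theorem t_SIZEF : S_SIZEF := by
  intro G _ _ _ f k mu w v' t u hD hG hw hwv ht hvt hwt hinv
  have hw0 : 0 < w := hw.pos
  have hcop : Nat.Coprime w v' := (Nat.Prime.coprime_iff_not_dvd hw).2 hwv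
  have hGpos : 0 < Fintype.card G := Fintype.card_pos
  have hv0 : 0 < v' := by
    rcases Nat.eq_zero_or_pos v' with h | h
    · rw [h, mul_zero] at hG; omega
    · exact h
  set A : Finset G := univ.filter (fun g : G => g ^ w = 1) with hA
  set K : Finset G := univ.filter (fun g : G => g ^ v' = 1) with hK
  have hAc : A.card ≤ w := SIZE.card_tors w v' hw0 hG hcop
  have hKc : K.card ≤ v' := SIZE.card_tors v' w hv0 (by rw [hG, mul_comm]) hcop.symm
  have hA1 : (1 : G) ∈ A := by rw [hA, mem_filter]; exact ⟨mem_univ _, one_pow _⟩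
  have hK1 : (1 : G) ∈ K := by rw [hK, mem_filter]; exact ⟨mem_univ _, one_pow _⟩
  have hpow : ∀ g : G, g ^ (w * v') = 1 := by
    intro g
    rw [← hG]; exact pow_card_eq_one
  -- total count
  have htot : k * k = w * v' * mu + u ^ 2 := by
    have h1 := SIZEF.total hD
    rwa [hG] at h1
  -- the cosets of K
  set F : G → ℕ := fun h => ∑ a ∈ univ.filter (fun a : G => a ^ v' = h), f a with hF
  have hout : k ≤ F 1 + (w - 1) * mu := by
    have h1 : ∑ a ∈ univ.filter (fun a : G => ¬ a ^ v' = 1), f a ≤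
        ∑ x ∈ A.erase 1, ∑ a, f (x * a) * f a := by
      rw [sum_comm]
      refine (sum_le_sum (f := f) (g := fun a => ∑ x ∈ A.erase 1, f (x * a) * f a) ?_).trans ?_
      · intro a ha
        have ha' : ¬ a ^ v' = 1 := (mem_filter.1 ha).2
        have e1 : a ^ (t - 1) * a = a ^ t := by
          rw [← pow_succ]; congr 1; omega
        have hmem : a ^ (t - 1) ∈ A.erase 1 := by
          rw [mem_erase]
          refine ⟨?_, ?_⟩
          · intro h2
            apply ha'
            have o1 : orderOf a ∣ t - 1 := orderOf_dvd_of_pow_eq_one h2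
            have o2 : orderOf a ∣ w * v' := orderOf_dvd_of_pow_eq_one (hpow a)
            have o3 : Nat.Coprime (orderOf a) w := by
              have : Nat.Coprime w (t - 1) := (Nat.Prime.coprime_iff_not_dvd hw).2 hwt
              exact (Nat.Coprime.coprime_dvd_right o1 this).symm
            exact orderOf_dvd_iff_pow_eq_one.1 (o3.dvd_of_dvd_mul_left o2)
          · rw [hA, mem_filter]
            refine ⟨mem_univ _, ?_⟩
            obtain ⟨c, hc⟩ := hvt
            have e2 : (t - 1) * w = (w * v') * c := by rw [hc]; ring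
            rw [← pow_mul, e2, pow_mul, hpow, one_pow]
        have h2 : f (a ^ (t - 1) * a) * f a ≤ ∑ x ∈ A.erase 1, f (x * a) * f a :=
          single_le_sum (f := fun x => f (x * a) * f a) (fun _ _ => Nat.zero_le _) hmem
        rw [e1, hinv] at h2
        exact (Nat.le_mul_self _).trans h2
      · exact sum_le_sum_of_subset (filter_subset _ _)
    have h2 : ∑ x ∈ A.erase 1, ∑ a, f (x * a) * f a = (A.card - 1) * mu := by
      have h3 : ∀ x ∈ A.erase 1, ∑ a, f (x * a) * f a = mu := by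
        intro x hx
        rw [hD.2 x, if_neg (ne_of_mem_erase hx), add_zero]
      rw [sum_congr rfl h3, sum_const, smul_eq_mul, card_erase_of_mem hA1]
    rw [h2] at h1
    have h3 : (∑ a ∈ univ.filter (fun a : G => a ^ v' = 1), f a) +
        ∑ a ∈ univ.filter (fun a : G => ¬ a ^ v' = 1), f a = ∑ a, f a :=
      sum_filter_add_sum_filter_not _ _ _
    rw [hD.1] at h3
    have h4 : (A.card - 1) * mu ≤ (w - 1) * mu := Nat.mul_le_mul_right _ (by omega)
    have h5 : F 1 = ∑ a ∈ univ.filter (fun a : G => a ^ v' = 1), f a := rfl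
    omega
  -- sums of F
  have hmaps : ∀ d : G, d ^ v' ∈ A := by
    intro d
    rw [hA, mem_filter]
    refine ⟨mem_univ _, ?_⟩
    rw [← pow_mul, mul_comm, hpow]
  have hsum : ∑ h ∈ A, F h = k := by
    rw [← hD.1]
    exact sum_fiberwise_of_maps_to (fun d _ => hmaps d) f
  have hsq : ∑ h ∈ A, (F h) ^ 2 = u ^ 2 + K.card * mu := by
    have h1 : ∑ x ∈ K, ∑ a, f (x * a) * f a = u ^ 2 + K.card * mu := by
      rw [sum_congr rfl fun x _ => hD.2 x, sum_add_distrib, sum_const, smul_eq_mul,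
        sum_ite_eq' K (1 : G) (fun _ => u ^ 2), if_pos hK1, add_comm]
    rw [← h1, sum_comm]
    have h2 : ∀ a : G, ∑ x ∈ K, f (x * a) * f a = F (a ^ v') * f a := by
      intro a
      rw [← sum_mul]
      congr 1
      refine sum_bij (fun x _ => x * a) ?_ ?_ ?_ ?_
      · intro x hx
        rw [mem_filter]
        refine ⟨mem_univ _, ?_⟩
        rw [hK, mem_filter] at hx
        rw [mul_pow, hx.2, one_mul]
      · intro x _ y _ hxy
        exact mul_right_cancel hxy
      · intro b hb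
        rw [mem_filter] at hb
        refine ⟨b * a⁻¹, ?_, ?_⟩
        · rw [hK, mem_filter]
          refine ⟨mem_univ _, ?_⟩
          rw [mul_pow, inv_pow, hb.2, mul_inv_cancel]
        · show b * a⁻¹ * a = b
          rw [inv_mul_cancel_right]
      · intro x _
        rfl
    rw [sum_congr rfl fun a _ => h2 a]
    rw [← sum_fiberwise_of_maps_to (fun d _ => hmaps d) (fun a => F (a ^ v') * f a)]
    refine sum_congr rfl fun h _ => ?_
    have h3 : ∀ a ∈ univ.filter (fun a : G => a ^ v' = h), F (a ^ v') * f a = F h * f a := by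
      intro a ha
      rw [(mem_filter.1 ha).2]
    rw [sum_congr rfl h3, ← mul_sum, sq]
  -- Cauchy-Schwarz
  have hCS : ((k : ℤ) - F 1) ^ 2 ≤ ((w : ℤ) - 1) * ((u : ℤ) ^ 2 + v' * mu - (F 1) ^ 2) := by
    have h1 := sq_sum_le_card_mul_sum_sq (s := A.erase 1) (f := fun h => (F h : ℤ))
    have h2 : ∑ h ∈ A.erase 1, (F h : ℤ) = (k : ℤ) - F 1 := by
      have := sum_erase_add A (fun h => (F h : ℤ)) hA1
      have h3 : ∑ h ∈ A, (F h : ℤ) = k := by exact_mod_cast hsum
      linarith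
    have h3 : ∑ h ∈ A.erase 1, (F h : ℤ) ^ 2 = ((u : ℤ) ^ 2 + K.card * mu) - (F 1) ^ 2 := by
      have := sum_erase_add A (fun h => (F h : ℤ) ^ 2) hA1
      have h4 : ∑ h ∈ A, (F h : ℤ) ^ 2 = (u : ℤ) ^ 2 + K.card * mu := by exact_mod_cast hsq
      linarith
    have hnn : (0 : ℤ) ≤ ((u : ℤ) ^ 2 + K.card * mu) - (F 1) ^ 2 := by
      rw [← h3]; exact sum_nonneg fun _ _ => sq_nonneg _
    rw [h2, h3] at h1
    have hApos : 1 ≤ A.card := card_pos.2 ⟨1, hA1⟩
    have h6 : ((A.erase 1).card : ℤ) = (A.card : ℤ) - 1 := by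
      rw [card_erase_of_mem hA1]; push_cast [Nat.cast_sub hApos]; ring
    rw [h6] at h1
    have h7 : (A.card : ℤ) - 1 ≤ (w : ℤ) - 1 := by
      have : (A.card : ℤ) ≤ w := by exact_mod_cast hAc
      linarith
    have h8 : (0 : ℤ) ≤ (w : ℤ) - 1 := by
      have : (1 : ℤ) ≤ w := by exact_mod_cast hw0
      linarith
    have h9 : ((u : ℤ) ^ 2 + K.card * mu) - (F 1) ^ 2 ≤ (u : ℤ) ^ 2 + v' * mu - (F 1) ^ 2 := by
      have h10 : (K.card : ℤ) ≤ v' := by exact_mod_cast hKc
      have h11 : (K.card : ℤ) * mu ≤ (v' : ℤ) * mu :=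
        mul_le_mul_of_nonneg_right h10 (by positivity)
      linarith
    calc ((k : ℤ) - F 1) ^ 2 ≤ ((A.card : ℤ) - 1) * (((u : ℤ) ^ 2 + K.card * mu) - (F 1) ^ 2) := h1
      _ ≤ ((w : ℤ) - 1) * (((u : ℤ) ^ 2 + K.card * mu) - (F 1) ^ 2) :=
        mul_le_mul_of_nonneg_right h7 hnn
      _ ≤ _ := mul_le_mul_of_nonneg_left h9 h8
  -- conclusion
  have hw1 : (1 : ℤ) < w := by exact_mod_cast hw.one_lt
  have htot' : (k : ℤ) * k = (w : ℤ) * v' * mu + (u : ℤ) ^ 2 := by exact_mod_cast htot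
  have hkey : ((w : ℤ) * F 1 - k) ^ 2 ≤ (((w : ℤ) - 1) * u) ^ 2 := by
    have h1 : (w : ℤ) * ((k : ℤ) - F 1) ^ 2 ≤
        (w : ℤ) * (((w : ℤ) - 1) * ((u : ℤ) ^ 2 + v' * mu - (F 1) ^ 2)) :=
      mul_le_mul_of_nonneg_left hCS (by linarith)
    have h2 : (w : ℤ) * ((u : ℤ) ^ 2 + v' * mu) = (k : ℤ) ^ 2 + ((w : ℤ) - 1) * (u : ℤ) ^ 2 := by
      linear_combination - htot'
    have h3 : (w : ℤ) * (((w : ℤ) - 1) * ((u : ℤ) ^ 2 + v' * mu - (F 1) ^ 2))
        = ((w : ℤ) - 1) * ((k : ℤ) ^ 2 + ((w : ℤ) - 1) * (u : ℤ) ^ 2 - w * (F 1) ^ 2) := by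
      rw [← h2]; ring
    rw [h3] at h1
    linarith [h1]
  have hle : (w : ℤ) * F 1 - k ≤ ((w : ℤ) - 1) * u :=
    le_of_sq_le_sq hkey (by
      have : (0 : ℤ) ≤ u := by positivity
      exact mul_nonneg (by linarith) this)
  have hout' : (k : ℤ) ≤ F 1 + ((w : ℤ) - 1) * mu := by
    have : ((w - 1 : ℕ) : ℤ) = (w : ℤ) - 1 := by push_cast [Nat.cast_sub hw0]; ring
    rw [← this]
    exact_mod_cast hout
  have hfin : ((w : ℤ) - 1) * k ≤ ((w : ℤ) - 1) * (mu * w + u) := by
    have h1 : (w : ℤ) * k ≤ w * (F 1 + ((w : ℤ) - 1) * mu) :=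
      mul_le_mul_of_nonneg_left hout' (by linarith)
    linarith [h1, hle]
  have hfin2 : (k : ℤ) ≤ mu * w + u := le_of_mul_le_mul_left hfin (by linarith)
  have : (k : ℤ) ≤ mu * w + 2 * u := by
    have : (0 : ℤ) ≤ u := by positivity
    linarith
  exact_mod_cast this

end Pool.Agent.H183.NI
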