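import Pool.Agent.H183.NI.Stm
import Pool.Agent.H183.GL.SMO

/-!
# The smooth part of `n`, other constants (helper825 for helper183; adapted from `GL/SMO.lean`)
-/

set_option autoImplicit false

namespace Pool.Agent.H183.NI

open Finset

namespace SMO2

/-- a number with a small rough part has a large smooth part -/
lemma smooth_ge {X n : ℕ} {δ : ℝ} (hX : 1 ≤ X) (hn : X.sqrt < n)
    (h : (∏ p ∈ n.primeFactors.filter (fun p : ℕ => (X : ℝ) ^ δ < p), p ^ n.factorization p) ^ 8 <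
      n ^ 7) :
    Real.log X / 16 ≤ ∑ p ∈ n.primeFactors.filter (fun p : ℕ => ¬ (X : ℝ) ^ δ < p),
      (n.factorization p : ℝ) * Real.log p := by
  have hn0 : n ≠ 0 := by omega
  set P : ℕ := ∏ p ∈ n.primeFactors.filter (fun p : ℕ => (X : ℝ) ^ δ < p),
    p ^ n.factorization p with hP
  set s : ℕ := ∏ p ∈ n.primeFactors.filter (fun p : ℕ => ¬ (X : ℝ) ^ δ < p),
    p ^ n.factorization p with hs
  have hPs : P * s = n := by
    rw [hP, hs, Finset.prod_filter_mul_prod_filter_not]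
    exact Nat.prod_factorization_pow_eq_self hn0
  have hs0 : 0 < s := by
    rcases Nat.eq_zero_or_pos s with h0 | h0
    · rw [h0, mul_zero] at hPs; exact absurd hPs.symm hn0
    · exact h0
  have h1 : P < s ^ 7 := by
    have h2 : P ^ 7 * P < P ^ 7 * s ^ 7 := by
      calc P ^ 7 * P = P ^ 8 := by ring
        _ < n ^ 7 := h
        _ = P ^ 7 * s ^ 7 := by rw [← hPs]; ring
    exact Nat.lt_of_mul_lt_mul_left h2
  have h3 : n < s ^ 8 := by
    calc n = P * s := hPs.symm
      _ < s ^ 7 * s := Nat.mul_lt_mul_of_pos_right h1 hs0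
      _ = s ^ 8 := by ring
  have h4 : X < n * n := by
    calc X < (X.sqrt + 1) * (X.sqrt + 1) := Nat.lt_succ_sqrt X
      _ ≤ n * n := Nat.mul_le_mul hn hn
  have h5 : X < s ^ 16 := by
    calc X < n * n := h4
      _ ≤ s ^ 8 * s ^ 8 := Nat.mul_le_mul h3.le h3.le
      _ = s ^ 16 := by ring
  have hsR : (0 : ℝ) < s := by exact_mod_cast hs0
  have hXR : (1 : ℝ) ≤ X := by exact_mod_cast hX
  have h6 : Real.log X ≤ 16 * Real.log s := by
    have h7 : (X : ℝ) ≤ (s : ℝ) ^ 16 := by exact_mod_cast h5.le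
    calc Real.log X ≤ Real.log ((s : ℝ) ^ 16) := Real.log_le_log (by linarith) h7
      _ = 16 * Real.log s := by
          rw [Real.log_pow]
          norm_num
  have h9 : Real.log s = ∑ p ∈ n.primeFactors.filter (fun p : ℕ => ¬ (X : ℝ) ^ δ < p),
      (n.factorization p : ℝ) * Real.log p := by
    rw [hs]
    push_cast
    rw [Real.log_prod]
    · exact Finset.sum_congr rfl fun p _ => Real.log_pow _ _
    · intro p hp
      have hp0 : (p : ℝ) ≠ 0 := by
        exact_mod_cast (Nat.prime_of_mem_primeFactors (mem_filter.1 hp).1).ne_zero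
      exact pow_ne_zero _ hp0
  rw [← h9]
  linarith

end SMO2

open SMO2 in
theorem t_SMO2 : S_SMO2 := by
  intro ε hε
  set δ : ℝ := min (ε / 128) (1 / 4) with hδ
  have hδ0 : 0 < δ := lt_min (by positivity) (by norm_num)
  have hδ1 : δ ≤ 1 / 4 := min_le_right _ _
  have hδ2 : δ ≤ ε / 128 := min_le_left _ _
  refine ⟨δ, hδ0, by linarith, ?_⟩
  obtain ⟨X₁, hX₁⟩ := exists_nat_gt (Real.exp (768 / ε))
  obtain ⟨X₂, hX₂⟩ := exists_nat_gt ((4 / ε) ^ 2)
  refine ⟨max 1024 (max X₁ X₂), fun X hX => ?_⟩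
  have hX1024 : 1024 ≤ X := (le_max_left _ _).trans hX
  have hXX₁ : X₁ ≤ X := ((le_max_left _ _).trans (le_max_right _ _)).trans hX
  have hXX₂ : X₂ ≤ X := ((le_max_right _ _).trans (le_max_right _ _)).trans hX
  have hXR : (1024 : ℝ) ≤ X := by exact_mod_cast hX1024
  have hX0 : (0 : ℝ) < X := by linarith
  have hlog : 768 / ε < Real.log X := by
    rw [Real.lt_log_iff_exp_lt hX0]
    exact hX₁.trans_le (by exact_mod_cast hXX₁)
  have hlog0 : 0 < Real.log X := lt_trans (by positivity) hlog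
  have hsq : (4 / ε) ^ 2 < X := hX₂.trans_le (by exact_mod_cast hXX₂)
  have hXd : 1 ≤ (X : ℝ) ^ δ := Real.one_le_rpow (by linarith) hδ0.le
  set N : ℕ := ⌊(X : ℝ) ^ δ⌋₊ with hN
  have hN1 : 1 ≤ N := by
    rw [hN, Nat.one_le_floor_iff]
    exact hXd
  have hNle : (N : ℝ) ≤ (X : ℝ) ^ δ := Nat.floor_le (by linarith)
  have hlogN : Real.log N ≤ δ * Real.log X := by
    rw [← Real.log_rpow hX0]
    exact Real.log_le_log (by exact_mod_cast hN1) hNle
  -- the sets
  set B : Finset ℕ := (Icc 1 X).filter (fun n => X.sqrt < n ∧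
    (∏ p ∈ n.primeFactors.filter (fun p : ℕ => (X : ℝ) ^ δ < p), p ^ n.factorization p) ^ 8 <
      n ^ 7) with hB
  have hsub : {n : ℕ | 1 ≤ n ∧ n ≤ X ∧
      (∏ p ∈ n.primeFactors.filter (fun p : ℕ => (X : ℝ) ^ δ < p), p ^ n.factorization p) ^ 8 <
      n ^ 7} ⊆ ((Icc 1 X.sqrt ∪ B : Finset ℕ) : Set ℕ) := by
    rintro n ⟨h1, h2, h3⟩
    rw [Finset.mem_coe, Finset.mem_union]
    rcases le_or_gt n X.sqrt with h | h
    · left; exact Finset.mem_Icc.2 ⟨h1, h⟩
    · right; exact Finset.mem_filter.2 ⟨Finset.mem_Icc.2 ⟨h1, h2⟩, h, h3⟩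
  have hcard : (({n : ℕ | 1 ≤ n ∧ n ≤ X ∧
      (∏ p ∈ n.primeFactors.filter (fun p : ℕ => (X : ℝ) ^ δ < p), p ^ n.factorization p) ^ 8 <
      n ^ 7}.ncard : ℕ) : ℝ) ≤ X.sqrt + B.card := by
    have h1 := Set.ncard_le_ncard hsub (Finset.finite_toSet _)
    rw [Set.ncard_coe_finset] at h1
    have h2 : (Icc 1 X.sqrt ∪ B : Finset ℕ).card ≤ X.sqrt + B.card := by
      refine (Finset.card_union_le _ _).trans ?_
      rw [Nat.card_Icc]
      omega
    exact_mod_cast h1.trans h2
  refine hcard.trans ?_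
  -- Markov
  have hterm : ∀ n ∈ B, Real.log X / 16 ≤
      ∑ p ∈ (Icc 1 N).filter Nat.Prime, (n.factorization p : ℝ) * Real.log p := by
    intro n hn
    have hn' := (Finset.mem_filter.1 hn).2
    refine (smooth_ge (by omega) hn'.1 hn'.2).trans ?_
    apply Finset.sum_le_sum_of_subset_of_nonneg
    · intro p hp
      have hp' := Finset.mem_filter.1 hp
      have hpp := Nat.prime_of_mem_primeFactors hp'.1
      rw [Finset.mem_filter, Finset.mem_Icc]
      refine ⟨⟨hpp.one_le, ?_⟩, hpp⟩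
      rw [hN]
      exact Nat.le_floor (not_lt.1 hp'.2)
    · intro p _ _
      exact mul_nonneg (Nat.cast_nonneg _) (Real.log_natCast_nonneg p)
  have hmark : (B.card : ℝ) * (Real.log X / 16) ≤ 2 * X * (Real.log N + 6) := by
    calc (B.card : ℝ) * (Real.log X / 16) = ∑ n ∈ B, Real.log X / 16 := by
          rw [Finset.sum_const, nsmul_eq_mul]
      _ ≤ ∑ n ∈ B, ∑ p ∈ (Icc 1 N).filter Nat.Prime, (n.factorization p : ℝ) * Real.log p :=
          Finset.sum_le_sum hterm
      _ ≤ ∑ n ∈ Icc 1 X, ∑ p ∈ (Icc 1 N).filter Nat.Prime,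
          (n.factorization p : ℝ) * Real.log p := by
          apply Finset.sum_le_sum_of_subset_of_nonneg (Finset.filter_subset _ _)
          intro n _ _
          exact Finset.sum_nonneg fun p _ =>
            mul_nonneg (Nat.cast_nonneg _) (Real.log_natCast_nonneg p)
      _ ≤ 2 * X * (Real.log N + 6) := Pool.Agent.H183.GL.SMO.main_sum X N hN1
  have hB1 : (B.card : ℝ) ≤ ε / 2 * X := by
    have h1 : (B.card : ℝ) * (Real.log X / 16) ≤ (ε / 2 * X) * (Real.log X / 16) := by
      refine hmark.trans ?_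
      have h2 : Real.log N + 6 ≤ ε / 128 * Real.log X + ε / 128 * Real.log X := by
        have h3 : 6 ≤ ε / 128 * Real.log X := by
          rw [div_lt_iff₀ hε] at hlog
          nlinarith
        have h4 : δ * Real.log X ≤ ε / 128 * Real.log X :=
          mul_le_mul_of_nonneg_right hδ2 hlog0.le
        linarith
      calc 2 * (X : ℝ) * (Real.log N + 6) ≤ 2 * X * (ε / 128 * Real.log X + ε / 128 * Real.log X) :=
            mul_le_mul_of_nonneg_left h2 (by positivity)
        _ = (ε / 2 * X) * (Real.log X / 16) := by ring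
    exact le_of_mul_le_mul_right h1 (by positivity)
  have hsq1 : (X.sqrt : ℝ) ≤ ε / 4 * X := by
    have h1 : (X.sqrt : ℝ) * X.sqrt ≤ X := by exact_mod_cast Nat.sqrt_le X
    have h2 : 1 ≤ ε / 4 * Real.sqrt X := by
      have h3 : 4 / ε ≤ Real.sqrt X := by
        apply Real.le_sqrt_of_sq_le
        exact hsq.le
      rw [div_le_iff₀ hε] at h3
      linarith
    have h4 : (X.sqrt : ℝ) ≤ Real.sqrt X := by
      apply Real.le_sqrt_of_sq_le
      nlinarith
    have h5 : Real.sqrt X * Real.sqrt X = X := Real.mul_self_sqrt hX0.le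
    calc (X.sqrt : ℝ) ≤ Real.sqrt X := h4
      _ = 1 * Real.sqrt X := (one_mul _).symm
      _ ≤ (ε / 4 * Real.sqrt X) * Real.sqrt X :=
          mul_le_mul_of_nonneg_right h2 (Real.sqrt_nonneg _)
      _ = ε / 4 * X := by rw [mul_assoc, h5]
  nlinarith

end Pool.Agent.H183.NI
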