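import Pool.Agent.H183.NI.Stm

/-! Task S_SMT (helper740): few `n ≤ X` with a large power of a small prime dividing `n ^ 2 + a n + c`. -/

set_option autoImplicit false

namespace Pool.Agent.H183.NI

open Finset Filter Topology

namespace SMT

/-- the inequality for large `X` -/
lemma large (M D η ε : ℝ) (hη : 0 < η) (hε : 0 < ε) : ∃ X₀ : ℕ, ∀ X : ℕ, X₀ ≤ X →
    1 ≤ X ∧ M * D ≤ ε / 2 * (X : ℝ) ^ η ∧ M ≤ ε / 2 * X := by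
  have h1 : Tendsto (fun X : ℕ => (X : ℝ) ^ η) atTop atTop :=
    (tendsto_rpow_atTop hη).comp tendsto_natCast_atTop_atTop
  have h2 : ∀ᶠ X : ℕ in atTop, M * D / (ε / 2) ≤ (X : ℝ) ^ η := h1.eventually_ge_atTop _
  have h3 : ∀ᶠ X : ℕ in atTop, M / (ε / 2) ≤ (X : ℝ) :=
    tendsto_natCast_atTop_atTop.eventually_ge_atTop _
  obtain ⟨X₀, hX₀⟩ := eventually_atTop.1 ((h2.and h3).and (eventually_ge_atTop 1))
  refine ⟨X₀, fun X hX => ?_⟩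
  obtain ⟨⟨h4, h5⟩, h6⟩ := hX₀ X hX
  rw [div_le_iff₀ (by linarith)] at h4 h5
  exact ⟨h6, by linarith, by linarith⟩

end SMT

open Classical in
/-- **S_SMT.** -/
theorem t_SMT (h : S_CNTP) : S_SMT := by
  intro a c hac Y η ε hη hε
  obtain ⟨X₀, hX₀⟩ := SMT.large (2 * ((Y : ℝ) + 1)) ((a ^ 2 - 4 * c).natAbs : ℝ) η ε hη hε
  refine ⟨X₀, fun X hX => ?_⟩
  obtain ⟨hX1, hL1, hL2⟩ := hX₀ X hX
  have hXR : (0 : ℝ) < X := by exact_mod_cast (by omega : 0 < X)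
  have hXη : 0 < (X : ℝ) ^ η := Real.rpow_pos_of_pos hXR η
  obtain ⟨D, hD⟩ : ∃ D : ℝ, D = ((a ^ 2 - 4 * c).natAbs : ℝ) := ⟨_, rfl⟩
  have hD0 : 0 ≤ D := by
    rw [hD]
    positivity
  rw [← hD] at hL1
  -- the exponents
  have hex : ∀ p : ℕ, ∃ k : ℕ, p.Prime → ((X : ℝ) ^ η < (p : ℝ) ^ k ∧
      ∀ k' : ℕ, (X : ℝ) ^ η < (p : ℝ) ^ k' → k ≤ k') := by
    intro p
    by_cases hp : p.Prime
    · have hp1 : (1 : ℝ) < p := by exact_mod_cast hp.one_lt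
      have he := pow_unbounded_of_one_lt ((X : ℝ) ^ η) hp1
      exact ⟨Nat.find he, fun _ => ⟨Nat.find_spec he, fun k' hk' => Nat.find_min' he hk'⟩⟩
    · exact ⟨0, fun hp' => absurd hp' hp⟩
  choose κ hκ using hex
  obtain ⟨P, hP⟩ : ∃ P : Finset ℕ, P = (range (Y + 1)).filter Nat.Prime := ⟨_, rfl⟩
  have hPc : (P.card : ℝ) ≤ (Y : ℝ) + 1 := by
    have h1 : P.card ≤ (range (Y + 1)).card := by
      rw [hP]
      exact card_filter_le _ _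
    rw [card_range] at h1
    exact_mod_cast h1
  have hsub : {n : ℕ | 1 ≤ n ∧ n ≤ X ∧ ∃ p k : ℕ, p.Prime ∧ p ≤ Y ∧ (p : ℤ) ^ k ∣ qq a c n ∧
      (X : ℝ) ^ η < (p : ℝ) ^ k} ⊆
      ⋃ p ∈ P, {n : ℕ | 1 ≤ n ∧ n ≤ X ∧ (p : ℤ) ^ (κ p) ∣ qq a c n} := by
    rintro n ⟨h1, h2, p, k, h3, h4, h5, h6⟩
    rw [Set.mem_iUnion₂]
    refine ⟨p, ?_, h1, h2, (pow_dvd_pow _ ((hκ p h3).2 k h6)).trans h5⟩
    rw [hP, mem_filter, mem_range]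
    exact ⟨by omega, h3⟩
  have hfin : (⋃ p ∈ P, {n : ℕ | 1 ≤ n ∧ n ≤ X ∧ (p : ℤ) ^ (κ p) ∣ qq a c n}).Finite := by
    refine (Set.finite_Icc 1 X).subset ?_
    intro n hn
    rw [Set.mem_iUnion₂] at hn
    obtain ⟨p, _, h1, h2, _⟩ := hn
    exact ⟨h1, h2⟩
  have h1 := Set.ncard_le_ncard hsub hfin
  have h2 : (⋃ p ∈ P, {n : ℕ | 1 ≤ n ∧ n ≤ X ∧ (p : ℤ) ^ (κ p) ∣ qq a c n}).ncard ≤
      ∑ p ∈ P, {n : ℕ | 1 ≤ n ∧ n ≤ X ∧ (p : ℤ) ^ (κ p) ∣ qq a c n}.ncard :=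
    Finset.set_ncard_biUnion_le P _
  have h3 : ∀ p ∈ P, (({n : ℕ | 1 ≤ n ∧ n ≤ X ∧ (p : ℤ) ^ (κ p) ∣ qq a c n}.ncard : ℕ) : ℝ) ≤
      2 * (D * X / (X : ℝ) ^ η + 1) := by
    intro p hp
    rw [hP, mem_filter] at hp
    refine (h a c hac p (κ p) X hp.2).trans ?_
    rw [← hD]
    have h4 := (hκ p hp.2).1
    have h5 : D * X / (p : ℝ) ^ (κ p) ≤ D * X / (X : ℝ) ^ η :=
      div_le_div_of_nonneg_left (by positivity) hXη h4.le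
    linarith
  have h4 : (({n : ℕ | 1 ≤ n ∧ n ≤ X ∧ ∃ p k : ℕ, p.Prime ∧ p ≤ Y ∧ (p : ℤ) ^ k ∣ qq a c n ∧
      (X : ℝ) ^ η < (p : ℝ) ^ k}.ncard : ℕ) : ℝ) ≤
      ∑ p ∈ P, (({n : ℕ | 1 ≤ n ∧ n ≤ X ∧ (p : ℤ) ^ (κ p) ∣ qq a c n}.ncard : ℕ) : ℝ) := by
    exact_mod_cast h1.trans h2
  refine h4.trans ((sum_le_sum h3).trans ?_)
  rw [sum_const, nsmul_eq_mul]
  have h5 : 0 ≤ 2 * (D * X / (X : ℝ) ^ η + 1) := by positivity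
  refine (mul_le_mul_of_nonneg_right hPc h5).trans ?_
  have h6 : 2 * ((Y : ℝ) + 1) * D / (X : ℝ) ^ η ≤ ε / 2 := by
    rw [div_le_iff₀ hXη]
    exact hL1
  have h7 : ((Y : ℝ) + 1) * (2 * (D * X / (X : ℝ) ^ η + 1)) =
      2 * ((Y : ℝ) + 1) * D / (X : ℝ) ^ η * X + 2 * ((Y : ℝ) + 1) := by
    field_simp
  rw [h7]
  have h8 := mul_le_mul_of_nonneg_right h6 hXR.le
  linarith

end Pool.Agent.H183.NI
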