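import Pool.Agent.H183.GL.Stm
import Pool.Agent.H183.SQ.Stm

/-!
# Nilpotent groups: statements

Project NI (helper183), pages MP_c38931_co and MP_79499b_co. The theorems of the projects SQ and GL
(abelian groups) for groups `G` which are nilpotent or have a small commutator subgroup. Idea: the
second multiplier theorem holds for the image of a difference set in `A = G/G'`, if `n₁ > lam |G'|`. For a
nilpotent group of order `v` the order of `G'` is at most the part of `v` made of the primes `p` with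
`p ^ 3 ∣ v`, which is small for almost all `n`.

Everything is stated with the function `f : A → ℕ`, `f a` = number of elements of `D` in the coset `a`.
The models are the files of `Pool/Agent/H183/{MU,GL,SQ}` (all on main).
-/

set_option autoImplicit false

namespace Pool.Agent.H183.NI

open Finset Pool.Agent.H183.MU Pool.Agent.H183.GL

/-- The autocorrelation of `f` is `mu`, and `mu + N` at the identity. -/
def IsDF {A : Type} [CommGroup A] [Fintype A] [DecidableEq A] (f : A → ℕ) (k N mu : ℕ) : Prop :=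
  ∑ a, f a = k ∧ ∀ g : A, ∑ a, f (g * a) * f a = mu + if g = 1 then N else 0

/-- `D` is a difference set in the group `G`, not necessarily abelian. -/
def IsDG {G : Type} [Group G] [Fintype G] [DecidableEq G] (D : Finset G) (k lam : ℕ) : Prop :=
  D.card = k ∧
    ∀ g : G, g ≠ 1 → ((D ×ˢ D).filter (fun p : G × G => p.1 * p.2⁻¹ = g)).card = lam

/-- The number of the elements of `D` over `a`. -/
def im {G A : Type} [Group G] [CommGroup A] [DecidableEq A] (φ : G →* A) (D : Finset G) (a : A) : ℕ :=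
  (D.filter (fun x => φ x = a)).card

/-- The part of `v` made of the primes `p` with `p ^ 3 ∣ v`. -/
def cf (v : ℕ) : ℕ := ∏ p ∈ v.primeFactors.filter (fun p => p ^ 3 ∣ v), p ^ v.factorization p

/-! ## A. Algebra -/

/-- **S_IMG.** Proof. `∑_a f (g a) f a` is the number of pairs `(x, y)` in `D × D` with `φ x = g φ y`, i.e.
`φ (x y⁻¹) = g`; sum over the `|ker φ|` values `h` of `x y⁻¹` in the fibre of `g`: each `h ≠ 1` has `lam`
pairs and `h = 1` (only if `g = 1`) has `k`. -/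
def S_IMG : Prop := ∀ (G A : Type) [Group G] [Fintype G] [DecidableEq G] [CommGroup A] [Fintype A]
  [DecidableEq A] (φ : G →* A), Function.Surjective φ → ∀ (D : Finset G) (k lam : ℕ), IsDG D k lam →
    lam ≤ k → IsDF (im φ D) k (k - lam) (lam * Nat.card φ.ker)

/-- **S_MULTF.** Second multiplier theorem for functions. It is the proof of `S_MULT2` (file
`Pool/Agent/H183/GL/MULT2.lean`; uses `S_LIFT2`) with `x = ∑ a, single a (f a)`,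
`x' = ∑ a, single a⁻¹ (f a)`, `mu` in place of `lam`, `N` in place of `k - lam`. At the end
`τ_t x = g₀ x`; the coefficient at `a ^ t` (`a ↦ a ^ t` is bijective) gives `f a = f (g₀⁻¹ a ^ t)`. -/
def S_MULTF : Prop := ∀ (A : Type) [CommGroup A] [Fintype A] [DecidableEq A] (f : A → ℕ)
  (k N mu t : ℕ) (S : Finset ℕ) (e : ℕ → ℕ), IsDF f k N mu → 0 < N →
    Nat.Coprime t (Fintype.card A) →
    (∀ p ∈ S, p.Prime ∧ ¬ p ∣ Fintype.card A ∧ ¬ p ∣ k ∧ p ^ e p ∣ N ∧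
      ∃ j : ℕ, ∀ g : A, g ^ t = g ^ (p ^ j)) →
    mu < ∏ p ∈ S, p ^ e p → ∃ c : A, ∀ a : A, f (c * a ^ t) = f a

/-- **S_FIXF.** Proof. Let `π = ∏_a a ^ (f a)`. With `y = c a ^ t` (a bijection of `A`):
`π = ∏_a (c a ^ t) ^ (f a) = c ^ k π ^ t`. Let `b ^ k = π` (`k` prime to `|A|`): `(c b ^ t b⁻¹) ^ k = 1`, so
`c = b (b ^ t)⁻¹`. Then `f (b a ^ t) = f (c (b a) ^ t) = f (b a)`. -/
def S_FIXF : Prop := ∀ (A : Type) [CommGroup A] [Fintype A] [DecidableEq A] (f : A → ℕ) (k t : ℕ),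
  ∑ a, f a = k → Nat.Coprime k (Fintype.card A) → Nat.Coprime t (Fintype.card A) →
    (∃ c : A, ∀ a : A, f (c * a ^ t) = f a) → ∃ b : A, ∀ a : A, f (b * a ^ t) = f (b * a)

/-- **S_TRF.** Proof. Substitute `a' = b a`. -/
def S_TRF : Prop := ∀ (A : Type) [CommGroup A] [Fintype A] [DecidableEq A] (f : A → ℕ)
  (k N mu : ℕ) (b : A), IsDF f k N mu → IsDF (fun a => f (b * a)) k N mu

/-- **S_PUSHF.** Proof. `im (ψ φ) D h = ∑_{ψ a = h} im φ D a`, and `a ↦ c a ^ t` is a bijection of `A` which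
maps the fibre of `h` onto the fibre of `ψ c h ^ t` (`h ↦ h ^ t` is a bijection of `H`, as `|H| ∣ |A|`). -/
def S_PUSHF : Prop := ∀ (G A H : Type) [Group G] [Fintype G] [DecidableEq G] [CommGroup A]
  [Fintype A] [DecidableEq A] [CommGroup H] [Fintype H] [DecidableEq H] (φ : G →* A) (ψ : A →* H),
  Function.Surjective ψ → ∀ (D : Finset G) (t : ℕ) (c : A), Nat.Coprime t (Fintype.card A) →
    (∀ a : A, im φ D (c * a ^ t) = im φ D a) →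
      ∀ h : H, im (ψ.comp φ) D (ψ c * h ^ t) = im (ψ.comp φ) D h

/-- **S_EVENF.** Mann's test for a symmetric function. It is the proof of `S_EVEN` (file
`Pool/Agent/H183/MU/EVEN.lean`) which works with such functions anyway. -/
def S_EVENF : Prop := ∀ (H : Type) [CommGroup H] [Fintype H] [DecidableEq H] (f : H → ℕ)
  (k mu u w : ℕ), IsDF f k (u ^ 2) mu → Fintype.card H = w → 4 < w → 0 < u → Nat.Coprime u w →
    (∀ h : H, f h⁻¹ = f h) → (w : ℤ) ∣ k + u ∨ (w : ℤ) ∣ k - u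

/-- **S_SIZEF.** Proof (compare `S_SIZE`, file `Pool/Agent/H183/GL/SIZE.lean`). `W = {a | a^w = 1}`
(order `w`) and `K = {a | a^v' = 1}` (order `v'`). If `a ∉ K` then `a^t a⁻¹ = a^(t-1)` is in `W`, not `1`.
`∑_{x ∈ W, x ≠ 1} ∑_a f (x a) f a = mu (w - 1)`, and this is at least
`∑_{a ∉ K} f (a^t) f a = ∑_{a ∉ K} (f a)^2 ≥ ∑_{a ∉ K} f a = k - ∑_{K} f`. For the cosets `h` of `K` let
`F h = ∑_{a ∈ h} f a`: `∑ F = k`, `∑ F^2 = u^2 + mu v'`, `k^2 = u^2 + mu w v'`, so `∑ (F h - k/w)^2 =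
u^2 (1 - 1/w)` and `∑_K f ≤ k/w + u`. Together `k (w-1)/w - u ≤ mu (w-1)`, `k ≤ mu w + 2 u`. -/
def S_SIZEF : Prop := ∀ (A : Type) [CommGroup A] [Fintype A] [DecidableEq A] (f : A → ℕ)
  (k mu w v' t u : ℕ), IsDF f k (u ^ 2) mu → Fintype.card A = w * v' → w.Prime → ¬ w ∣ v' →
    1 ≤ t → v' ∣ t - 1 → ¬ w ∣ t - 1 → (∀ a : A, f (a ^ t) = f a) → k ≤ mu * w + 2 * u

/-- **S_COMM.** Proof. A finite nilpotent group is the product of its Sylow subgroups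
(`isNilpotent_of_finite_tfae`); those of order `p`, `p ^ 2` are commutative
(`IsPGroup.commutative_of_card_eq_prime_sq`). Let `B` be the product of the Sylow subgroups for the `p`
with `¬ p ^ 3 ∣ |G|`; the projection `G → B` is surjective, `B` is commutative, its kernel has
`cf |G|` elements and contains the commutator subgroup. Second part:
`Pool.Agent.TH66.SG.nilp_quot` (file `Pool/Graph/R_seed8/TH66/SG/Nilp.lean`) gives a surjective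
`G → Multiplicative (ZMod w)`, which factors over the abelianization (`Abelianization.lift`). -/
def S_COMM : Prop := ∀ (G : Type) [Group G] [Fintype G], Group.IsNilpotent G →
  Nat.card (commutator G) ≤ cf (Nat.card G) ∧
    ∀ w : ℕ, w.Prime → w ∣ Nat.card G → w ∣ Nat.card (Abelianization G)

/-- **S_PARG.** As `S_PAR` (file `Pool/Agent/H183/SQ/PAR.lean`), for any group. -/
def S_PARG : Prop := ∀ (G : Type) [Group G] [Fintype G] [DecidableEq G] (D : Finset G)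
  (k lam u : ℕ), IsDG D k lam → k = u ^ 2 + lam →
    lam * Fintype.card G = (u ^ 2 + lam + u) * (u ^ 2 + lam - u)

/-- **S_KEYQN** (from S_IMG, S_MULTF, S_FIXF, S_TRF, S_PUSHF, S_EVENF, S_PARG). Proof as for
`S_KEYQ` (file `Pool/Agent/H183/SQ/KEYQ.lean`). `A = Abelianization G`, `φ = Abelianization.of`, kernel
`commutator G`, `|G| = |A| |G'|`; `k = u^2 + lam`. `p` does not divide `k`, `|G|`. S_IMG, and S_MULTF with
`S = {p}`, `e p = 2`, `t = p`, `mu = lam |G'| ≤ lam ν < p`. `A → H = Multiplicative (ZMod w₁) ×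
Multiplicative (ZMod w₂)` surjective (`nilp_quot` for the abelian group `A`, `prod_surj`). S_PUSHF,
S_FIXF on `H` (`k` is prime to `w₁ w₂`), S_IMG for `G → H`, S_TRF; iterate: invariance under
`h ↦ h^(p^j) = h⁻¹`; S_EVENF. -/
def S_KEYQN : Prop := ∀ (u lam p j w₁ w₂ ν : ℕ), 1 ≤ u → 1 ≤ lam → 1 ≤ ν → p.Prime → p ∣ u →
  lam * ν < p → w₁.Prime → w₂.Prime → w₁ ≠ 2 → w₂ ≠ 2 → ¬ w₁ ∣ u → ¬ w₂ ∣ u → ¬ w₁ ∣ lam →
  ¬ w₂ ∣ lam → (u : ZMod w₁) ^ 2 + u + lam = 0 → (u : ZMod w₂) ^ 2 + lam = u →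
  w₁ * w₂ ∣ p ^ j + 1 → ∀ (G : Type) [Group G] [Fintype G] [DecidableEq G] (D : Finset G),
    IsDG D (u ^ 2 + lam) lam → Nat.card (commutator G) ≤ ν →
    w₁ ∣ Nat.card (Abelianization G) → w₂ ∣ Nat.card (Abelianization G) → False

/-- Some group which is nilpotent or has a commutator subgroup with at most `C` elements contains a
difference set with the Singer parameters of `(n, m)`. -/
def HasNS (C n m : ℕ) : Prop :=
  ∃ (G : Type) (_ : Group G) (_ : Fintype G) (_ : DecidableEq G) (D : Finset G),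
    (Group.IsNilpotent G ∨ Nat.card (commutator G) ≤ C) ∧
    Fintype.card G * (n - 1) = n ^ m - 1 ∧ D.card * (n - 1) = n ^ (m - 1) - 1 ∧
    ∀ g : G, g ≠ 1 →
      ((D ×ˢ D).filter (fun p : G × G => p.1 * p.2⁻¹ = g)).card * (n - 1) = n ^ (m - 2) - 1

/-- Some such group contains a difference set with `k = u ^ 2 + lam`. -/
def HasNQ (C u lam : ℕ) : Prop :=
  ∃ (G : Type) (_ : Group G) (_ : Fintype G) (_ : DecidableEq G) (D : Finset G),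
    (Group.IsNilpotent G ∨ Nat.card (commutator G) ≤ C) ∧ IsDG D (u ^ 2 + lam) lam

/-- **S_KEY2N** (from S_IMG, S_MULTF, S_FIXF, S_TRF, S_SIZEF and `S_GLUE` of project GL). Proof as for
`S_KEY2` (file `Pool/Agent/H183/GL/KEY2.lean`), with `A = Abelianization G`, `|G| = |A| |G'|`,
`|A| = w v''`, `v'' |G'| = v'` (so `l ∤ φ(v'')`), `mu = lam |G'| ≤ lam ν`. S_MULTF needs
`lam ν < P^(m-2)`: `lam (n-1) < n^(m-2)`. S_SIZEF: `lam n + 1 = k ≤ lam ν w + 2 u ≤ lam (n-2) + 2 u`,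
impossible as before. -/
def S_KEY2N : Prop := ∀ (n m w v' l ν : ℕ) (S : Finset ℕ), 2 ≤ n → 4 ≤ m → Even m → w.Prime →
  l.Prime → l ∣ w - 1 → w * v' = ∑ i ∈ range m, n ^ i → ¬ w ∣ v' → ¬ l ∣ Nat.totient v' →
  1 ≤ ν → ν * w + 2 ≤ n → (∀ p ∈ S, p.Prime ∧ p ∣ n ∧ ¬ HH w l p) →
  2 * ν * n ^ (m - 3) ≤ (∏ p ∈ S, p ^ n.factorization p) ^ (m - 2) →
  ∀ (G : Type) [Group G] [Fintype G] [DecidableEq G] (D : Finset G),
    Nat.card (commutator G) ≤ ν → w ∣ Nat.card (Abelianization G) →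
    Fintype.card G * (n - 1) = n ^ m - 1 → D.card * (n - 1) = n ^ (m - 1) - 1 →
    (∀ g : G, g ≠ 1 →
      ((D ×ˢ D).filter (fun p : G × G => p.1 * p.2⁻¹ = g)).card * (n - 1) = n ^ (m - 2) - 1) → False

/-- **S_KEY3N** (from S_KEY2N). Proof as for `S_KEY3` (file `Pool/Agent/H183/GL/KEY3.lean`). For `m = 4`
the condition `2 ν n ≤ P^2` follows from `2 ν n^3 ≤ P^4` and `2 ν ≤ n`. -/
def S_KEY3N : Prop := ∀ (n m w l ν : ℕ) (y : ℝ), m = 4 ∨ m = 6 → w.Prime → l.Prime → l ∣ w - 1 →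
  3 < w → 1 ≤ ν → ν * w + 2 ≤ n → w ∣ n + 1 → ¬ w ^ 2 ∣ n + 1 →
  (∀ p : ℕ, p.Prime → p ∣ n → y < p → ¬ HH w l p) →
  2 * ν * n ^ 3 ≤ (∏ p ∈ n.primeFactors.filter (fun p : ℕ => y < p), p ^ n.factorization p) ^ 4 →
  (∀ q : ℕ, q.Prime → q ≠ w → q ∣ n + 1 → ¬ (l ∣ q - 1 ∨ q = l)) →
  (∀ a : ℤ, IsA a → ∀ q : ℕ, q.Prime → (q : ℤ) ∣ fa a n → ¬ (l ∣ q - 1 ∨ q = l)) →
  ∀ (G : Type) [Group G] [Fintype G] [DecidableEq G] (D : Finset G),
    Nat.card (commutator G) ≤ ν → w ∣ Nat.card (Abelianization G) →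
    Fintype.card G * (n - 1) = n ^ m - 1 → D.card * (n - 1) = n ^ (m - 1) - 1 →
    (∀ g : G, g ≠ 1 →
      ((D ×ˢ D).filter (fun p : G × G => p.1 * p.2⁻¹ = g)).card * (n - 1) = n ^ (m - 2) - 1) → False

/-! ## B. Cubes -/

/-- `n ^ 2 + a n + c`. -/
def qq (a c : ℤ) (n : ℕ) : ℤ := (n : ℤ) ^ 2 + a * n + c

/-- **S_CNTP.** Proof. Let `d = a^2 - 4 c ≠ 0`, `n₁` one solution (none: trivial), `n` another one. Then
`p^k ∣ (n - n₁)(n + n₁ + a)`. If `p^i` divides both factors, `i ≤ k`, then `p^i ∣ 2 n₁ + a`,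
`p^(2i)` and `p^k` ... `(2 n₁ + a)^2 = 4 qq a c n₁ + d`, so `p^i ∣ d` (`p^i ∣ (2 n₁ + a)^2`, `p^i ∣ p^k`). So
`p^i ≤ |d|` for the largest such `i`, and `n ≡ n₁` or `n ≡ -n₁ - a` modulo `p^(k-i₀)` where `p^(i₀) ≤ |d|` is
the largest power of `p` dividing `d` (or `i₀ = k`). Each of the two classes has at most
`X/p^(k-i₀) + 1 ≤ |d| X/p^k + 1` elements in `[1, X]`. -/
def S_CNTP : Prop := ∀ a c : ℤ, a ^ 2 ≠ 4 * c → ∀ p k X : ℕ, p.Prime →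
  (({n : ℕ | 1 ≤ n ∧ n ≤ X ∧ (p : ℤ) ^ k ∣ qq a c n}.ncard : ℕ) : ℝ) ≤
    2 * (((a ^ 2 - 4 * c).natAbs : ℝ) * X / (p : ℝ) ^ k + 1)

/-- **S_CUB** (from S_CNTP). Proof. `qq a c n ≠ 0` except for at most two `n`; `|qq a c n| ≤ B X^2` with
`B = 1 + |a| + |c|`, so `p^3 ≤ B X^2`. Sum of S_CNTP (`k = 3`) over the primes (or all integers)
`Y < p ≤ (B X^2)^(1/3)`: at most `2 |d| X ∑_{p > Y} 1/p^3 + 2 (B X^2)^(1/3) + 2 ≤ ε X`
(`∑_{p > Y} 1/p^3 ≤ 1/Y`). -/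
def S_CUB : Prop := ∀ a c : ℤ, a ^ 2 ≠ 4 * c → ∀ ε : ℝ, 0 < ε → ∃ Y₀ : ℕ, ∀ Y : ℕ, Y₀ ≤ Y →
  ∃ X₀ : ℕ, ∀ X : ℕ, X₀ ≤ X →
    (({n : ℕ | 1 ≤ n ∧ n ≤ X ∧ ∃ p : ℕ, p.Prime ∧ Y < p ∧ (p : ℤ) ^ 3 ∣ qq a c n}.ncard : ℕ) : ℝ) ≤
      ε * X

/-- **S_SMT** (from S_CNTP). Proof. For `p ≤ Y` let `k` be the least exponent with `p^k > X^η`. By S_CNTP
the number is at most `∑_{p ≤ Y} 2 (|d| X^(1-η) + 1) ≤ ε X` for large `X`. -/
def S_SMT : Prop := ∀ a c : ℤ, a ^ 2 ≠ 4 * c → ∀ Y : ℕ, ∀ η ε : ℝ, 0 < η → 0 < ε →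
  ∃ X₀ : ℕ, ∀ X : ℕ, X₀ ≤ X →
    (({n : ℕ | 1 ≤ n ∧ n ≤ X ∧ ∃ p k : ℕ, p.Prime ∧ p ≤ Y ∧ (p : ℤ) ^ k ∣ qq a c n ∧
      (X : ℝ) ^ η < (p : ℝ) ^ k}.ncard : ℕ) : ℝ) ≤ ε * X

/-- **S_CFL** (from S_CUB, S_SMT). Proof. `q₁ = u^2 + u + lam`, `q₂ = u^2 - u + lam`, `lam v = q₁ q₂`. `Y ≥ 2 lam` as in
S_CUB for both and `ε/4`, `η' = η/(2 Y + 2)`. Outside of the exceptional sets: a prime `p > Y` with
`p^3 ∣ v` does not divide both `q₁`, `q₂` (else `p ∣ 2 u`, `p ∣ u`, `p ∣ lam`), so `p^3` divides one of them,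
impossible; a prime `p ≤ Y`: `p^(v_p(v)) ∣ q₁ q₂`, so it is at most `X^(2 η')`; the product of at
most `Y` of these is at most `X^(2 η' Y) ≤ X^η`. -/
def S_CFL : Prop := ∀ lam : ℕ, 1 ≤ lam → ∀ η ε : ℝ, 0 < η → 0 < ε → ∃ X₀ : ℕ, ∀ X : ℕ, X₀ ≤ X →
  (({u : ℕ | 1 ≤ u ∧ u ≤ X ∧ ∃ v : ℕ, lam * v = (u ^ 2 + lam + u) * (u ^ 2 + lam - u) ∧
    (X : ℝ) ^ η < cf v}.ncard : ℕ) : ℝ) ≤ ε * X

/-- **S_CF4** (from S_CUB, S_SMT). Proof as for S_CFL with the factors `n + 1 ∣ n^2 + 3 n + 2`, `n^2 + 1` for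
`m = 4` and `n + 1`, `n^2 + n + 1`, `n^2 - n + 1` for `m = 6`; a prime `p > 3` does not divide two of them. -/
def S_CF4 : Prop := ∀ m : ℕ, m = 4 ∨ m = 6 → ∀ η ε : ℝ, 0 < η → 0 < ε → ∃ X₀ : ℕ, ∀ X : ℕ, X₀ ≤ X →
  (({n : ℕ | 1 ≤ n ∧ n ≤ X ∧ (X : ℝ) ^ η < cf (∑ i ∈ range m, n ^ i)}.ncard : ℕ) : ℝ) ≤ ε * X

/-- **S_SMO2.** As `S_SMO` (file `Pool/Agent/H183/GL/SMO.lean`) with other constants. -/
def S_SMO2 : Prop := ∀ ε : ℝ, 0 < ε → ∃ δ : ℝ, 0 < δ ∧ δ < 1 / 2 ∧ ∃ X₀ : ℕ, ∀ X : ℕ, X₀ ≤ X →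
  (({n : ℕ | 1 ≤ n ∧ n ≤ X ∧
    (∏ p ∈ n.primeFactors.filter (fun p : ℕ => (X : ℝ) ^ δ < p), p ^ n.factorization p) ^ 8 <
      n ^ 7}.ncard : ℕ) : ℝ) ≤ ε * X

/-! ## C. The theorems -/

/-- **S_QFINN** (from S_KEYQN, S_CFL, S_COMM, S_PARG and the parts of project SQ). Proof as for
`S_QFIN` (file `Pool/Agent/H183/SQ/QFIN.lean`) with `S_KEYQN` in place of `S_KEYQ`. Changes: `R` = the primes
`w > C`, `w ∈ RR 2 L` (removing finitely many primes does not change the divergence); the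
exceptional set of S_CFL with `η = δ/2`; `ν = max C ⌊X^η⌋`, `lam ν < X^δ < p` for large `X`; for nilpotent `G`:
`|G'| ≤ cf |G| ≤ X^η` and `w_i ∣ |G/G'|` by S_COMM (`lam |G| = (k+u)(k-u)` by S_PARG, so `w_i ∣ |G|`); if
`|G'| ≤ C`: `w_i ∣ |G| = |G/G'| |G'|` and `w_i > C`. -/
def S_QFINN : Prop := ∀ Λ C : ℕ, ∀ ε : ℝ, 0 < ε → ∃ X₀ : ℕ, ∀ X : ℕ, X₀ ≤ X →
  (({u : ℕ | 1 ≤ u ∧ u ≤ X ∧ ∃ lam : ℕ, 1 ≤ lam ∧ lam ≤ Λ ∧ HasNQ C u lam}.ncard : ℕ) : ℝ) ≤ ε * X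

/-- **S_FINN** (from S_KEY3N, S_CF4, S_SMO2, S_COMM and the parts of project GL). Proof as for `S_FIN`
(file `Pool/Agent/H183/GL/FIN.lean`) with `S_KEY3N` in place of `S_KEY3`. Changes: `S_SMO2` in place of
`S_SMO`; the exceptional sets of S_CF4 with `η = 1/8`; `ν = max C ⌊X^(1/8)⌋`, so for `n > (ε/8) X` (or
`n > √X`), `X` large: `ν w + 2 ≤ n` (`w ≤ (log X)^(1/4)`), `2 ν ≤ √n`, `2 ν n^3 ≤ n^(7/2) ≤ P^4`; for
nilpotent `G`: `|G'| ≤ cf |G| ≤ X^(1/8)` and `w ∣ |G/G'|` by S_COMM; if `|G'| ≤ C`: `w ∣ |G| = |G/G'| |G'|` and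
`w > l ≥ (log log X)^9 > C`. -/
def S_FINN : Prop := ∀ C : ℕ, ∀ ε : ℝ, 0 < ε → ∃ X₀ : ℕ, ∀ X : ℕ, X₀ ≤ X →
  (({n : ℕ | 2 ≤ n ∧ n ≤ X ∧ (HasNS C n 4 ∨ HasNS C n 6)}.ncard : ℕ) : ℝ) ≤ ε * X

end Pool.Agent.H183.NI
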