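import Pool.Agent.H183.PO.SQP
import Pool.Agent.H183.NI.Stm

/-!
# The density theorem for squares of polynomials, groups with a small commutator subgroup
(adapted from `PO/SQP.lean`, proved by helper218)
-/

set_option autoImplicit false

namespace Pool.Agent.H183.NI

open Polynomial Filter Topology Pool.Agent.H771R2.Dens Pool.Agent.H183.PO

/-- Some group with a commutator subgroup of order at most `C` contains a difference set with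
`k = u ^ 2 + lam`. -/
def HasGC (C u lam : ℕ) : Prop :=
  ∃ (G : Type) (_ : Group G) (_ : Fintype G) (_ : DecidableEq G) (D : Finset G),
    Nat.card (commutator G) ≤ C ∧ IsDG D (u ^ 2 + lam) lam

namespace SQPN

lemma dvd_ab (hP : S_PARG) {G : Type} [Group G] [Fintype G] [DecidableEq G] {D : Finset G}
    {u lam C w : ℕ} (hD : IsDG D (u ^ 2 + lam) lam) (hc : Nat.card (commutator G) ≤ C)
    (hw : w.Prime) (hCw : C < w) (hl : ¬ w ∣ lam)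
    (h : w ∣ (u ^ 2 + lam + u) * (u ^ 2 + lam - u)) : w ∣ Nat.card (Abelianization G) := by
  have h1 := hP G D (u ^ 2 + lam) lam u hD rfl
  have h2 : w ∣ Fintype.card G := by
    rw [← h1] at h
    exact ((Nat.Prime.dvd_mul hw).1 h).resolve_left hl
  have h3 : Nat.card G = Nat.card (Abelianization G) * Nat.card (commutator G) :=
    Subgroup.card_eq_card_quotient_mul_card_subgroup _
  rw [← Nat.card_eq_fintype_card, h3] at h2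
  rcases (Nat.Prime.dvd_mul hw).1 h2 with h4 | h4
  · exact h4
  · exact absurd (Nat.le_of_dvd Nat.card_pos h4) (by omega)

/-- the factors in terms of residues -/
lemma fac₁ {u lam w : ℕ} (h : (u : ZMod w) ^ 2 + u + lam = 0) :
    w ∣ (u ^ 2 + lam + u) * (u ^ 2 + lam - u) := by
  refine Dvd.dvd.mul_right ?_ _
  rw [← ZMod.natCast_eq_zero_iff]
  push_cast
  linear_combination h

lemma fac₂ {u lam w : ℕ} (h : (u : ZMod w) ^ 2 + lam = u) :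
    w ∣ (u ^ 2 + lam + u) * (u ^ 2 + lam - u) := by
  refine Dvd.dvd.mul_left ?_ _
  have hle : u ≤ u ^ 2 + lam := by nlinarith
  rw [← ZMod.natCast_eq_zero_iff, Nat.cast_sub hle]
  push_cast
  linear_combination h

/-- the arithmetic contradiction -/
lemma final (hK : S_KEYQN) (hP : S_PARG) (h6 : S_NEG) (x : ℤ) (lam C s q₁ q₂ r : ℕ)
    (hlam : 1 ≤ lam) (hs : 1 ≤ s)
    (hq₁ : q₁.Prime) (hq₂ : q₂.Prime) (h12 : q₁ < q₂) (hl : lam < q₁) (h3 : 3 < q₁)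
    (hCq : C < q₁) (ht₁ : TwoExact s q₁) (ht₂ : TwoExact s q₂)
    (hF₁ : (q₁ : ℤ) ∣ x ^ 2 + x + lam) (hF₂ : (q₂ : ℤ) ∣ x ^ 2 - x + lam)
    (hr : r.Prime) (hrl : lam * (C + 1) < r) (hr₁ : (r : ZMod q₁) ^ (q₁ / 2) = -1)
    (hr₂ : (r : ZMod q₂) ^ (q₂ / 2) = -1) (hrx : (r : ℤ) ∣ x) (hx : HasGC C x.natAbs lam) :
    False := by
  have hnl₁ : ¬ q₁ ∣ lam := fun h => by
    have := Nat.le_of_dvd hlam h
    omega
  have hnl₂ : ¬ q₂ ∣ lam := fun h => by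
    have := Nat.le_of_dvd hlam h
    omega
  have hnx₁ : ¬ (q₁ : ℤ) ∣ x := by
    intro h
    apply hnl₁
    have h7 : (q₁ : ℤ) ∣ (x ^ 2 + x + lam) - x * (x + 1) := dvd_sub hF₁ (h.mul_right _)
    have h8 : (x ^ 2 + x + lam) - x * (x + 1) = (lam : ℤ) := by ring
    rw [h8] at h7
    exact_mod_cast h7
  have hnx₂ : ¬ (q₂ : ℤ) ∣ x := by
    intro h
    apply hnl₂
    have h7 : (q₂ : ℤ) ∣ (x ^ 2 - x + lam) - x * (x - 1) := dvd_sub hF₂ (h.mul_right _)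
    have h8 : (x ^ 2 - x + lam) - x * (x - 1) = (lam : ℤ) := by ring
    rw [h8] at h7
    exact_mod_cast h7
  have hu0 : x ≠ 0 := by
    rintro rfl
    exact hnx₁ (dvd_zero _)
  have hu : 1 ≤ x.natAbs := Int.natAbs_pos.2 hu0
  have hru : r ∣ x.natAbs := Int.natCast_dvd.1 hrx
  have hnu₁ : ¬ q₁ ∣ x.natAbs := fun h => hnx₁ (Int.natCast_dvd.2 h)
  have hnu₂ : ¬ q₂ ∣ x.natAbs := fun h => hnx₂ (Int.natCast_dvd.2 h)
  obtain ⟨j, hj⟩ := h6 r q₁ q₂ s hq₁ hq₂ h12.ne hs ht₁ ht₂ hr₁ hr₂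
  obtain ⟨G, i1, i2, i3, D, hc, hD⟩ := hx
  have e₁ : ((x : ℤ) : ZMod q₁) ^ 2 + x + lam = 0 := by
    have h7 := (ZMod.intCast_zmod_eq_zero_iff_dvd (x ^ 2 + x + lam) q₁).2 hF₁
    push_cast at h7
    exact h7
  have e₂ : ((x : ℤ) : ZMod q₂) ^ 2 - x + lam = 0 := by
    have h7 := (ZMod.intCast_zmod_eq_zero_iff_dvd (x ^ 2 - x + lam) q₂).2 hF₂
    push_cast at h7
    exact h7
  rcases lt_or_gt_of_ne hu0 with hneg | hpos
  · have hux : (x.natAbs : ℤ) = -x := by omega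
    have c₁ : ((x.natAbs : ℕ) : ZMod q₁) = -(x : ZMod q₁) := by
      have h7 := congrArg (fun z : ℤ => (z : ZMod q₁)) hux
      simp only [Int.cast_natCast, Int.cast_neg] at h7
      exact h7
    have c₂ : ((x.natAbs : ℕ) : ZMod q₂) = -(x : ZMod q₂) := by
      have h7 := congrArg (fun z : ℤ => (z : ZMod q₂)) hux
      simp only [Int.cast_natCast, Int.cast_neg] at h7
      exact h7
    have f₂ : ((x.natAbs : ℕ) : ZMod q₂) ^ 2 + (x.natAbs : ℕ) + lam = 0 := by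
      rw [c₂]
      linear_combination e₂
    have f₁ : ((x.natAbs : ℕ) : ZMod q₁) ^ 2 + lam = (x.natAbs : ℕ) := by
      rw [c₁]
      linear_combination e₁
    exact hK x.natAbs lam r j q₂ q₁ (C + 1) hu hlam (by omega) hr hru hrl hq₂ hq₁ (by omega)
      (by omega) hnu₂ hnu₁ hnl₂ hnl₁ f₂ f₁ (by rw [mul_comm]; exact hj) G D hD (by omega)
      (dvd_ab hP hD hc hq₂ (by omega) hnl₂ (fac₁ f₂)) (dvd_ab hP hD hc hq₁ hCq hnl₁ (fac₂ f₁))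
  · have hux : (x.natAbs : ℤ) = x := by omega
    have c₁ : ((x.natAbs : ℕ) : ZMod q₁) = (x : ZMod q₁) := by
      have h7 := congrArg (fun z : ℤ => (z : ZMod q₁)) hux
      simp only [Int.cast_natCast] at h7
      exact h7
    have c₂ : ((x.natAbs : ℕ) : ZMod q₂) = (x : ZMod q₂) := by
      have h7 := congrArg (fun z : ℤ => (z : ZMod q₂)) hux
      simp only [Int.cast_natCast] at h7
      exact h7
    have f₁ : ((x.natAbs : ℕ) : ZMod q₁) ^ 2 + (x.natAbs : ℕ) + lam = 0 := by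
      rw [c₁]
      linear_combination e₁
    have f₂ : ((x.natAbs : ℕ) : ZMod q₂) ^ 2 + lam = (x.natAbs : ℕ) := by
      rw [c₂]
      linear_combination e₂
    exact hK x.natAbs lam r j q₁ q₂ (C + 1) hu hlam (by omega) hr hru hrl hq₁ hq₂ (by omega)
      (by omega) hnu₁ hnu₂ hnl₁ hnl₂ f₁ f₂ hj G D hD (by omega)
      (dvd_ab hP hD hc hq₁ hCq hnl₁ (fac₁ f₁)) (dvd_ab hP hD hc hq₂ (by omega) hnl₂ (fac₂ f₂))

end SQPN

/-- The density theorem for the orders `g(t) ^ 2` and groups with a small commutator subgroup. -/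
theorem t_SQPN (hK : S_KEYQN) (hP : S_PARG) (h1 : S_QS) (h2 : S_RS) (h3 : S_PER) (h4 : S_JOIN)
    (h5 : S_BIGD) (h6 : S_NEG) : ∀ g : ℤ[X], 0 < g.natDegree → ∀ lam : ℕ, 1 ≤ lam → ∀ C : ℕ,
  Tendsto (fun N : ℕ => (cnt (fun t : ℕ => HasGC C (g.eval (t : ℤ)).natAbs lam) N : ℝ) / N)
    atTop (𝓝 0) := by
  classical
  intro g hg lam hlam C
  obtain ⟨S₁, hS₁⟩ := h1 (g ^ 2 + g + Polynomial.C (lam : ℤ)) (SQP.deg_add g hg _)
  obtain ⟨S₂, hS₂⟩ := h1 (g ^ 2 - g + Polynomial.C (lam : ℤ)) (SQP.deg_sub g hg _)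
  obtain ⟨K₀, hK₀⟩ := h2 g hg
  obtain ⟨s, hs1, hs2, hs3⟩ : ∃ s : ℕ, 1 ≤ s ∧ S₁ ≤ s ∧ S₂ ≤ s :=
    ⟨max 1 (max S₁ S₂), le_max_left _ _, (le_max_left _ _).trans (le_max_right _ _),
      (le_max_right _ _).trans (le_max_right _ _)⟩
  obtain ⟨K, hK1, hK2, hK3, hK4⟩ : ∃ K : ℕ, K₀ ≤ K ∧ lam ≤ K ∧ 3 ≤ K ∧ C ≤ K :=
    ⟨K₀ + lam + 3 + C, by omega, by omega, by omega, by omega⟩
  have hc₁ : ∀ q : ℕ, ∃ c : ℕ,
      (∃ a : ℕ, (q : ℤ) ∣ (g ^ 2 + g + Polynomial.C (lam : ℤ)).eval (a : ℤ)) →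
      (q : ℤ) ∣ (g ^ 2 + g + Polynomial.C (lam : ℤ)).eval (c : ℤ) := by
    intro q
    by_cases h : ∃ a : ℕ, (q : ℤ) ∣ (g ^ 2 + g + Polynomial.C (lam : ℤ)).eval (a : ℤ)
    · obtain ⟨a, ha⟩ := h
      exact ⟨a, fun _ => ha⟩
    · exact ⟨0, fun h' => absurd h' h⟩
  choose c₁ hc₁ using hc₁
  have hc₂ : ∀ q : ℕ, ∃ c : ℕ,
      (∃ a : ℕ, (q : ℤ) ∣ (g ^ 2 - g + Polynomial.C (lam : ℤ)).eval (a : ℤ)) →
      (q : ℤ) ∣ (g ^ 2 - g + Polynomial.C (lam : ℤ)).eval (c : ℤ) := by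
    intro q
    by_cases h : ∃ a : ℕ, (q : ℤ) ∣ (g ^ 2 - g + Polynomial.C (lam : ℤ)).eval (a : ℤ)
    · obtain ⟨a, ha⟩ := h
      exact ⟨a, fun _ => ha⟩
    · exact ⟨0, fun h' => absurd h' h⟩
  choose c₂ hc₂ using hc₂
  refine h4 _ (fun q : ℕ => (TwoExact s q ∧
    ∃ a : ℕ, (q : ℤ) ∣ (g ^ 2 + g + Polynomial.C (lam : ℤ)).eval (a : ℤ)) ∧ K < q) c₁
    (h5 _ K (hS₁ s hs2)) ?_
  rintro q₁ hq₁ ⟨⟨ht₁, hr₁⟩, hKq₁⟩
  refine Pool.Agent.T2H18.PO.tendsto_zero'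
    (fun t : ℕ => HasGC C (g.eval (t : ℤ)).natAbs lam ∧ t % q₁ = c₁ q₁ % q₁)
    (fun q : ℕ => (TwoExact s q ∧
      ∃ a : ℕ, (q : ℤ) ∣ (g ^ 2 - g + Polynomial.C (lam : ℤ)).eval (a : ℤ)) ∧ q₁ < q) c₂
    (fun q r : ℕ => ((r : ZMod q₁) ^ (q₁ / 2) = -1 ∧ (r : ZMod q) ^ (q / 2) = -1 ∧
      ∃ a : ℕ, (r : ℤ) ∣ g.eval (a : ℤ)) ∧ lam * (C + 1) < r)
    (fun r t : ℕ => (r : ℤ) ∣ g.eval (t : ℤ)) (h5 _ q₁ (hS₂ s hs3)) ?_ ?_ ?_
  · rintro q hq ⟨-, hq₁q⟩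
    exact h5 _ (lam * (C + 1)) (hK₀ q₁ q hq₁ hq (by omega) (by omega))
  · rintro q r hr ⟨⟨-, -, ha⟩, -⟩
    exact h3 g r hr ha
  · rintro n ⟨hn, hn₁⟩ q hq ⟨⟨ht₂, hr₂⟩, hq₁q⟩ hn₂ r hr ⟨⟨hra, hrb, -⟩, hrl⟩ hrn
    have hF₁ := SQP.root_mod _ q₁ n (c₁ q₁) hn₁ (hc₁ q₁ hr₁)
    have hF₂ := SQP.root_mod _ q n (c₂ q) hn₂ (hc₂ q hr₂)
    simp only [eval_add, eval_sub, eval_pow, eval_C] at hF₁ hF₂
    exact SQPN.final hK hP h6 (g.eval (n : ℤ)) lam C s q₁ q r hlam hs1 hq₁ hq hq₁q (by omega)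
      (by omega) (by omega) ht₁ ht₂ hF₁ hF₂ hr hrl hra hrb hrn hn

end Pool.Agent.H183.NI
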